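import Pool.Agent.N977.Q.Lac

/-!
A class of bilinear perturbations of the Navier-Stokes equations.
-/

open MeasureTheory Set
open scoped ContDiff

namespace Pool.Agent.N977.S

open H459R3.NS Pool.Agent.N977.Q

/-- The class of the perturbations `K(u, v)` of order `σ` (with a logarithm of power `p`) and size
`δ`: bilinear operators mapping pairs of smooth periodic vector fields to smooth periodic vector
fields of divergence zero, such that `K` ignores constants, `K(u, v)` is orthogonal to `v` (hence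
`K(u, u)` preserves the energy), and
`|∫ K(u,v)·w| ≤ δ 5^(|s₁|+|s₂|+|s₃|) ‖u‖_{s₁,a₁} ‖v‖_{s₂,a₂} ‖w‖_{s₃,a₃}`
for all real `s₁ + s₂ + s₃ = σ` and all `a₁, a₂, a₃ ≥ 0` with `a₁ + a₂ + a₃ = p`. -/
structure LowE (σ p δ : ℝ) (K : (V → V) → (V → V) → V → V) : Prop where
  smooth : ∀ u v, SPV u → SPV v → SPV (K u v)
  add_left : ∀ u u' v, SPV u → SPV u' → SPV v → K (fun x => u x + u' x) v = fun x => K u v x + K u' v x
  add_right : ∀ u v v', SPV u → SPV v → SPV v' → K u (fun x => v x + v' x) = fun x => K u v x + K u v' x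
  smul_left : ∀ (r : ℝ) (u v : V → V), SPV u → SPV v → K (fun x => r • u x) v = fun x => r • K u v x
  smul_right : ∀ (r : ℝ) (u v : V → V), SPV u → SPV v → K u (fun x => r • v x) = fun x => r • K u v x
  const_left : ∀ (a : V) (u v : V → V), SPV u → SPV v → K (fun x => u x + a) v = K u v
  const_right : ∀ (a : V) (u v : V → V), SPV u → SPV v → K u (fun x => v x + a) = K u v
  divfree : ∀ u v, SPV u → SPV v → ∀ x, ∑ i, pd i (fun y => K u v y i) x = 0
  energy : ∀ u v, SPV u → SPV v → ∑ i, ∫ x in cube, K u v x i * v x i = 0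
  bound : ∀ u v w, SPV u → SPV v → SPV w → ∀ s₁ s₂ s₃ a₁ a₂ a₃ : ℝ, s₁ + s₂ + s₃ = σ →
    0 ≤ a₁ → 0 ≤ a₂ → 0 ≤ a₃ → a₁ + a₂ + a₃ = p →
    |∑ i, ∫ x in cube, K u v x i * w x i|
      ≤ δ * 5 ^ (|s₁| + |s₂| + |s₃|) * (Hn s₁ a₁ u * Hn s₂ a₂ v * Hn s₃ a₃ w)

/-- The datum: a trigonometric polynomial with energy `1`, parallel to the third axis and
independent of the third variable. -/
noncomputable def dat2 (N : ℕ) (x : V) : V :=
  ![0, 0, √2 * (4 / 5 * Real.cos (4 * Real.pi * N * x 0)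
    + 3 / 5 * Real.cos (2 * Real.pi * N * (2 * x 0 + x 1)))]

/-- The norm `∑ₖ (1 + |k|)⁶ |û(k)|` (with all frequencies `k ∈ ℤ³`). -/
noncomputable def Wn (u : V → V) : ℝ := ∑' k : K3, (1 + len k) ^ 6 * un u k

end Pool.Agent.N977.S
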