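import Pool.Agent.N977.Q.Tw1

/-!
Weighted `ℓ¹` norms of Fourier coefficients and the convection term.
-/

open MeasureTheory Set Filter Topology
open scoped ContDiff ComplexConjugate

namespace Pool.Agent.N977.S

open H459R3.NS Pool.Agent.N977.Q

/-! ### convolutions -/

/-- convolution -/
noncomputable def cv (a b : K3 → ℝ) (k : K3) : ℝ := ∑' l, a l * b (k - l)

/-- the weights -/
noncomputable def gw (M : ℝ) (k : K3) : ℝ := max 1 (len k / M) ^ 3

theorem one_le_gw (M : ℝ) (k : K3) : 1 ≤ gw M k := one_le_pow₀ (le_max_left _ _)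

theorem gw_pos (M : ℝ) (k : K3) : 0 < gw M k := one_pos.trans_le (one_le_gw M k)

theorem gw_anti {M M' : ℝ} (hM : 0 < M) (h : M ≤ M') (k : K3) : gw M' k ≤ gw M k := by
  unfold gw
  apply pow_le_pow_left₀ (by positivity)
  exact max_le_max le_rfl (div_le_div_of_nonneg_left (len_nonneg k) hM h)

theorem gw_sub {M : ℝ} (hM : 0 < M) (k l : K3) : gw M k ≤ 8 * (gw M l * gw M (k - l)) := by
  unfold gw
  set a := max 1 (len l / M) with ha
  set b := max 1 (len (k - l) / M) with hb
  have ha1 : 1 ≤ a := le_max_left _ _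
  have hb1 : 1 ≤ b := le_max_left _ _
  have h1 : max 1 (len k / M) ≤ 2 * (a * b) := by
    apply max_le
    · nlinarith
    · have h2 : len k ≤ len l + len (k - l) := by
        have := len_add_le l (k - l)
        rwa [add_sub_cancel] at this
      have h3 : len k / M ≤ len l / M + len (k - l) / M := by
        rw [← add_div]; exact div_le_div_of_nonneg_right h2 hM.le
      have h4 : len l / M ≤ a := le_max_right _ _
      have h5 : len (k - l) / M ≤ b := le_max_right _ _
      nlinarith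
  have h6 := pow_le_pow_left₀ (by positivity) h1 3
  calc _ ≤ _ := h6
    _ = _ := by ring

variable {a b : K3 → ℝ} {M : ℝ}

theorem le_gw_mul (ha0 : ∀ k, 0 ≤ a k) (k : K3) : a k ≤ gw M k * a k :=
  le_mul_of_one_le_left (ha0 k) (one_le_gw M k)

theorem summable_of_gw (ha0 : ∀ k, 0 ≤ a k) (ha : Summable fun k => gw M k * a k) : Summable a :=
  Summable.of_nonneg_of_le ha0 (le_gw_mul ha0) ha

theorem cv_summable (ha0 : ∀ k, 0 ≤ a k) (hb0 : ∀ k, 0 ≤ b k) (ha : Summable a) (hb : Summable b)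
    (k : K3) : Summable fun l => a l * b (k - l) := by
  have hB : ∀ m, b m ≤ ∑' m, b m := fun m => hb.le_tsum m fun _ _ => hb0 _
  exact Summable.of_nonneg_of_le (fun l => mul_nonneg (ha0 _) (hb0 _))
    (fun l => mul_le_mul_of_nonneg_left (hB _) (ha0 _)) (ha.mul_right _)

theorem cv_nonneg (ha0 : ∀ k, 0 ≤ a k) (hb0 : ∀ k, 0 ≤ b k) (k : K3) : 0 ≤ cv a b k :=
  tsum_nonneg fun l => mul_nonneg (ha0 _) (hb0 _)

theorem cv_mono {a' b' : K3 → ℝ} (ha0 : ∀ k, 0 ≤ a k) (hb0 : ∀ k, 0 ≤ b k)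
    (ha : ∀ k, a k ≤ a' k) (hb : ∀ k, b k ≤ b' k) (hs : Summable a') (ht : Summable b') (k : K3) :
    cv a b k ≤ cv a' b' k := by
  have hs0 := Summable.of_nonneg_of_le ha0 ha hs
  have ht0 := Summable.of_nonneg_of_le hb0 hb ht
  exact (cv_summable ha0 hb0 hs0 ht0 k).tsum_le_tsum
    (fun l => mul_le_mul (ha _) (hb _) (hb0 _) ((ha0 _).trans (ha _)))
    (cv_summable (fun k => (ha0 k).trans (ha k)) (fun k => (hb0 k).trans (hb k)) hs ht k)

/-- the change of variables `(k, l) ↦ (l, k - l)` -/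
def shr (G : Type) [AddCommGroup G] : G × G ≃ G × G where
  toFun p := (p.2, p.1 - p.2)
  invFun p := (p.1 + p.2, p.1)
  left_inv p := by ext <;> simp
  right_inv p := by ext <;> simp

theorem conv_gen {G : Type} [AddCommGroup G] {A B : G → ℝ} (hA0 : ∀ k, 0 ≤ A k)
    (hB0 : ∀ k, 0 ≤ B k) (ha : Summable A) (hb : Summable B) :
    (∀ k, Summable fun l => A l * B (k - l)) ∧ Summable (fun k => ∑' l, A l * B (k - l)) ∧
    ∑' k, ∑' l, A l * B (k - l) = (∑' k, A k) * ∑' k, B k := by
  have hP : Summable fun p : G × G => A p.1 * B p.2 :=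
    Summable.mul_of_nonneg ha hb hA0 hB0
  have hPt : (∑' k, A k) * ∑' k, B k = ∑' p : G × G, A p.1 * B p.2 :=
    ha.tsum_mul_tsum hb hP
  have hQ : Summable ((fun p : G × G => A p.1 * B p.2) ∘ shr G) := (shr G).summable_iff.2 hP
  have hQ' : Summable fun p : G × G => A p.2 * B (p.1 - p.2) := hQ
  have hQt : ∑' p : G × G, A p.2 * B (p.1 - p.2) = ∑' p : G × G, A p.1 * B p.2 :=
    (shr G).tsum_eq fun p => A p.1 * B p.2
  refine ⟨fun k => hQ'.prod_factor k, hQ'.prod, ?_⟩
  rw [hPt, ← hQt]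
  exact hQ'.tsum_prod.symm

theorem gw_cv (hM : 0 < M) (ha0 : ∀ k, 0 ≤ a k) (hb0 : ∀ k, 0 ≤ b k)
    (ha : Summable fun k => gw M k * a k) (hb : Summable fun k => gw M k * b k) :
    Summable (fun k => gw M k * cv a b k) ∧
    ∑' k, gw M k * cv a b k ≤ 8 * ((∑' k, gw M k * a k) * ∑' k, gw M k * b k) := by
  have hg0 : ∀ k, 0 ≤ gw M k := fun k => (gw_pos M k).le
  set A : K3 → ℝ := fun k => gw M k * a k with hA
  set B : K3 → ℝ := fun k => gw M k * b k with hB
  have hA0 : ∀ k, 0 ≤ A k := fun k => mul_nonneg (hg0 k) (ha0 k)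
  have hB0 : ∀ k, 0 ≤ B k := fun k => mul_nonneg (hg0 k) (hb0 k)
  obtain ⟨hQ0, hQ1, hQ2⟩ := conv_gen hA0 hB0 ha hb
  have hle : ∀ k, gw M k * cv a b k ≤ 8 * ∑' l, A l * B (k - l) := by
    intro k
    unfold cv
    rw [← tsum_mul_left, ← tsum_mul_left]
    have hs := cv_summable ha0 hb0 (summable_of_gw ha0 ha) (summable_of_gw hb0 hb) k
    refine (hs.mul_left _).tsum_le_tsum (fun l => ?_) ((hQ0 k).mul_left 8)
    simp only [hA, hB]
    have h1 := mul_le_mul_of_nonneg_right (gw_sub hM k l) (mul_nonneg (ha0 l) (hb0 (k - l)))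
    calc _ ≤ _ := h1
      _ = _ := by ring
  have hnn : ∀ k, 0 ≤ gw M k * cv a b k := fun k => mul_nonneg (hg0 k) (cv_nonneg ha0 hb0 k)
  have hs := Summable.of_nonneg_of_le hnn hle (hQ1.mul_left 8)
  refine ⟨hs, (hs.tsum_le_tsum hle (hQ1.mul_left 8)).trans (le_of_eq ?_)⟩
  rw [tsum_mul_left, hQ2]

theorem gw_cv_le (hM : 0 < M) (ha0 : ∀ k, 0 ≤ a k) (hb0 : ∀ k, 0 ≤ b k)
    (ha : Summable fun k => gw M k * a k) (hb : Summable fun k => gw M k * b k) (k : K3) :
    gw M k * cv a b k ≤ 8 * ((∑' k, gw M k * a k) * ∑' k, gw M k * b k) := by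
  obtain ⟨h1, h2⟩ := gw_cv hM ha0 hb0 ha hb
  exact (h1.le_tsum k fun l _ => mul_nonneg (gw_pos M l).le (cv_nonneg ha0 hb0 l)).trans h2

/-! ### the convection term -/

theorem S_fr {f : V → ℝ} (hf : SP f) (x : V) : S (fr f) x = (f x : ℂ) := by
  have hs := (rap_fr hf).summable
  have hp : Per (fun x => (f x : ℂ)) := fun i x => by simp only [hf.per i x]
  have h := hasSum_fc hp (Complex.continuous_ofReal.comp hf.cont) hs x
  exact h.tsum_eq

theorem fr_mul {f g : V → ℝ} (hf : SP f) (hg : SP g) (k : K3) :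
    HasSum (fun l => fr f l * fr g (k - l)) (fr (fun x => f x * g x) k) := by
  have h := integral_ee_S_S (-k) (rap_fr hf).summable (rap_fr hg).summable
  rw [neg_neg] at h
  have e : (∫ x in cube, ee (-k) x * (S (fr f) x * S (fr g) x)) = fr (fun x => f x * g x) k := by
    unfold fr fc
    congr 1
    funext x
    have h1 := S_fr hf x
    have h2 := S_fr hg x
    unfold fr fc at h1 h2
    rw [h1, h2]
    push_cast
    ring
  rwa [e] at h

variable {v : V → V}

theorem un_summable (hv : SPV v) : Summable (un v) := by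
  have h : Summable fun k => ∑ i, ‖fr (fun x => v x i) k‖ :=
    summable_sum fun i _ => (rap_fr (spv_sp hv i)).summable.norm
  exact Summable.of_nonneg_of_le (un_nonneg v) (un_le_sum v) h

theorem fr_conv (hv : SPV v) (hdiv : ∀ x, ∑ i, pd i (fun y => v y i) x = 0) (i : Fin 3) (k : K3) :
    HasSum (fun l => (2 * Real.pi * Complex.I * ∑ j, (k j : ℂ) * fr (fun x => v x j) l)
      * fr (fun x => v x i) (k - l)) (fr (conv (fun i y => v y i) i) k) := by
  have hV : ∀ i, SP (fun y => v y i) := spv_sp hv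
  have h1 : ∀ j, HasSum (fun l => fr (fun x => v x j) l * fr (pd j fun y => v y i) (k - l))
      (fr (fun x => v x j * pd j (fun y => v y i) x) k) := fun j => fr_mul (hV j) ((hV i).pd j) k
  have h2 : fr (conv (fun i y => v y i) i) k
      = ∑ j, fr (fun x => v x j * pd j (fun y => v y i) x) k := by
    unfold conv
    simp only [Fin.sum_univ_three]
    exact fr_add3 ((hV 0).mul ((hV i).pd 0)).cont ((hV 1).mul ((hV i).pd 1)).cont
      ((hV 2).mul ((hV i).pd 2)).cont k
  rw [h2]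
  have h3 := hasSum_sum (s := Finset.univ) fun j (_ : j ∈ Finset.univ) => h1 j
  convert h3 using 1
  funext l
  simp_rw [fun j => fr_pd' (hV i) (j := j) (k - l)]
  have h4 := sum_k_fr hv hdiv l
  have h5 : ∑ j, (k j : ℂ) * fr (fun x => v x j) l
      = ∑ j, ((k - l) j : ℂ) * fr (fun x => v x j) l := by
    have : ∀ j, (((k - l) j : ℤ) : ℂ) * fr (fun x => v x j) l
        = (k j : ℂ) * fr (fun x => v x j) l - (l j : ℂ) * fr (fun x => v x j) l := fun j => by
      simp only [Pi.sub_apply]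
      push_cast
      ring
    simp_rw [this]
    rw [Finset.sum_sub_distrib, h4, sub_zero]
  rw [h5, Finset.mul_sum, Finset.sum_mul]
  refine Finset.sum_congr rfl fun j _ => ?_
  ring

theorem cs_un (c : Fin 3 → ℂ) (v : V → V) (l : K3) :
    ‖∑ i, c i * fr (fun x => v x i) l‖ ≤ √(∑ i, ‖c i‖ ^ 2) * un v l := by
  refine (norm_sum_le _ _).trans ?_
  simp_rw [norm_mul]
  exact Real.sum_mul_le_sqrt_mul_sqrt Finset.univ (fun i => ‖c i‖) fun i => ‖fr (fun x => v x i) l‖

/-- the bound for the convection term -/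
theorem conv_le (hv : SPV v) (hdiv : ∀ x, ∑ i, pd i (fun y => v y i) x = 0) (c : Fin 3 → ℂ)
    (k : K3) : ‖∑ i, c i * fr (conv (fun i y => v y i) i) k‖
      ≤ √(∑ i, ‖c i‖ ^ 2) * (2 * Real.pi * len k * cv (un v) (un v) k) := by
  have h1 := hasSum_sum (s := Finset.univ) fun i (_ : i ∈ Finset.univ) =>
    (fr_conv hv hdiv i k).mul_left (c i)
  have hs := cv_summable (un_nonneg v) (un_nonneg v) (un_summable hv) (un_summable hv) k
  have hle : ∀ l, ‖∑ i, c i * ((2 * Real.pi * Complex.I * ∑ j, (k j : ℂ) * fr (fun x => v x j) l)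
      * fr (fun x => v x i) (k - l))‖
      ≤ √(∑ i, ‖c i‖ ^ 2) * (2 * Real.pi * len k) * (un v l * un v (k - l)) := by
    intro l
    have e : ∑ i, c i * ((2 * Real.pi * Complex.I * ∑ j, (k j : ℂ) * fr (fun x => v x j) l)
        * fr (fun x => v x i) (k - l))
        = (2 * Real.pi * Complex.I * ∑ j, (k j : ℂ) * fr (fun x => v x j) l)
          * ∑ i, c i * fr (fun x => v x i) (k - l) := by
      rw [Finset.mul_sum (f := fun i => c i * fr (fun x => v x i) (k - l))]
      exact Finset.sum_congr rfl fun i _ => by ring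
    rw [e, norm_mul, norm_mul, norm_mul, norm_mul, Complex.norm_I, Complex.norm_ofNat,
      Complex.norm_real, Real.norm_eq_abs, abs_of_pos Real.pi_pos, mul_one]
    have h2 := cs_un c v (k - l)
    have h3 := cs_un (fun j => (k j : ℂ)) v l
    have h4 : √(∑ i, ‖(k i : ℂ)‖ ^ 2) = len k := by
      unfold len
      congr 1
      exact Finset.sum_congr rfl fun i _ => by rw [Complex.norm_intCast, sq_abs]
    rw [h4] at h3
    have h5 : 0 ≤ √(∑ i, ‖c i‖ ^ 2) := Real.sqrt_nonneg _
    calc 2 * Real.pi * ‖∑ j, (k j : ℂ) * fr (fun x => v x j) l‖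
          * ‖∑ i, c i * fr (fun x => v x i) (k - l)‖
        ≤ 2 * Real.pi * (len k * un v l) * (√(∑ i, ‖c i‖ ^ 2) * un v (k - l)) := by
          apply mul_le_mul (mul_le_mul_of_nonneg_left h3 (by positivity)) h2 (norm_nonneg _)
          have := len_nonneg k
          have := un_nonneg v l
          positivity
      _ = _ := by ring
  have h6 := (hs.mul_left (√(∑ i, ‖c i‖ ^ 2) * (2 * Real.pi * len k))).hasSum
  have h7 := tsum_of_norm_bounded h6 hle
  rw [h1.tsum_eq, tsum_mul_left] at h7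
  refine h7.trans (le_of_eq ?_)
  unfold cv
  ring

end Pool.Agent.N977.S
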