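import Pool.Agent.N977.S.Op3
import Pool.Agent.N977.S.Four

/-!
The evolution of the Fourier coefficients.
-/

open MeasureTheory Set Filter Topology
open scoped ContDiff ComplexConjugate

namespace Pool.Agent.N977.S

open H459R3.NS Pool.Agent.N977.Q
open Pool.Agent.N977.K (SolK cmp)

theorem re_deriv {T : ℝ} {f : ℝ → V → ℝ} {g : V → ℝ}
    (hf : ContDiffOn ℝ ∞ (fun z : ℝ × V => f z.1 z.2) (Ico 0 T ×ˢ univ)) {t : ℝ}
    (ht : t ∈ Ioo 0 T) (hd : ∀ x, HasDerivAt (fun s => f s x) (g x) t) (hg : Continuous g)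
    (k : K3) : HasDerivAt (fun s => (fr (f s) k).re) (fr g k).re t := by
  have hc : ∀ s ∈ Ioo 0 T, Continuous (f s) := fun s hs =>
    (contDiff_slice hf (Ioo_subset_Ico_self hs)).continuous
  have hev : (fun s => (fr (f s) k).re) =ᶠ[𝓝 t] fun s =>
      ∫ x in cube, Real.cos (2 * Real.pi * ph k x) * f s x := by
    filter_upwards [Ioo_mem_nhds ht.1 ht.2] with s hs
    rw [fr_re (hc s hs)]
  have hC : ContDiffOn ℝ 1 (fun z : ℝ × V => Real.cos (2 * Real.pi * ph k z.2) * f z.1 z.2)
      (Ioo 0 T ×ˢ univ) :=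
    ((Real.contDiff_cos.comp (ph_smooth k)).contDiffOn).mul
      (mono_Ioo (f := f) hf (by norm_cast))
  have h1 := hasDerivAt_int (F := fun s x => Real.cos (2 * Real.pi * ph k x) * f s x) hC ht
  have e1 : ∀ x, deriv (fun s => Real.cos (2 * Real.pi * ph k x) * f s x) t
      = Real.cos (2 * Real.pi * ph k x) * g x := fun x => ((hd x).const_mul _).deriv
  simp_rw [e1] at h1
  refine (h1.congr_of_eventuallyEq hev).congr_deriv ?_
  rw [fr_re hg]

theorem im_deriv {T : ℝ} {f : ℝ → V → ℝ} {g : V → ℝ}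
    (hf : ContDiffOn ℝ ∞ (fun z : ℝ × V => f z.1 z.2) (Ico 0 T ×ˢ univ)) {t : ℝ}
    (ht : t ∈ Ioo 0 T) (hd : ∀ x, HasDerivAt (fun s => f s x) (g x) t) (hg : Continuous g)
    (k : K3) : HasDerivAt (fun s => (fr (f s) k).im) (fr g k).im t := by
  have hc : ∀ s ∈ Ioo 0 T, Continuous (f s) := fun s hs =>
    (contDiff_slice hf (Ioo_subset_Ico_self hs)).continuous
  have hev : (fun s => (fr (f s) k).im) =ᶠ[𝓝 t] fun s =>
      -∫ x in cube, Real.sin (2 * Real.pi * ph k x) * f s x := by
    filter_upwards [Ioo_mem_nhds ht.1 ht.2] with s hs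
    rw [fr_im (hc s hs)]
  have hC : ContDiffOn ℝ 1 (fun z : ℝ × V => Real.sin (2 * Real.pi * ph k z.2) * f z.1 z.2)
      (Ioo 0 T ×ˢ univ) :=
    ((Real.contDiff_sin.comp (ph_smooth k)).contDiffOn).mul
      (mono_Ioo (f := f) hf (by norm_cast))
  have h1 := hasDerivAt_int (F := fun s x => Real.sin (2 * Real.pi * ph k x) * f s x) hC ht
  have e1 : ∀ x, deriv (fun s => Real.sin (2 * Real.pi * ph k x) * f s x) t
      = Real.sin (2 * Real.pi * ph k x) * g x := fun x => ((hd x).const_mul _).deriv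
  simp_rw [e1] at h1
  refine (h1.neg.congr_of_eventuallyEq hev).congr_deriv ?_
  rw [fr_im hg]

theorem re_cont {T : ℝ} {f : ℝ → V → ℝ}
    (hf : ContDiffOn ℝ ∞ (fun z : ℝ × V => f z.1 z.2) (Ico 0 T ×ˢ univ)) (k : K3) :
    ContinuousOn (fun s => (fr (f s) k).re) (Ico 0 T) := by
  have hc : ∀ s ∈ Ico 0 T, Continuous (f s) := fun s hs => (contDiff_slice hf hs).continuous
  have h1 : ContinuousOn (fun s => ∫ x in cube, Real.cos (2 * Real.pi * ph k x) * f s x)
      (Ico 0 T) := continuousOn_int (F := fun s x => Real.cos (2 * Real.pi * ph k x) * f s x)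
      (((Real.contDiff_cos.comp (ph_smooth k (n := ∞))).continuous.continuousOn).mul
        hf.continuousOn)
  exact h1.congr fun s hs => fr_re (hc s hs) k

theorem im_cont {T : ℝ} {f : ℝ → V → ℝ}
    (hf : ContDiffOn ℝ ∞ (fun z : ℝ × V => f z.1 z.2) (Ico 0 T ×ˢ univ)) (k : K3) :
    ContinuousOn (fun s => (fr (f s) k).im) (Ico 0 T) := by
  have hc : ∀ s ∈ Ico 0 T, Continuous (f s) := fun s hs => (contDiff_slice hf hs).continuous
  have h1 : ContinuousOn (fun s => -∫ x in cube, Real.sin (2 * Real.pi * ph k x) * f s x)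
      (Ico 0 T) := (continuousOn_int (F := fun s x => Real.sin (2 * Real.pi * ph k x) * f s x)
      (((Real.contDiff_sin.comp (ph_smooth k (n := ∞))).continuous.continuousOn).mul
        hf.continuousOn)).neg
  exact h1.congr fun s hs => fr_im (hc s hs) k

/-! ### the energy -/

section energy

variable {ν T σ p δ : ℝ} {u : ℝ → V → V} {q : ℝ → V → ℝ} {K : (V → V) → (V → V) → V → V}

theorem EE_derivE (hK : LowE σ p δ K) (hs : SolK ν T K u q) {t : ℝ} (ht : t ∈ Ioo 0 T) :
    HasDerivAt (fun s => EE 0 (u s)) (-(2 * ν * (2 * Real.pi) ^ 2 * EE 1 (u t))) t := by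
  have htI := Ioo_subset_Ico_self ht
  have hU : ∀ i, SP (fun y => u t y i) := fun i => sol_sp hs htI i
  have hUs : SPV (u t) := sp_spv hU
  have hKs := hK.smooth _ _ hUs hUs
  have hq := sol_sp_p hs htI
  have hcv : ∀ i, SP (conv (fun i y => u t y i) i) := fun i => sp_conv hU i
  have hev : (fun s => EE 0 (u s)) =ᶠ[𝓝 t] fun s => ∑ i, ∫ x in cube, u s x i ^ 2 := by
    filter_upwards [Ioo_mem_nhds ht.1 ht.2] with s hs'
    exact EE_zero (sol_spv hs (Ioo_subset_Ico_self hs'))
  set g : Fin 3 → V → ℝ := fun i x => ν * lap (fun y => u t y i) x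
      - conv (fun i y => u t y i) i x - pd i (q t) x + K (u t) (u t) x i with hgdef
  have h1 : ∀ i, HasDerivAt (fun s => ∫ x in cube, u s x i ^ 2)
      (∫ x in cube, 2 * (u t x i * g i x)) t := by
    intro i
    have key := hasDerivAt_int (F := fun s x => u s x i ^ 2)
      ((mono_Ioo (f := fun s x => u s x i) (smooth_c hs i) (by norm_cast)).pow 2) ht
    refine key.congr_deriv ?_
    congr 1
    funext x
    have h2 := (sol_hasDerivAt hs ht i x).pow 2
    have h3 : HasDerivAt (fun s => u s x i ^ 2) _ t := h2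
    rw [h3.deriv]
    simp only [hgdef]
    push_cast
    ring
  refine ((HasDerivAt.fun_sum fun i (_ : i ∈ Finset.univ) => h1 i).congr_of_eventuallyEq
    hev).congr_deriv ?_
  have h4 : ∀ i, ∫ x in cube, 2 * (u t x i * g i x)
      = 2 * (ν * (∫ x in cube, lap (fun y => u t y i) x * u t x i)
        - (∫ x in cube, u t x i * conv (fun i y => u t y i) i x)
        - (∫ x in cube, u t x i * pd i (q t) x) + ∫ x in cube, K (u t) (u t) x i * u t x i) := by
    intro i
    have i1 : IntegrableOn (fun x => lap (fun y => u t y i) x * u t x i) cube :=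
      ((hU i).lap.mul (hU i)).int
    have i2 : IntegrableOn (fun x => u t x i * conv (fun i y => u t y i) i x) cube :=
      ((hU i).mul (hcv i)).int
    have i3 : IntegrableOn (fun x => u t x i * pd i (q t) x) cube := ((hU i).mul (hq.pd i)).int
    have i4 : IntegrableOn (fun x => K (u t) (u t) x i * u t x i) cube :=
      ((spv_sp hKs i).mul (hU i)).int
    rw [integral_const_mul]
    congr 1
    have e1 : (fun x => u t x i * g i x) = fun x => ν * (lap (fun y => u t y i) x * u t x i)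
        - u t x i * conv (fun i y => u t y i) i x - u t x i * pd i (q t) x
        + K (u t) (u t) x i * u t x i := by
      funext x
      simp only [hgdef]
      ring
    rw [e1, integral_add (isub (isub (i1.const_mul ν) i2) i3) i4,
      integral_sub (isub (i1.const_mul ν) i2) i3, integral_sub (i1.const_mul ν) i2,
      integral_const_mul]
  simp_rw [h4]
  rw [← Finset.mul_sum, Finset.sum_add_distrib, Finset.sum_sub_distrib, Finset.sum_sub_distrib,
    int_conv hU (hs.divfree t htI), int_press hU (hs.divfree t htI) hq, hK.energy _ _ hUs hUs,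
    ← Finset.mul_sum]
  have h5 : ∑ i, ∫ x in cube, lap (fun y => u t y i) x * u t x i
      = -((2 * Real.pi) ^ 2 * EE 1 (u t)) := by
    rw [EE_one hUs, ← Finset.sum_neg_distrib]
    refine Finset.sum_congr rfl fun i _ => ?_
    rw [int_lap_mul (hU i) (hU i)]
    congr 1
    refine Finset.sum_congr rfl fun j _ => ?_
    congr 1
    funext x
    rw [sq]
  rw [h5]
  ring

/-- the energy decreases -/
theorem EE_leE (hν : 0 ≤ ν) (hK : LowE σ p δ K) (hs : SolK ν T K u q) {t : ℝ} (ht : t ∈ Ico 0 T) :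
    EE 0 (u t) ≤ EE 0 (u 0) := by
  have h := cmp (f := fun s => EE 0 (u s)) (f' := fun s => -(2 * ν * (2 * Real.pi) ^ 2 * EE 1 (u s)))
    (g := fun _ => 0) (g' := fun _ => 0) ht.1
    ((EE_continuousOn hs).mono fun s hs' => ⟨hs'.1, hs'.2.trans_lt ht.2⟩) continuousOn_const
    (fun s hs' => EE_derivE hK hs ⟨hs'.1, hs'.2.trans ht.2⟩) (fun s _ => hasDerivAt_const _ _)
    (fun s _ => by
      have := EE_nonneg 1 (u s)
      have : 0 ≤ 2 * ν * (2 * Real.pi) ^ 2 * EE 1 (u s) := by positivity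
      linarith)
  simp only [sub_self] at h
  linarith

/-- every Fourier coefficient is bounded by the initial energy -/
theorem un_leE (hν : 0 ≤ ν) (hK : LowE σ p δ K) (hs : SolK ν T K u q) {t : ℝ} (ht : t ∈ Ico 0 T)
    (k : K3) : un (u t) k ^ 2 ≤ EE 0 (u 0) := by
  refine le_trans ?_ (EE_leE hν hK hs ht)
  have h := (EE_summable (sol_spv hs ht) 0).le_tsum k fun l _ =>
    mul_nonneg (pow_nonneg (len_nonneg l) _) (sq_nonneg _)
  simpa [EE] using h

end energy

/-! ### the coefficients of the perturbation -/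

variable {N : ℕ} {α μ : ℕ → ℝ}

theorem Rm_one (k : K3) (x : V) : Rm k 1 x = Real.cos (2 * Real.pi * ph k x) := by
  rw [Rm_eq]; simp

theorem Rm_I (k : K3) (x : V) : Rm k (-Complex.I) x = Real.sin (2 * Real.pi * ph k x) := by
  rw [Rm_eq]; simp

/-- indicator of `k = ± l` -/
noncomputable def pm (k l : K3) : ℝ := ((if l = k then 1 else 0) + (if l = -k then 1 else 0)) / 2

theorem kb_re (h : Ga N α μ) {u v : V → V} (hu : SPV u) (hv : SPV v) (k : K3) :
    HasSum (fun n => cX N α u v n * (√2 * pm k ((Mn N n : ℤ) • ev 0))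
      + cY N α μ u v n * (√2 * pm k ((Mn N n : ℤ) • ev 2))) (fr (kb N α μ u v) k).re := by
  have h1 := KB_test h hu hv (f := Rm k 1) (Rm_cont k 1)
  have e1 : ∫ x in cube, kb N α μ u v x * Rm k 1 x = (fr (kb N α μ u v) k).re := by
    rw [fr_re (kb_sp h hu hv).cont]
    congr 1
    funext x
    rw [Rm_one]
    ring
  have e2 : ∀ l : K3, (fr (Rm k 1) l).re = pm k l := by
    intro l
    rw [fr_Rm]
    unfold pm
    split_ifs <;> simp
  rw [e1] at h1
  simpa only [e2] using h1

theorem kb_im (h : Ga N α μ) {u v : V → V} (hu : SPV u) (hv : SPV v) (k : K3) :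
    (fr (kb N α μ u v) k).im = 0 := by
  have h1 := KB_test h hu hv (f := Rm k (-Complex.I)) (Rm_cont k _)
  have e1 : ∫ x in cube, kb N α μ u v x * Rm k (-Complex.I) x = -(fr (kb N α μ u v) k).im := by
    rw [fr_im (kb_sp h hu hv).cont, neg_neg]
    congr 1
    funext x
    rw [Rm_I]
    ring
  have e2 : ∀ l : K3, (fr (Rm k (-Complex.I)) l).re = 0 := by
    intro l
    rw [fr_Rm]
    split_ifs <;> simp
  rw [e1] at h1
  simp only [e2, mul_zero, add_zero] at h1
  have := h1.unique hasSum_zero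
  linarith

/-- the designated frequencies -/
def Dg (N : ℕ) (k : K3) : Prop := ∃ n : ℕ, ∃ e : Fin 6, (e = 0 ∨ e = 2) ∧
  (k = (Mn N n : ℤ) • ev e ∨ k = -((Mn N n : ℤ) • ev e))

theorem Dg_two {k : K3} (h : Dg N k) : k 2 = 0 := by
  obtain ⟨n, e, -, h | h⟩ := h
  · rw [h]; simp [ev_two' e]
  · rw [h]; simp [ev_two' e]

theorem pm_zero {k l : K3} (h1 : l ≠ k) (h2 : l ≠ -k) : pm k l = 0 := by
  unfold pm; rw [if_neg h1, if_neg h2]; simp

theorem kb_not (h : Ga N α μ) {u v : V → V} (hu : SPV u) (hv : SPV v) {k : K3} (hk : ¬ Dg N k) :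
    fr (kb N α μ u v) k = 0 := by
  apply Complex.ext
  · have h1 := kb_re h hu hv k
    have e : ∀ n e, (e = 0 ∨ e = 2) → pm k ((Mn N n : ℤ) • ev e) = 0 := fun n e he => by
      apply pm_zero
      · intro h'
        exact hk ⟨n, e, he, Or.inl h'.symm⟩
      · intro h'
        exact hk ⟨n, e, he, Or.inr (by rw [h', neg_neg])⟩
    simp only [e _ 0 (Or.inl rfl), e _ 2 (Or.inr rfl), mul_zero, add_zero] at h1
    exact h1.unique hasSum_zero
  · exact kb_im h hu hv k

theorem pm_ev (hN : 0 < N) (n m : ℕ) (e e' : Fin 6) :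
    pm ((Mn N n : ℤ) • ev e) ((Mn N m : ℤ) • ev e') = if n = m ∧ e = e' then 1 / 2 else 0 := by
  have hn : (0 : ℤ) < Mn N n := by exact_mod_cast Mn_pos hN n
  have hm : (0 : ℤ) < Mn N m := by exact_mod_cast Mn_pos hN m
  unfold pm
  rw [if_neg (smul_ev_ne_neg hm hn e' e)]
  by_cases h : n = m ∧ e = e'
  · obtain ⟨h1, h2⟩ := h
    subst h1; subst h2
    simp
  · rw [if_neg h, if_neg]
    · simp
    · intro h'
      obtain ⟨h1, h2⟩ := smul_ev_eq hm hn e' e h'
      exact h ⟨(Mn_inj hN (by exact_mod_cast h2)).symm, h1.symm⟩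

theorem kb_ev (h : Ga N α μ) {u v : V → V} (hu : SPV u) (hv : SPV v) (n : ℕ) :
    √2 * (fr (kb N α μ u v) ((Mn N n : ℤ) • ev 0)).re = cX N α u v n ∧
    √2 * (fr (kb N α μ u v) ((Mn N n : ℤ) • ev 2)).re = cY N α μ u v n := by
  have h2 : √2 * √2 = 2 := Real.mul_self_sqrt (by norm_num)
  constructor
  · have h1 := kb_re h hu hv ((Mn N n : ℤ) • ev 0)
    simp only [pm_ev h.N1] at h1
    have e : (fr (kb N α μ u v) ((Mn N n : ℤ) • ev 0)).re = cX N α u v n * (√2 * (1 / 2)) := by
      refine h1.unique ?_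
      have := hasSum_ite_eq n (cX N α u v n * (√2 * (1 / 2)))
      refine hs_congr' this fun m => ?_
      by_cases hm : n = m
      · subst hm; simp
      · rw [if_neg (fun h => hm h.1), if_neg (fun h => hm h.1), if_neg (fun h => hm h.symm)]; simp
    rw [e]
    linear_combination (cX N α u v n / 2) * h2
  · have h1 := kb_re h hu hv ((Mn N n : ℤ) • ev 2)
    simp only [pm_ev h.N1] at h1
    have e : (fr (kb N α μ u v) ((Mn N n : ℤ) • ev 2)).re = cY N α μ u v n * (√2 * (1 / 2)) := by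
      refine h1.unique ?_
      have := hasSum_ite_eq n (cY N α μ u v n * (√2 * (1 / 2)))
      refine hs_congr' this fun m => ?_
      by_cases hm : n = m
      · subst hm; simp
      · rw [if_neg (fun h => hm h.1), if_neg (fun h => hm h.1), if_neg (fun h => hm h.symm)]; simp
    rw [e]
    linear_combination (cY N α μ u v n / 2) * h2

end Pool.Agent.N977.S
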