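import Pool.Agent.N977.S.Op

/-!
The perturbation belongs to the class.
-/

open MeasureTheory Set Filter Topology
open scoped ContDiff ComplexConjugate

namespace Pool.Agent.N977.S

open H459R3.NS Pool.Agent.N977.Q

variable {N : ℕ} {α μ : ℕ → ℝ} {u v w : V → V}

theorem sh_sum {A g : ℕ → ℝ} (h : Summable fun n => A n * g (n + 1)) :
    HasSum (fun n => sh A n * g n) (∑' n, A n * g (n + 1)) := by
  have h1 := (hasSum_nat_add_iff (f := fun n => sh A n * g n) 1).1 h.hasSum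
  simpa [sh] using h1

theorem hs_congr' {f g : ℕ → ℝ} {a : ℝ} (h : HasSum f a) (e : ∀ n, g n = f n) : HasSum g a := by
  rw [show g = f from funext e]; exact h

/-- the terms of the trilinear form -/
noncomputable def Tm (N : ℕ) (α μ : ℕ → ℝ) (u v w : V → V) (n : ℕ) : ℝ :=
  aa N 2 u n * (α n * (aa N 2 v n * (aa N 0 w (n + 1) - aa N 0 w n)
      - (aa N 0 v (n + 1) - aa N 0 v n) * aa N 2 w n)
    + μ n * (aa N 2 v n * aa N 2 w (n + 1) - aa N 2 v (n + 1) * aa N 2 w n))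

theorem KB_tri (h : Ga N α μ) (hu : SPV u) (hv : SPV v) (hw : SPV w) :
    HasSum (Tm N α μ u v w) (∑ i, ∫ x in cube, KB N α μ u v x i * w x i) := by
  have hN := h.N1
  have e : (∑ i, ∫ x in cube, KB N α μ u v x i * w x i)
      = ∫ x in cube, kb N α μ u v x * w x 2 := by
    rw [Fin.sum_univ_three]
    have h0 : ∀ i : Fin 3, i ≠ 2 → ∫ x in cube, KB N α μ u v x i * w x i = 0 := by
      intro i hi
      have h1 : (fun x => KB N α μ u v x i * w x i) = fun _ => 0 := by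
        funext x
        rw [show KB N α μ u v x i = 0 from congrFun (KB_ne (N := N) (α := α) (μ := μ) u v hi) x,
          zero_mul]
      rw [h1, integral_zero]
    rw [h0 0 (by decide), h0 1 (by decide), zero_add, zero_add]
    have h2 : (fun x => KB N α μ u v x 2 * w x 2) = fun x => kb N α μ u v x * w x 2 := by
      funext x
      rw [show KB N α μ u v x 2 = kb N α μ u v x from
        congrFun (KB_two (N := N) (α := α) (μ := μ) u v) x]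
    rw [h2]
  rw [e]
  have h1 := KB_test h hu hv (spv_sp hw 2).cont
  set A : ℕ → ℝ := fun n => α n * (aa N 2 u n * aa N 2 v n) with hA
  set B : ℕ → ℝ := fun n => μ n * (aa N 2 u n * aa N 2 v n) with hB
  set P : ℕ → ℝ := fun n => α n * (aa N 2 u n * (aa N 0 v n - aa N 0 v (n + 1))) with hP
  set Q : ℕ → ℝ := fun n => μ n * (aa N 2 u n * aa N 2 v (n + 1)) with hQ
  have rA : Rd N A := ((aa_rd hu 2).mul (aa_rd hv 2)).coef zero_le_one h.a3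
  have rB : Rd N B := ((aa_rd hu 2).mul (aa_rd hv 2)).coef zero_le_one h.m3
  have rP : Rd N P := ((aa_rd hu 2).mul ((aa_rd hv 0).sub (aa_rd hv 0).succ)).coef zero_le_one h.a3
  have rQ : Rd N Q := ((aa_rd hu 2).mul (aa_rd hv 2).succ).coef zero_le_one h.m3
  have rx := aa_rd (N := N) hw 0
  have ry := aa_rd (N := N) hw 2
  have s1 := (rA.mul rx.succ).summable hN
  have s2 := (rA.mul rx).summable hN
  have s3 := (rP.mul ry).summable hN
  have s4 := (rB.mul ry.succ).summable hN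
  have s5 := (rQ.mul ry).summable hN
  have t1 := sh_sum (A := A) (g := aa N 0 w) s1
  have t4 := sh_sum (A := B) (g := aa N 2 w) s4
  have k1 := (((t1.sub s2.hasSum).add s3.hasSum).add t4).sub s5.hasSum
  have k2 := (((s1.hasSum.sub s2.hasSum).add s3.hasSum).add s4.hasSum).sub s5.hasSum
  have k3 : HasSum (fun n => (cX N α u v n) * (√2 * (fr (fun x => w x 2) ((Mn N n : ℤ) • ev 0)).re)
      + (cY N α μ u v n) * (√2 * (fr (fun x => w x 2) ((Mn N n : ℤ) • ev 2)).re)) _ :=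
    hs_congr' k1 fun n => by
      simp only [cX, cY, aa, hA, hB, hP, hQ]
      ring
  rw [h1.unique k3]
  refine hs_congr' k2 fun n => ?_
  simp only [Tm, hA, hB, hP, hQ]
  ring

theorem KB_energy (h : Ga N α μ) (hu : SPV u) (hv : SPV v) :
    ∑ i, ∫ x in cube, KB N α μ u v x i * v x i = 0 := by
  have h1 := KB_tri h hu hv hv
  have h2 : Tm N α μ u v v = fun _ => 0 := by
    funext n
    unfold Tm
    ring
  rw [h2] at h1
  exact h1.unique hasSum_zero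

theorem len_five {k : K3} (h : ∑ j, k j ^ 2 ≤ 25) : len k ≤ 5 := by
  unfold len
  rw [Real.sqrt_le_left (by norm_num)]
  have : ((∑ j, k j ^ 2 : ℤ) : ℝ) ≤ ((25 : ℤ) : ℝ) := by exact_mod_cast h
  push_cast at this
  linarith

theorem sqrt_two_cube : √2 * √2 * √2 ≤ 3 := by
  have h1 : √2 * √2 = 2 := Real.mul_self_sqrt (by norm_num)
  rw [h1]
  have h2 : √2 ≤ 3 / 2 := by rw [Real.sqrt_le_left (by norm_num)]; norm_num
  linarith

theorem KB_bound (h : Ga N α μ) {g σ p : ℝ} (hg : 0 ≤ g)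
    (hα : ∀ n, |α n| ≤ g * ((Mn N n : ℝ) ^ σ * Real.log (Mn N n) ^ p))
    (hμ : ∀ n, |μ n| ≤ g * ((Mn N n : ℝ) ^ σ * Real.log (Mn N n) ^ p))
    {s₁ s₂ s₃ a₁ a₂ a₃ : ℝ} (hs : s₁ + s₂ + s₃ = σ) (h1 : 0 ≤ a₁) (h2 : 0 ≤ a₂) (h3 : 0 ≤ a₃)
    (ha : a₁ + a₂ + a₃ = p) (hu : SPV u) (hv : SPV v) (hw : SPV w) :
    |∑ i, ∫ x in cube, KB N α μ u v x i * w x i|
      ≤ (18 * g) * 5 ^ (|s₁| + |s₂| + |s₃|) * (Hn s₁ a₁ u * Hn s₂ a₂ v * Hn s₃ a₃ w) := by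
  set R := g * 5 ^ (|s₁| + |s₂| + |s₃|) * (Hn s₁ a₁ u * Hn s₂ a₂ v * Hn s₃ a₃ w) with hR
  have n0 : ev 0 ≠ 0 := ev_ne' 0
  have n2 : ev 2 ≠ 0 := ev_ne' 2
  have m0 : ((2 : ℤ) ^ 1) • ev 0 ≠ 0 := by unfold ev; decide
  have m2 : ((2 : ℤ) ^ 1) • ev 2 ≠ 0 := by unfold ev; decide
  have l0 : len (ev 0) ≤ 5 := len_five (by unfold ev; decide)
  have l2 : len (ev 2) ≤ 5 := len_five (by unfold ev; decide)
  have k0 : len (((2 : ℤ) ^ 1) • ev 0) ≤ 5 := len_five (by unfold ev; decide)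
  have k2 : len (((2 : ℤ) ^ 1) • ev 2) ≤ 5 := len_five (by unfold ev; decide)
  obtain ⟨x1, y1⟩ := tri_sum h.N0 hg hα hs h1 h2 h3 ha hu hv hw n2 n2 m0 l2 l2 k0
  obtain ⟨x2, y2⟩ := tri_sum h.N0 hg hα hs h1 h2 h3 ha hu hv hw n2 n2 n0 l2 l2 l0
  obtain ⟨x3, y3⟩ := tri_sum h.N0 hg hα hs h1 h2 h3 ha hu hv hw n2 m0 n2 l2 k0 l2
  obtain ⟨x4, y4⟩ := tri_sum h.N0 hg hα hs h1 h2 h3 ha hu hv hw n2 n0 n2 l2 l0 l2
  obtain ⟨x5, y5⟩ := tri_sum h.N0 hg hμ hs h1 h2 h3 ha hu hv hw n2 n2 m2 l2 l2 k2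
  obtain ⟨x6, y6⟩ := tri_sum h.N0 hg hμ hs h1 h2 h3 ha hu hv hw n2 m2 n2 l2 k2 l2
  have hA : ∀ (u : V → V) (e : Fin 6) n, |aa N e u (n + 1)|
      ≤ √2 * un u ((Mn N n : ℤ) • (((2 : ℤ) ^ 1) • ev e)) := by
    intro u e n
    rw [Mn_add_smul]
    exact aa_abs e u (n + 1)
  have hT : ∀ {a b c A B C : ℝ}, |a| ≤ √2 * A → |b| ≤ √2 * B → |c| ≤ √2 * C → 0 ≤ A → 0 ≤ B →
      0 ≤ C → ∀ γ : ℝ, |γ * (a * b * c)| ≤ 3 * (|γ| * (A * B * C)) := by
    intro a b c A B C ha hb hc hA hB hC γ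
    rw [abs_mul, abs_mul, abs_mul]
    have e1 : |a| * |b| * |c| ≤ (√2 * A) * (√2 * B) * (√2 * C) :=
      mul_le_mul (mul_le_mul ha hb (abs_nonneg _) (by positivity)) hc (abs_nonneg _) (by positivity)
    have e2 : (√2 * A) * (√2 * B) * (√2 * C) ≤ 3 * (A * B * C) := by
      have := mul_le_mul_of_nonneg_right sqrt_two_cube (by positivity : 0 ≤ A * B * C)
      calc _ = √2 * √2 * √2 * (A * B * C) := by ring
        _ ≤ _ := this
    have := mul_le_mul_of_nonneg_left (e1.trans e2) (abs_nonneg γ)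
    linarith
  have hle : ∀ n, |Tm N α μ u v w n| ≤
      3 * ((((((|α n| * (un u ((Mn N n : ℤ) • ev 2) * un v ((Mn N n : ℤ) • ev 2)
          * un w ((Mn N n : ℤ) • (((2 : ℤ) ^ 1) • ev 0))))
        + (|α n| * (un u ((Mn N n : ℤ) • ev 2) * un v ((Mn N n : ℤ) • ev 2)
          * un w ((Mn N n : ℤ) • ev 0))))
        + (|α n| * (un u ((Mn N n : ℤ) • ev 2) * un v ((Mn N n : ℤ) • (((2 : ℤ) ^ 1) • ev 0))
          * un w ((Mn N n : ℤ) • ev 2))))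
        + (|α n| * (un u ((Mn N n : ℤ) • ev 2) * un v ((Mn N n : ℤ) • ev 0)
          * un w ((Mn N n : ℤ) • ev 2))))
        + (|μ n| * (un u ((Mn N n : ℤ) • ev 2) * un v ((Mn N n : ℤ) • ev 2)
          * un w ((Mn N n : ℤ) • (((2 : ℤ) ^ 1) • ev 2)))))
        + (|μ n| * (un u ((Mn N n : ℤ) • ev 2) * un v ((Mn N n : ℤ) • (((2 : ℤ) ^ 1) • ev 2))
          * un w ((Mn N n : ℤ) • ev 2)))) := by
    intro n
    have U := un_nonneg u ((Mn N n : ℤ) • ev 2)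
    have V0 := un_nonneg v ((Mn N n : ℤ) • ev 0)
    have V2 := un_nonneg v ((Mn N n : ℤ) • ev 2)
    have V3 := un_nonneg v ((Mn N n : ℤ) • (((2 : ℤ) ^ 1) • ev 0))
    have V4 := un_nonneg v ((Mn N n : ℤ) • (((2 : ℤ) ^ 1) • ev 2))
    have W0 := un_nonneg w ((Mn N n : ℤ) • ev 0)
    have W2 := un_nonneg w ((Mn N n : ℤ) • ev 2)
    have W3 := un_nonneg w ((Mn N n : ℤ) • (((2 : ℤ) ^ 1) • ev 0))
    have W4 := un_nonneg w ((Mn N n : ℤ) • (((2 : ℤ) ^ 1) • ev 2))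
    have a1 := hT (aa_abs 2 u n) (aa_abs 2 v n) (hA w 0 n) U V2 W3 (α n)
    have a2 := hT (aa_abs 2 u n) (aa_abs 2 v n) (aa_abs 0 w n) U V2 W0 (α n)
    have a3 := hT (aa_abs 2 u n) (hA v 0 n) (aa_abs 2 w n) U V3 W2 (α n)
    have a4 := hT (aa_abs 2 u n) (aa_abs 0 v n) (aa_abs 2 w n) U V0 W2 (α n)
    have a5 := hT (aa_abs 2 u n) (aa_abs 2 v n) (hA w 2 n) U V2 W4 (μ n)
    have a6 := hT (aa_abs 2 u n) (hA v 2 n) (aa_abs 2 w n) U V4 W2 (μ n)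
    have e : Tm N α μ u v w n
        = α n * (aa N 2 u n * aa N 2 v n * aa N 0 w (n + 1))
          - α n * (aa N 2 u n * aa N 2 v n * aa N 0 w n)
          - α n * (aa N 2 u n * aa N 0 v (n + 1) * aa N 2 w n)
          + α n * (aa N 2 u n * aa N 0 v n * aa N 2 w n)
          + μ n * (aa N 2 u n * aa N 2 v n * aa N 2 w (n + 1))
          - μ n * (aa N 2 u n * aa N 2 v (n + 1) * aa N 2 w n) := by
      unfold Tm; ring
    rw [e, abs_le]
    rw [abs_le] at a1 a2 a3 a4 a5 a6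
    constructor <;> linarith
  have hs1 := ((((x1.add x2).add x3).add x4).add x5).add x6
  have h4 := tsum_of_norm_bounded (hs1.mul_left 3).hasSum (fun n => by
    rw [Real.norm_eq_abs]; exact hle n)
  rw [(KB_tri h hu hv hw).tsum_eq, Real.norm_eq_abs, tsum_mul_left,
    ((((x1.add x2).add x3).add x4).add x5).tsum_add x6,
    (((x1.add x2).add x3).add x4).tsum_add x5, ((x1.add x2).add x3).tsum_add x4,
    (x1.add x2).tsum_add x3, x1.tsum_add x2] at h4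
  refine h4.trans ?_
  have e : (18 * g) * 5 ^ (|s₁| + |s₂| + |s₃|) * (Hn s₁ a₁ u * Hn s₂ a₂ v * Hn s₃ a₃ w)
      = 18 * R := by rw [hR]; ring
  rw [e]
  linarith

theorem sh_congr {f g : ℕ → ℝ} (h : ∀ n, f n = g n) : sh f = sh g := by
  rw [show f = g from funext h]

theorem KB_congr {u u' v v' : V → V} (h1 : ∀ n, aa N 2 u n = aa N 2 u' n)
    (h2 : ∀ n, aa N 2 v n = aa N 2 v' n) (h3 : ∀ n, aa N 0 v n = aa N 0 v' n) :
    KB N α μ u v = KB N α μ u' v' := by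
  have e1 : aa N 2 u = aa N 2 u' := funext h1
  have e2 : aa N 2 v = aa N 2 v' := funext h2
  have e3 : aa N 0 v = aa N 0 v' := funext h3
  have hX : cX N α u v = cX N α u' v' := by
    funext n; unfold cX; rw [e1, e2]
  have hY : cY N α μ u v = cY N α μ u' v' := by
    funext n; unfold cY; rw [e1, e2, e3]
  funext x i
  unfold KB kb
  rw [hX, hY]

/-- linear combinations -/
theorem kb_lin (h : Ga N α μ) {u₁ v₁ u₂ v₂ u₃ v₃ : V → V} (r s : ℝ)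
    (hu₁ : SPV u₁) (hv₁ : SPV v₁) (hu₂ : SPV u₂) (hv₂ : SPV v₂)
    (eX : ∀ n, cX N α u₃ v₃ n = r * cX N α u₁ v₁ n + s * cX N α u₂ v₂ n)
    (eY : ∀ n, cY N α μ u₃ v₃ n = r * cY N α μ u₁ v₁ n + s * cY N α μ u₂ v₂ n) (x : V) :
    kb N α μ u₃ v₃ x = r * kb N α μ u₁ v₁ x + s * kb N α μ u₂ v₂ x := by
  have hN := h.N1
  have key : ∀ (k : K3) (f₁ f₂ f₃ : ℕ → ℝ), Rd N f₁ → Rd N f₂ → (∀ n, f₃ n = r * f₁ n + s * f₂ n) →
      Ls N k (fun n => ((√2 * f₃ n : ℝ) : ℂ)) x = r * Ls N k (fun n => ((√2 * f₁ n : ℝ) : ℂ)) x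
        + s * Ls N k (fun n => ((√2 * f₂ n : ℝ) : ℂ)) x := by
    intro k f₁ f₂ f₃ h1 h2 h3
    have e : (fun n => ((√2 * f₃ n : ℝ) : ℂ)) = fun n => ((√2 * (r * f₁ n) : ℝ) : ℂ)
        + ((√2 * (s * f₂ n) : ℝ) : ℂ) := by
      funext n; rw [h3]; push_cast; ring
    rw [e, Ls_add hN (h1.const r).ld (h2.const s).ld]
    have e1 : (fun n => ((√2 * (r * f₁ n) : ℝ) : ℂ)) = fun n => (r : ℂ) * ((√2 * f₁ n : ℝ) : ℂ) := by
      funext n; push_cast; ring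
    have e2 : (fun n => ((√2 * (s * f₂ n) : ℝ) : ℂ)) = fun n => (s : ℂ) * ((√2 * f₂ n : ℝ) : ℂ) := by
      funext n; push_cast; ring
    rw [e1, e2, Ls_smul, Ls_smul]
  unfold kb
  rw [key _ _ _ _ (cX_rd h hu₁ hv₁) (cX_rd h hu₂ hv₂) eX,
    key _ _ _ _ (cY_rd h hu₁ hv₁) (cY_rd h hu₂ hv₂) eY]
  ring

theorem sh_lin {f₁ f₂ f₃ : ℕ → ℝ} {r s : ℝ} (h : ∀ n, f₃ n = r * f₁ n + s * f₂ n) (n : ℕ) :
    sh f₃ n = r * sh f₁ n + s * sh f₂ n := by
  cases n with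
  | zero => simp [sh]
  | succ n => exact h n

theorem KB_lin (h : Ga N α μ) {u₁ v₁ u₂ v₂ u₃ v₃ : V → V} (r s : ℝ)
    (hu₁ : SPV u₁) (hv₁ : SPV v₁) (hu₂ : SPV u₂) (hv₂ : SPV v₂)
    (e2 : ∀ n m, aa N 2 u₃ n * aa N 2 v₃ m
      = r * (aa N 2 u₁ n * aa N 2 v₁ m) + s * (aa N 2 u₂ n * aa N 2 v₂ m))
    (e0 : ∀ n m, aa N 2 u₃ n * aa N 0 v₃ m
      = r * (aa N 2 u₁ n * aa N 0 v₁ m) + s * (aa N 2 u₂ n * aa N 0 v₂ m)) :
    KB N α μ u₃ v₃ = fun x => r • KB N α μ u₁ v₁ x + s • KB N α μ u₂ v₂ x := by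
  have eX : ∀ n, cX N α u₃ v₃ n = r * cX N α u₁ v₁ n + s * cX N α u₂ v₂ n := by
    intro n
    unfold cX
    rw [sh_lin (f₁ := fun n => α n * (aa N 2 u₁ n * aa N 2 v₁ n))
      (f₂ := fun n => α n * (aa N 2 u₂ n * aa N 2 v₂ n)) (r := r) (s := s)
      (fun n => by rw [e2]; ring), e2]
    ring
  have eY : ∀ n, cY N α μ u₃ v₃ n = r * cY N α μ u₁ v₁ n + s * cY N α μ u₂ v₂ n := by
    intro n
    unfold cY
    rw [sh_lin (f₁ := fun n => μ n * (aa N 2 u₁ n * aa N 2 v₁ n))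
      (f₂ := fun n => μ n * (aa N 2 u₂ n * aa N 2 v₂ n)) (r := r) (s := s)
      (fun n => by rw [e2]; ring), e2, mul_sub (aa N 2 u₃ n), e0, e0]
    ring
  funext x i
  simp only [KB, Pi.add_apply, Pi.smul_apply, smul_eq_mul]
  by_cases hi : i = 2
  · rw [if_pos hi, if_pos hi, if_pos hi]
    exact kb_lin h r s hu₁ hv₁ hu₂ hv₂ eX eY x
  · rw [if_neg hi, if_neg hi, if_neg hi]
    ring

end Pool.Agent.N977.S

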