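import Pool.Agent.N977.Q.Tw4
import Pool.Agent.N977.S.Op2

/-!
The perturbation belongs to the class.
-/

open MeasureTheory Set Filter Topology
open scoped ContDiff ComplexConjugate

namespace Pool.Agent.N977.S

open H459R3.NS Pool.Agent.N977.Q

variable {N : ℕ} {α μ : ℕ → ℝ} {u v w : V → V}

theorem ee_single_two {k : K3} (hk : k 2 = 0) (a : ℝ) : ee k (Pi.single 2 a) = 1 := by
  unfold ee
  rw [ph_single, hk]
  simp

theorem Ls_two {k : K3} (hk : k 2 = 0) (z : ℕ → ℂ) (a : ℝ) (x : V) :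
    Ls N k z (x + Pi.single 2 a) = Ls N k z x := by
  rw [← Ls_shift]
  unfold Ls
  refine tsum_congr fun n => ?_
  show Rm _ (ee _ _ * z n) x = _
  rw [ee_single_two (by simp [hk]), one_mul]

theorem ev_two' (e : Fin 6) : ev e 2 = 0 := by revert e; unfold ev; decide

theorem kb_two (u v : V → V) (a : ℝ) (x : V) :
    kb N α μ u v (x + Pi.single 2 a) = kb N α μ u v x := by
  unfold kb
  rw [Ls_two (ev_two' 0), Ls_two (ev_two' 2)]

theorem KB_divfree (h : Ga N α μ) (hu : SPV u) (hv : SPV v) (x : V) :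
    ∑ i, pd i (fun y => KB N α μ u v y i) x = 0 := by
  rw [Fin.sum_univ_three, KB_two, KB_ne u v (by decide), KB_ne u v (by decide),
    pd_two_ind (kb_sp h hu hv) (kb_two u v)]
  simp [pd]

theorem KB_low (h : Ga N α μ) {g σ p δ : ℝ} (hg : 0 ≤ g)
    (hα : ∀ n, |α n| ≤ g * ((Mn N n : ℝ) ^ σ * Real.log (Mn N n) ^ p))
    (hμ : ∀ n, |μ n| ≤ g * ((Mn N n : ℝ) ^ σ * Real.log (Mn N n) ^ p)) (hδ : 18 * g ≤ δ) :
    LowE σ p δ (KB N α μ) where
  smooth := fun _ _ hu hv => KB_spv h hu hv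
  add_left := fun u u' v hu hu' hv => by
    have := KB_lin h (u₁ := u) (v₁ := v) (u₂ := u') (v₂ := v) (u₃ := fun x => u x + u' x) (v₃ := v)
      1 1 hu hv hu' hv (fun n m => by rw [aa_add hu hu']; ring) (fun n m => by
        rw [aa_add hu hu']; ring)
    simpa using this
  add_right := fun u v v' hu hv hv' => by
    have := KB_lin h (u₁ := u) (v₁ := v) (u₂ := u) (v₂ := v') (u₃ := u) (v₃ := fun x => v x + v' x)
      1 1 hu hv hu hv' (fun n m => by rw [aa_add hv hv']; ring) (fun n m => by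
        rw [aa_add hv hv']; ring)
    simpa using this
  smul_left := fun r u v hu hv => by
    have := KB_lin h (u₁ := u) (v₁ := v) (u₂ := u) (v₂ := v) (u₃ := fun x => r • u x) (v₃ := v)
      r 0 hu hv hu hv (fun n m => by rw [aa_smul]; ring) (fun n m => by rw [aa_smul]; ring)
    simpa using this
  smul_right := fun r u v hu hv => by
    have := KB_lin h (u₁ := u) (v₁ := v) (u₂ := u) (v₂ := v) (u₃ := u) (v₃ := fun x => r • v x)
      r 0 hu hv hu hv (fun n m => by rw [aa_smul]; ring) (fun n m => by rw [aa_smul]; ring)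
    simpa using this
  const_left := fun a u v hu _ => KB_congr (fun n => aa_const h.N1 hu a 2 n) (fun _ => rfl)
    fun _ => rfl
  const_right := fun a u v _ hv => KB_congr (fun _ => rfl) (fun n => aa_const h.N1 hv a 2 n)
    fun n => aa_const h.N1 hv a 0 n
  divfree := fun _ _ hu hv x => KB_divfree h hu hv x
  energy := fun _ _ hu hv => KB_energy h hu hv
  bound := fun u v w hu hv hw s₁ s₂ s₃ a₁ a₂ a₃ hs h1 h2 h3 ha => by
    refine (KB_bound h hg hα hμ hs h1 h2 h3 ha hu hv hw).trans ?_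
    have hH := mul_nonneg (mul_nonneg (Hn_nonneg s₁ a₁ u) (Hn_nonneg s₂ a₂ v)) (Hn_nonneg s₃ a₃ w)
    exact mul_le_mul_of_nonneg_right (mul_le_mul_of_nonneg_right hδ (by positivity)) hH

end Pool.Agent.N977.S
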