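import Pool.Agent.N977.S.Sys

/-!
The contribution of the cascade to the weighted norm.
-/

open MeasureTheory Set Filter Topology

namespace Pool.Agent.N977.S

open H459R3.NS Pool.Agent.N977.Q

theorem ext_sum {φ : ℕ → K3} (hφ : Function.Injective φ) {w : K3 → ℝ} {X : ℕ → ℝ}
    (hs : Summable fun m => w (φ m) * X m) :
    HasSum (fun k => w k * Function.extend φ X 0 k) (∑' m, w (φ m) * X m) := by
  have e : (fun k => w k * Function.extend φ X 0 k)
      = Function.extend φ (fun m => w (φ m) * X m) 0 := by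
    funext k
    by_cases hk : ∃ m, φ m = k
    · obtain ⟨m, rfl⟩ := hk
      rw [hφ.extend_apply, hφ.extend_apply]
    · rw [Function.extend_apply' _ _ _ hk, Function.extend_apply' _ _ _ hk]
      simp
  rw [e]
  exact (hasSum_extend_zero hφ).2 hs.hasSum

theorem ext_nonneg {φ : ℕ → K3} (hφ : Function.Injective φ) {X : ℕ → ℝ} (hX : ∀ m, 0 ≤ X m)
    (k : K3) : 0 ≤ Function.extend φ X 0 k := by
  by_cases hk : ∃ m, φ m = k
  · obtain ⟨m, rfl⟩ := hk
    rw [hφ.extend_apply]
    exact hX m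
  · rw [Function.extend_apply' _ _ _ hk]
    exact le_rfl

variable {T c E : ℝ} {N : ℕ} {α μ : ℕ → ℝ} {x y f g : ℕ → ℝ → ℝ} {a b : K3 → ℝ → ℝ}

/-- the contribution of the cascade -/
theorem Sy.GG_le (h : Sy T c E N α μ x y f g a b) (n : ℕ) {t : ℝ} (ht : t ∈ Icc 0 T) {X : ℕ → ℝ}
    (hX : ∀ m, |x m t| ≤ X m ∧ |y m t| ≤ X m) (hs : Summable fun m => 8 ^ (m - n) * X m) :
    GG a (Mn N n) t ≤ GG b (Mn N n) t + 108 * ∑' m, 8 ^ (m - n) * X m := by
  have hN := h.N0
  have hM : (1 : ℝ) ≤ Mn N n := one_le_Mn h.N0 n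
  have hX0 : ∀ m, 0 ≤ X m := fun m => (abs_nonneg _).trans (hX m).1
  set φ : Fin 6 → ℕ → K3 := fun e m => (Mn N m : ℤ) • ev e with hφ
  set ψ : Fin 6 → ℕ → K3 := fun e m => -((Mn N m : ℤ) • ev e) with hψ
  have iφ : ∀ e, Function.Injective (φ e) := fun e => smul_inj hN (ev_ne' e)
  have iψ : ∀ e, Function.Injective (ψ e) := fun e m m' hm => iφ e (neg_injective hm)
  have bφ : ∀ e, (e = 0 ∨ e = 2) → ∀ m, gw (Mn N n) (φ e m) * X m ≤ 27 * (8 ^ (m - n) * X m) := by
    intro e he m
    have := mul_le_mul_of_nonneg_right (gw_ev_le hN n m e he) (hX0 m)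
    linarith
  have bψ : ∀ e, (e = 0 ∨ e = 2) → ∀ m, gw (Mn N n) (ψ e m) * X m ≤ 27 * (8 ^ (m - n) * X m) := by
    intro e he m
    have := bφ e he m
    simp only [hψ, gw_neg]
    exact this
  have sφ : ∀ e, (e = 0 ∨ e = 2) → Summable fun m => gw (Mn N n) (φ e m) * X m := fun e he =>
    Summable.of_nonneg_of_le (fun m => mul_nonneg (gw_pos _ _).le (hX0 m)) (bφ e he) (hs.mul_left _)
  have sψ : ∀ e, (e = 0 ∨ e = 2) → Summable fun m => gw (Mn N n) (ψ e m) * X m := fun e he =>
    Summable.of_nonneg_of_le (fun m => mul_nonneg (gw_pos _ _).le (hX0 m)) (bψ e he) (hs.mul_left _)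
  have tφ : ∀ e, (e = 0 ∨ e = 2) → ∑' m, gw (Mn N n) (φ e m) * X m
      ≤ 27 * ∑' m, 8 ^ (m - n) * X m := fun e he => by
    rw [← tsum_mul_left]
    exact (sφ e he).tsum_le_tsum (bφ e he) (hs.mul_left _)
  have tψ : ∀ e, (e = 0 ∨ e = 2) → ∑' m, gw (Mn N n) (ψ e m) * X m
      ≤ 27 * ∑' m, 8 ^ (m - n) * X m := fun e he => by
    rw [← tsum_mul_left]
    exact (sψ e he).tsum_le_tsum (bψ e he) (hs.mul_left _)
  have z0 : (0 : Fin 6) = 0 ∨ (0 : Fin 6) = 2 := Or.inl rfl
  have z2 : (2 : Fin 6) = 0 ∨ (2 : Fin 6) = 2 := Or.inr rfl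
  have h1 := ext_sum (iφ 0) (sφ 0 z0)
  have h2 := ext_sum (iψ 0) (sψ 0 z0)
  have h3 := ext_sum (iφ 2) (sφ 2 z2)
  have h4 := ext_sum (iψ 2) (sψ 2 z2)
  have h5 := ((((h.sb hM ht).hasSum.add h1).add h2).add h3).add h4
  have h6 : GG a (Mn N n) t ≤ GG b (Mn N n) t + ∑' m, gw (Mn N n) (φ 0 m) * X m
      + ∑' m, gw (Mn N n) (ψ 0 m) * X m + ∑' m, gw (Mn N n) (φ 2 m) * X m
      + ∑' m, gw (Mn N n) (ψ 2 m) * X m := by
    refine hasSum_le (fun k => ?_) (h.sa hM ht).hasSum h5
    have g0 := (gw_pos (Mn N n) k).le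
    have e1 := ext_nonneg (iφ 0) hX0 k
    have e2 := ext_nonneg (iψ 0) hX0 k
    have e3 := ext_nonneg (iφ 2) hX0 k
    have e4 := ext_nonneg (iψ 2) hX0 k
    have key : a k t ≤ b k t + Function.extend (φ 0) X 0 k + Function.extend (ψ 0) X 0 k
        + Function.extend (φ 2) X 0 k + Function.extend (ψ 2) X 0 k := by
      by_cases hk : Dg N k
      · obtain ⟨m, e, he, hk | hk⟩ := hk
        · rcases he with rfl | rfl
          · have q1 : Function.extend (φ 0) X 0 k = X m := by
              rw [hk]; exact (iφ 0).extend_apply _ _ m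
            have q2 := (h.ax m t ht).1
            rw [← hk] at q2
            linarith [(hX m).1]
          · have q1 : Function.extend (φ 2) X 0 k = X m := by
              rw [hk]; exact (iφ 2).extend_apply _ _ m
            have q2 := (h.ay m t ht).1
            rw [← hk] at q2
            linarith [(hX m).2]
        · rcases he with rfl | rfl
          · have q1 : Function.extend (ψ 0) X 0 k = X m := by
              rw [hk]; exact (iψ 0).extend_apply _ _ m
            have q2 := (h.ax m t ht).2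
            rw [← hk] at q2
            linarith [(hX m).1]
          · have q1 : Function.extend (ψ 2) X 0 k = X m := by
              rw [hk]; exact (iψ 2).extend_apply _ _ m
            have q2 := (h.ay m t ht).2
            rw [← hk] at q2
            linarith [(hX m).2]
      · have := h.ab k t hk
        linarith
    have := mul_le_mul_of_nonneg_left key g0
    calc gw (Mn N n) k * a k t ≤ _ := this
      _ = _ := by ring
  have q1 := tφ 0 z0
  have q2 := tψ 0 z0
  have q3 := tφ 2 z2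
  have q4 := tψ 2 z2
  linarith

end Pool.Agent.N977.S
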