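import Pool.Agent.N977.S.Fin

/-!
From a solution of the equations to the system of the Fourier coefficients.
-/

open MeasureTheory Set Filter Topology
open scoped ContDiff ComplexConjugate

namespace Pool.Agent.N977.S

open H459R3.NS Pool.Agent.N977.Q
open Pool.Agent.N977.K (SolK cmp)

/-- clamping to `[0, T]` -/
noncomputable def cl (T t : ℝ) : ℝ := max 0 (min t T)

theorem cl_cont (T : ℝ) : Continuous (cl T) := by unfold cl; fun_prop

theorem cl_mem {T : ℝ} (hT : 0 ≤ T) (t : ℝ) : cl T t ∈ Icc 0 T := by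
  unfold cl
  exact ⟨le_max_left _ _, max_le hT (min_le_right _ _)⟩

theorem cl_eq {T t : ℝ} (ht : t ∈ Icc 0 T) : cl T t = t := by
  unfold cl
  rw [min_eq_left ht.2, max_eq_right ht.1]

theorem cl_ev {T t : ℝ} (ht : t ∈ Ioo 0 T) {f : ℝ → ℝ} : (fun s => f (cl T s)) =ᶠ[𝓝 t] f := by
  filter_upwards [Ioo_mem_nhds ht.1 ht.2] with s hs
  rw [cl_eq (Ioo_subset_Icc_self hs)]

variable {N : ℕ} {α μ : ℕ → ℝ} {ν T T₂ ε E p δ : ℝ} {u : ℝ → V → V} {q : ℝ → V → ℝ}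

theorem aa_cont (h : SolK ν T₂ (KB N α μ) u q) (e : Fin 6) (n : ℕ) :
    ContinuousOn (fun t => aa N e (u t) n) (Ico 0 T₂) :=
  continuousOn_const.mul (re_cont (f := fun t x => u t x 2) (smooth_c h 2) _)

theorem un_cont (h : SolK ν T₂ (KB N α μ) u q) (k : K3) :
    ContinuousOn (fun t => un (u t) k) (Ico 0 T₂) := by
  unfold un
  exact (continuousOn_finsetSum _ fun i _ =>
    fr_continuousOn (f := fun t x => u t x i) (smooth_c h i) k).sqrt

theorem bn_cont (h : SolK ν T₂ (KB N α μ) u q) (k : K3) :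
    ContinuousOn (fun t => bn N (u t) k ^ 2) (Ico 0 T₂) := by
  simp_rw [bn_sq]
  refine continuousOn_finsetSum _ fun i _ => ?_
  by_cases hi : i = 2 ∧ Dg N k
  · obtain ⟨hi, hk⟩ := hi
    subst hi
    have e : (fun t => ‖cw N (u t) k 2‖ ^ 2) = fun t => (fr (fun x => u t x 2) k).im ^ 2 := by
      funext t
      rw [cw_dg hk]
      simp [sq_abs]
    rw [e]
    exact (im_cont (f := fun t x => u t x 2) (smooth_c h 2) k).pow 2
  · have e : (fun t => ‖cw N (u t) k i‖ ^ 2) = fun t => ‖fr (fun x => u t x i) k‖ ^ 2 := by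
      funext t
      unfold cw; rw [if_neg hi, sub_zero]
    rw [e]
    exact fr_continuousOn (f := fun t x => u t x i) (smooth_c h i) k

theorem un_dec (h : SolK ν T₂ (KB N α μ) u q) (hT : T < T₂) :
    ∃ C, 0 ≤ C ∧ ∀ t ∈ Icc 0 T, ∀ k, (H459R3.NS.N k : ℝ) ^ 8 * un (u t) k ≤ C := by
  choose B hB0 hB using fun i => decay_time (f := fun t x => u t x i) (smooth_c h i)
    (fun t ht j x => by simp only [h.per_u t ht j x]) hT 8
  refine ⟨∑ i, B i, Finset.sum_nonneg fun i _ => hB0 i, fun t ht k => ?_⟩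
  calc (H459R3.NS.N k : ℝ) ^ 8 * un (u t) k
      ≤ (H459R3.NS.N k : ℝ) ^ 8 * ∑ i, ‖fr (fun x => u t x i) k‖ :=
        mul_le_mul_of_nonneg_left (un_le_sum _ _) (by positivity)
    _ = ∑ i, (H459R3.NS.N k : ℝ) ^ 8 * ‖fr (fun x => u t x i) k‖ := by rw [Finset.mul_sum]
    _ ≤ _ := Finset.sum_le_sum fun i _ => hB i t ht k

theorem cv_div (a : K3 → ℝ) (ε : ℝ) (k : K3) :
    cv (fun l => a l / ε) (fun l => a l / ε) k = cv a a k / ε ^ 2 := by
  unfold cv
  rw [← tsum_div_const]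
  refine tsum_congr fun l => ?_
  ring

theorem sqrt_two_le' : √2 ≤ 1.4143 := by
  rw [Real.sqrt_le_left (by norm_num)]; norm_num

theorem len_ev_num {e : Fin 6} (he : e = 0 ∨ e = 2) : √2 * (2 * Real.pi * len (ev e)) ≤ 20 := by
  have h1 : len (ev e) ≤ 2.2361 := by
    obtain ⟨h0, h2⟩ := len_ev_sq
    rcases he with rfl | rfl
    · have := len_nonneg (ev 0)
      nlinarith
    · have := len_nonneg (ev 2)
      nlinarith
  have h2 := sqrt_two_le'
  have h3 := Real.pi_lt_d4.le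
  have h4 := Real.pi_pos.le
  have h5 := len_nonneg (ev e)
  calc √2 * (2 * Real.pi * len (ev e)) ≤ 1.4143 * (2 * 3.1416 * 2.2361) := by
        apply mul_le_mul h2 _ (by positivity) (by norm_num)
        apply mul_le_mul (by linarith) h1 h5 (by norm_num)
    _ ≤ 20 := by norm_num

/-- the amplitudes of the cascade (rescaled) -/
noncomputable def xx (N : ℕ) (ε T : ℝ) (e : Fin 6) (u : ℝ → V → V) (n : ℕ) (t : ℝ) : ℝ :=
  aa N e (u (cl T t)) n / ε

theorem xx_cont (h : SolK ν T₂ (KB N α μ) u q) (hT0 : 0 ≤ T) (hT : T < T₂) (e : Fin 6) (n : ℕ) :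
    Continuous (xx N ε T e u n) := by
  unfold xx
  have : Continuous fun t => aa N e (u (cl T t)) n :=
    (aa_cont h e n).comp_continuous (cl_cont T) fun t =>
      ⟨(cl_mem hT0 t).1, (cl_mem hT0 t).2.trans_lt hT⟩
  exact this.div_const ε

theorem xx_eq {t : ℝ} (ht : t ∈ Icc 0 T) (e : Fin 6) (n : ℕ) :
    xx N ε T e u n t = aa N e (u t) n / ε := by
  unfold xx; rw [cl_eq ht]

theorem xx_deriv {t : ℝ} (ht : t ∈ Ioo 0 T) (e : Fin 6) (n : ℕ) {A : ℝ}
    (h : HasDerivAt (fun s => aa N e (u s) n) A t) :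
    HasDerivAt (xx N ε T e u n) (A / ε) t := by
  have h1 : HasDerivAt (fun s => aa N e (u (cl T s)) n) A t :=
    h.congr_of_eventuallyEq (cl_ev ht (f := fun s => aa N e (u s) n))
  exact h1.div_const ε

theorem gf_eq (hε : ε ≠ 0) {t : ℝ} (ht : t ∈ Icc 0 T) (c : ℕ → ℝ) (n : ℕ) :
    gf (fun n => ε * c n) (xx N ε T 2 u) n t
      = sh (fun n => c n * (aa N 2 (u t) n * aa N 2 (u t) n)) n / ε := by
  cases n with
  | zero => simp [gf, sh]
  | succ n =>
    simp only [gf, sh]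
    rw [xx_eq ht]
    field_simp

/-- the defect of the first equation -/
noncomputable def fd (N : ℕ) (α : ℕ → ℝ) (d : ℕ → ℝ) (x y : ℕ → ℝ → ℝ) (n : ℕ) (t : ℝ) : ℝ :=
  deriv (x n) t + d n * x n t - gf α y n t + α n * y n t ^ 2

/-- the defect of the second equation -/
noncomputable def gd (N : ℕ) (α μ : ℕ → ℝ) (d : ℕ → ℝ) (x y : ℕ → ℝ → ℝ) (n : ℕ) (t : ℝ) : ℝ :=
  deriv (y n) t + d n * y n t - α n * y n t * (x n t - x (n + 1) t) - gf μ y n t
    + μ n * y n t * y (n + 1) t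

theorem len_sq_ev (n : ℕ) (e : Fin 6) :
    len ((Mn N n : ℤ) • ev e) ^ 2 = len (ev e) ^ 2 * (Mn N n : ℝ) ^ 2 := by
  rw [len_smul]; ring

variable {c : ℝ}

theorem fd_le (hG : Ga N α μ) (h : SolK ν T₂ (KB N α μ) u q) (hT : T < T₂) (hε : 0 < ε)
    (hε1 : ε ≤ 1) (hc : c = (2 * Real.pi) ^ 2 * ν) {t : ℝ} (ht : t ∈ Ioo 0 T) (n : ℕ) :
    DifferentiableAt ℝ (xx N ε T 0 u n) t ∧
    |fd N (fun n => ε * α n) (dd c N) (xx N ε T 0 u) (xx N ε T 2 u) n t|
      ≤ 20 * Mn N n * cv (fun l => un (u t) l / ε) (fun l => un (u t) l / ε)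
        ((Mn N n : ℤ) • ev 0) := by
  have htT : t ∈ Icc 0 T := Ioo_subset_Icc_self ht
  have htI : t ∈ Ico 0 T₂ := ⟨ht.1.le, ht.2.trans hT⟩
  obtain ⟨B, hB, hd⟩ := aa_deriv hG h (t := t) ⟨ht.1, ht.2.trans hT⟩ n 0
  rw [(kb_ev hG (sol_spv h htI) (sol_spv h htI) n).1] at hd
  have h1 := xx_deriv (ε := ε) ht 0 n hd
  refine ⟨h1.differentiableAt, ?_⟩
  have e1 : fd N (fun n => ε * α n) (dd c N) (xx N ε T 0 u) (xx N ε T 2 u) n t = B / ε := by
    unfold fd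
    rw [h1.deriv, gf_eq hε.ne' htT, xx_eq htT, xx_eq htT, len_sq_ev, len_ev_sq.1]
    unfold cX dd
    rw [hc]
    field_simp
    ring
  rw [e1, cv_div, abs_div, abs_of_pos hε]
  have h2 := cv_nonneg (fun k => un_nonneg (u t) k) (fun k => un_nonneg (u t) k)
    ((Mn N n : ℤ) • ev 0)
  set C := cv (un (u t)) (un (u t)) ((Mn N n : ℤ) • ev 0) with hC
  have h2' : 0 ≤ C := h2
  have h3 : |B| ≤ 20 * Mn N n * C := by
    refine hB.trans ?_
    rw [len_smul]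
    have h4 := len_ev_num (e := 0) (Or.inl rfl)
    have h5 : 0 ≤ (Mn N n : ℝ) * C := by positivity
    calc _ = √2 * (2 * Real.pi * len (ev 0)) * (Mn N n * C) := by ring
      _ ≤ 20 * (Mn N n * C) := mul_le_mul_of_nonneg_right h4 h5
      _ = _ := by ring
  rw [div_le_iff₀ hε]
  have h6 : 20 * Mn N n * (C / ε ^ 2) * ε = 20 * Mn N n * C / ε := by field_simp
  rw [h6, le_div_iff₀ hε]
  have h7 : 0 ≤ |B| := abs_nonneg B
  nlinarith

theorem gd_le (hG : Ga N α μ) (h : SolK ν T₂ (KB N α μ) u q) (hT : T < T₂) (hε : 0 < ε)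
    (hε1 : ε ≤ 1) (hc : c = (2 * Real.pi) ^ 2 * ν) {t : ℝ} (ht : t ∈ Ioo 0 T) (n : ℕ) :
    DifferentiableAt ℝ (xx N ε T 2 u n) t ∧
    |gd N (fun n => ε * α n) (fun n => ε * μ n) (DD c N) (xx N ε T 0 u) (xx N ε T 2 u) n t|
      ≤ 20 * Mn N n * cv (fun l => un (u t) l / ε) (fun l => un (u t) l / ε)
        ((Mn N n : ℤ) • ev 2) := by
  have htT : t ∈ Icc 0 T := Ioo_subset_Icc_self ht
  have htI : t ∈ Ico 0 T₂ := ⟨ht.1.le, ht.2.trans hT⟩
  obtain ⟨B, hB, hd⟩ := aa_deriv hG h (t := t) ⟨ht.1, ht.2.trans hT⟩ n 2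
  rw [(kb_ev hG (sol_spv h htI) (sol_spv h htI) n).2] at hd
  have h1 := xx_deriv (ε := ε) ht 2 n hd
  refine ⟨h1.differentiableAt, ?_⟩
  have e1 : gd N (fun n => ε * α n) (fun n => ε * μ n) (DD c N) (xx N ε T 0 u) (xx N ε T 2 u) n t
      = B / ε := by
    unfold gd
    rw [h1.deriv, gf_eq hε.ne' htT, xx_eq htT, xx_eq htT, xx_eq htT, xx_eq htT, len_sq_ev,
      len_ev_sq.2]
    unfold cY DD
    rw [hc]
    field_simp
    ring
  rw [e1, cv_div, abs_div, abs_of_pos hε]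
  have h2 := cv_nonneg (fun k => un_nonneg (u t) k) (fun k => un_nonneg (u t) k)
    ((Mn N n : ℤ) • ev 2)
  set C := cv (un (u t)) (un (u t)) ((Mn N n : ℤ) • ev 2) with hC
  have h2' : 0 ≤ C := h2
  have h3 : |B| ≤ 20 * Mn N n * C := by
    refine hB.trans ?_
    rw [len_smul]
    have h4 := len_ev_num (e := 2) (Or.inr rfl)
    have h5 : 0 ≤ (Mn N n : ℝ) * C := by positivity
    calc _ = √2 * (2 * Real.pi * len (ev 2)) * (Mn N n * C) := by ring
      _ ≤ 20 * (Mn N n * C) := mul_le_mul_of_nonneg_right h4 h5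
      _ = _ := by ring
  rw [div_le_iff₀ hε]
  have h6 : 20 * Mn N n * (C / ε ^ 2) * ε = 20 * Mn N n * C / ε := by field_simp
  rw [h6, le_div_iff₀ hε]
  have h7 : 0 ≤ |B| := abs_nonneg B
  nlinarith

end Pool.Agent.N977.S
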