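import Pool.Agent.N977.S.Ext

/-!
From a solution of the equations to the system of the Fourier coefficients, continued.
-/

open MeasureTheory Set Filter Topology
open scoped ContDiff ComplexConjugate

namespace Pool.Agent.N977.S

open H459R3.NS Pool.Agent.N977.Q
open Pool.Agent.N977.K (SolK cmp)

variable {N : ℕ} {α μ : ℕ → ℝ} {ν T T₂ ε E p δ c : ℝ} {u : ℝ → V → V} {q : ℝ → V → ℝ}

theorem one_le_sqrt_two : 1 ≤ √2 := by
  apply Real.le_sqrt_of_sq_le; norm_num

theorem a_le_bx {ε : ℝ} (hε : 0 < ε) (v : V → V) (e : Fin 6) (n : ℕ) :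
    un v ((Mn N n : ℤ) • ev e) / ε ≤ bn N v ((Mn N n : ℤ) • ev e) / ε + |aa N e v n / ε| := by
  have h1 := un_le_bn (N := N) v ((Mn N n : ℤ) • ev e)
  rw [abs_div, abs_of_pos hε, ← add_div]
  apply div_le_div_of_nonneg_right _ hε.le
  unfold aa
  rw [abs_mul, abs_of_nonneg (Real.sqrt_nonneg 2)]
  have h2 := abs_nonneg (fr (fun x => v x 2) ((Mn N n : ℤ) • ev e)).re
  have h3 := mul_le_mul_of_nonneg_right one_le_sqrt_two h2
  linarith

theorem a_le_bx' {ε : ℝ} (hε : 0 < ε) {v : V → V} (hv : SPV v) (e : Fin 6) (n : ℕ) :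
    un v (-((Mn N n : ℤ) • ev e)) / ε
      ≤ bn N v (-((Mn N n : ℤ) • ev e)) / ε + |aa N e v n / ε| := by
  have h1 := un_le_bn (N := N) v (-((Mn N n : ℤ) • ev e))
  rw [fr_neg' (spv_sp hv 2).cont, Complex.conj_re] at h1
  rw [abs_div, abs_of_pos hε, ← add_div]
  apply div_le_div_of_nonneg_right _ hε.le
  unfold aa
  rw [abs_mul, abs_of_nonneg (Real.sqrt_nonneg 2)]
  have h2 := abs_nonneg (fr (fun x => v x 2) ((Mn N n : ℤ) • ev e)).re
  have h3 := mul_le_mul_of_nonneg_right one_le_sqrt_two h2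
  linarith

/-- the solution gives a system -/
theorem sy_of (hG : Ga N α μ) (hα0 : ∀ n, 0 ≤ α n) (hμ0 : ∀ n, 0 ≤ μ n) (hν : 0 < ν)
    (hK : LowE 2 p δ (KB N α μ)) (h : SolK ν T₂ (KB N α μ) u q) (hT0 : 0 < T)
    (hT : T < T₂) (hε : 0 < ε) (hε1 : ε ≤ 1) (hc : c = (2 * Real.pi) ^ 2 * ν) (hE0 : 0 ≤ E)
    (hE : √2 * √(EE 0 (u 0)) ≤ ε * E) :
    Sy T c E N (fun n => ε * α n) (fun n => ε * μ n) (xx N ε T 0 u) (xx N ε T 2 u)
      (fd N (fun n => ε * α n) (dd c N) (xx N ε T 0 u) (xx N ε T 2 u))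
      (gd N (fun n => ε * α n) (fun n => ε * μ n) (DD c N) (xx N ε T 0 u) (xx N ε T 2 u))
      (fun k t => un (u t) k / ε) (fun k t => bn N (u t) k / ε) := by
  have hI : ∀ t ∈ Icc 0 T, t ∈ Ico 0 T₂ := fun t ht => ⟨ht.1, ht.2.trans_lt hT⟩
  have hN := hG.N1
  have hs2 : 0 ≤ √2 := Real.sqrt_nonneg 2
  have hunE : ∀ k, ∀ t ∈ Icc 0 T, √2 * un (u t) k ≤ ε * E := by
    intro k t ht
    have h1 := un_leE hν.le hK h (hI t ht) k
    have h2 : un (u t) k ≤ √(EE 0 (u 0)) := Real.le_sqrt_of_sq_le h1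
    exact (mul_le_mul_of_nonneg_left h2 hs2).trans hE
  have haE : ∀ k, ∀ t ∈ Icc 0 T, un (u t) k / ε ≤ E := by
    intro k t ht
    rw [div_le_iff₀ hε]
    have h1 := hunE k t ht
    have h2 := mul_le_mul_of_nonneg_right one_le_sqrt_two (un_nonneg (u t) k)
    linarith
  have hxE : ∀ e n, ∀ t ∈ Icc 0 T, |xx N ε T e u n t| ≤ E := by
    intro e n t ht
    rw [xx_eq ht, abs_div, abs_of_pos hε, div_le_iff₀ hε]
    have h1 := aa_abs (N := N) e (u t) n
    have h2 := hunE ((Mn N n : ℤ) • ev e) t ht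
    linarith
  obtain ⟨C, hC0, hC⟩ := un_dec h hT
  have hxa : ∀ e n, ∀ t ∈ Icc 0 T, |xx N ε T e u n t| ≤ 2 * (un (u t) ((Mn N n : ℤ) • ev e) / ε) := by
    intro e n t ht
    rw [xx_eq ht, abs_div, abs_of_pos hε, ← mul_div_assoc]
    apply div_le_div_of_nonneg_right _ hε.le
    refine (aa_abs e (u t) n).trans ?_
    exact mul_le_mul_of_nonneg_right (by linarith [sqrt_two_le']) (un_nonneg _ _)
  refine {
    cs := {
      xc := fun n => xx_cont h hT0.le hT 0 n
      yc := fun n => xx_cont h hT0.le hT 2 n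
      xd := fun n t ht => by
        have h1 := (fd_le hG h hT hε hε1 hc ht n).1.hasDerivAt
        refine h1.congr_deriv ?_
        unfold fd
        ring
      yd := fun n t ht => by
        have h1 := (gd_le hG h hT hε hε1 hc ht n).1.hasDerivAt
        refine h1.congr_deriv ?_
        unfold gd
        ring
      dec := ?_ }
    N0 := hN
    c0 := by rw [hc]; positivity
    E0 := hE0
    a0 := fun k t => div_nonneg (un_nonneg _ _) hε.le
    b0 := fun k t => div_nonneg (bn_nonneg _ _ _) hε.le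
    ba := fun k t => div_le_div_of_nonneg_right (bn_le_un _ _) hε.le
    ab := fun k t hk => by rw [un_eq_bn hk]
    ax := fun n t ht => by
      rw [xx_eq ht]
      exact ⟨a_le_bx hε (u t) 0 n, a_le_bx' hε (sol_spv h (hI t ht)) 0 n⟩
    ay := fun n t ht => by
      rw [xx_eq ht]
      exact ⟨a_le_bx hε (u t) 2 n, a_le_bx' hε (sol_spv h (hI t ht)) 2 n⟩
    xE := fun n t ht => ⟨hxE 0 n t ht, hxE 2 n t ht⟩
    aE := haE
    dec := ⟨C / ε, by positivity, fun t ht k => by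
      rw [← mul_div_assoc]; exact div_le_div_of_nonneg_right (hC t ht k) hε.le⟩
    xa := fun n t ht => hxa 0 n t ht
    ac := fun k => ((un_cont h k).mono hI).div_const ε
    bc := fun k => by
      have h1 := ((bn_cont h k).mono hI).div_const (ε ^ 2)
      refine h1.congr fun t _ => ?_
      rw [div_pow]
    bd := fun k t ht => by
      obtain ⟨B, hB, hd⟩ := bn_deriv hG h (t := t) ⟨ht.1, ht.2.trans hT⟩ k
      refine ⟨B / ε ^ 2, ?_, ?_⟩
      · have h2 := cv_nonneg (fun k => un_nonneg (u t) k) (fun k => un_nonneg (u t) k) k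
        have e1 : cv (fun l => un (u t) l / ε) (fun l => un (u t) l / ε) k
            = cv (un (u t)) (un (u t)) k / ε ^ 2 := cv_div _ _ _
        rw [e1, abs_div, abs_of_pos (by positivity : 0 < ε ^ 2)]
        set C' := cv (un (u t)) (un (u t)) k with hC'
        have h2' : 0 ≤ C' := h2
        have h3 := bn_nonneg N (u t) k
        have h4 := len_nonneg k
        have h5 : bn N (u t) k / ε * (7 * len k * (C' / ε ^ 2))
            = (bn N (u t) k * (7 * len k * C')) / ε / ε ^ 2 := by field_simp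
        rw [h5]
        apply div_le_div_of_nonneg_right _ (by positivity)
        rw [le_div_iff₀ hε]
        have h6 : |B| ≤ bn N (u t) k * (7 * len k * C') := by
          refine hB.trans ?_
          have h7 : 0 ≤ bn N (u t) k * len k * C' := by positivity
          have h8 : 2 * Real.pi ≤ 7 := by linarith [Real.pi_lt_d2]
          calc _ = 2 * Real.pi * (bn N (u t) k * len k * C') := by ring
            _ ≤ 7 * (bn N (u t) k * len k * C') := mul_le_mul_of_nonneg_right h8 h7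
            _ = _ := by ring
        have h9 : 0 ≤ |B| := abs_nonneg B
        nlinarith
      · have h1 := hd.div_const (ε ^ 2)
        have e0 : (fun s => bn N (u s) k ^ 2 / ε ^ 2) = fun s => (bn N (u s) k / ε) ^ 2 := by
          funext s; rw [div_pow]
        rw [e0] at h1
        refine h1.congr_deriv ?_
        rw [hc]
        field_simp
    fb := fun n t ht => (fd_le hG h hT hε hε1 hc ht n).2
    gb := fun n t ht => (gd_le hG h hT hε hε1 hc ht n).2 }
  -- the decay of the fluxes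
  intro η hη
  have hA : ∀ n : ℕ, (n : ℝ) ≤ Mn N n := fun n => by
    have h1 := two_pow_le_Mn hN n
    have h2 : (n : ℝ) ≤ 2 ^ n := by exact_mod_cast Nat.lt_two_pow_self.le
    linarith
  set D : ℝ := 8 * (C / ε) ^ 2 * E with hD
  have hD0 : 0 ≤ D := by positivity
  obtain ⟨J, hJ⟩ := exists_nat_gt (D / η)
  refine ⟨max J 1, fun n hn t ht => ?_⟩
  have hnJ : (J : ℝ) ≤ n := by exact_mod_cast (le_max_left _ _).trans hn
  have hn1 : 1 ≤ n := (le_max_right _ _).trans hn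
  have hM1 : (1 : ℝ) ≤ Mn N n := one_le_Mn hN n
  have hM0 : (0 : ℝ) < Mn N n := by linarith
  have hy : |xx N ε T 2 u n t| * (Mn N n : ℝ) ^ 8 ≤ 2 * (C / ε) := by
    have h1 := hxa 2 n t ht
    have h2 := hC t ht ((Mn N n : ℤ) • ev 2)
    have h3 : (Mn N n : ℝ) ≤ H459R3.NS.N ((Mn N n : ℤ) • ev 2) := by
      exact_mod_cast natCast_le_N (ev_ne' 2)
    have h4 := pow_le_pow_left₀ hM0.le h3 8
    have h5 := un_nonneg (u t) ((Mn N n : ℤ) • ev 2)
    calc |xx N ε T 2 u n t| * (Mn N n : ℝ) ^ 8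
        ≤ 2 * (un (u t) ((Mn N n : ℤ) • ev 2) / ε)
          * (H459R3.NS.N ((Mn N n : ℤ) • ev 2) : ℝ) ^ 8 :=
          mul_le_mul h1 h4 (by positivity) (by positivity)
      _ = 2 * ((H459R3.NS.N ((Mn N n : ℤ) • ev 2) : ℝ) ^ 8 *
          un (u t) ((Mn N n : ℤ) • ev 2) / ε) := by ring
      _ ≤ _ := by
          apply mul_le_mul_of_nonneg_left _ (by norm_num)
          exact div_le_div_of_nonneg_right h2 hε.le
  set y := xx N ε T 2 u n t with hyd
  have hysq : y ^ 2 * (Mn N n : ℝ) ^ 16 ≤ 4 * (C / ε) ^ 2 := by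
    have h1 := pow_le_pow_left₀ (by positivity) hy 2
    calc y ^ 2 * (Mn N n : ℝ) ^ 16 = (|y| * (Mn N n : ℝ) ^ 8) ^ 2 := by
          rw [mul_pow, sq_abs]; ring
      _ ≤ _ := h1
      _ = _ := by ring
  have hα1 : ε * α n ≤ (Mn N n : ℝ) ^ 3 := by
    have h1 := hG.a3 n
    rw [one_mul, abs_of_nonneg (hα0 n)] at h1
    calc ε * α n ≤ 1 * α n := mul_le_mul_of_nonneg_right hε1 (hα0 n)
      _ ≤ _ := by rw [one_mul]; exact h1
  have hμ1 : ε * μ n ≤ (Mn N n : ℝ) ^ 3 := by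
    have h1 := hG.m3 n
    rw [one_mul, abs_of_nonneg (hμ0 n)] at h1
    calc ε * μ n ≤ 1 * μ n := mul_le_mul_of_nonneg_right hε1 (hμ0 n)
      _ ≤ _ := by rw [one_mul]; exact h1
  have h1 : ε * α n * y ^ 2 * |xx N ε T 0 u (n + 1) t| ≤ (Mn N n : ℝ) ^ 3 * y ^ 2 * E := by
    apply mul_le_mul _ (hxE 0 (n + 1) t ht) (abs_nonneg _) (by positivity)
    exact mul_le_mul_of_nonneg_right hα1 (sq_nonneg _)
  have h2 : ε * μ n * y ^ 2 * |xx N ε T 2 u (n + 1) t| ≤ (Mn N n : ℝ) ^ 3 * y ^ 2 * E := by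
    apply mul_le_mul _ (hxE 2 (n + 1) t ht) (abs_nonneg _) (by positivity)
    exact mul_le_mul_of_nonneg_right hμ1 (sq_nonneg _)
  have h3 : (Mn N n : ℝ) ^ 3 * y ^ 2 * (Mn N n : ℝ) ≤ 4 * (C / ε) ^ 2 := by
    refine le_trans ?_ hysq
    have : (Mn N n : ℝ) ^ 3 * y ^ 2 * (Mn N n : ℝ) = y ^ 2 * (Mn N n : ℝ) ^ 4 := by ring
    rw [this]
    exact mul_le_mul_of_nonneg_left (pow_le_pow_right₀ hM1 (by norm_num)) (sq_nonneg _)
  have h4 : (Mn N n : ℝ) ^ 3 * y ^ 2 * E * (Mn N n : ℝ) ≤ 4 * (C / ε) ^ 2 * E := by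
    have := mul_le_mul_of_nonneg_right h3 hE0
    linarith
  have h5 : D ≤ η * Mn N n := by
    rw [div_lt_iff₀ hη] at hJ
    have : (J : ℝ) * η ≤ Mn N n * η := mul_le_mul_of_nonneg_right (hnJ.trans (hA n)) hη.le
    linarith
  have h6 : ((Mn N n : ℝ) ^ 3 * y ^ 2 * E + (Mn N n : ℝ) ^ 3 * y ^ 2 * E) * Mn N n
      ≤ η * Mn N n := by
    rw [hD] at h5
    linarith
  have h7 := le_of_mul_le_mul_right h6 hM0
  exact (add_le_add h1 h2).trans h7

end Pool.Agent.N977.S
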