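import Pool.Agent.N977.S.Ind

/-!
The induction over the stages.
-/

open MeasureTheory Set Filter Topology

namespace Pool.Agent.N977.S

open H459R3.NS Pool.Agent.N977.Q
open Pool.Agent.N977.K (cmp)

variable {T c E B₀ : ℝ} {N i : ℕ} {α μ κ τ q ℓ s w : ℕ → ℝ} {x y f g : ℕ → ℝ → ℝ}
  {a b : K3 → ℝ → ℝ} {j : ℕ} {tn ts : ℝ}

theorem Zf_mono (hy : ∀ n, Continuous (y n)) (n : ℕ) (hα : 0 ≤ α n) {r r' : ℝ} (hr : r ≤ r') :
    Zf α y n tn r ≤ Zf α y n tn r' := by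
  have := cmp (f := fun _ => 0) (f' := fun _ => 0) (g := Zf α y n tn)
    (g' := fun t => α n * y n t ^ 2) hr continuousOn_const (Zf_cont hy n tn).continuousOn
    (fun s hs => hasDerivAt_const _ _) (fun u hu => Zf_deriv hy n tn u)
    (fun u _ => mul_nonneg hα (sq_nonneg _))
  linarith

theorem Sy.below_all (h : Sy T c E N α μ x y f g a b) (P : Px i T E B₀ c N α μ κ τ q ℓ s w)
    (h0 : ∀ m, i + 1 ≤ m → ∀ J, En x y m J 0 ≤ e0 N m ^ 2)
    (H : Iv i T B₀ c N α μ τ q ℓ s x y f g b j tn) (hτ : ts ≤ tn + τ (i + j))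
    (hZ : Zf α y (i + j) tn ts ≤ af E (dd c N) (DD c N) α μ τ q w
      (7 / 10 - ∑ k ∈ Finset.range j, ℓ (i + k)) (i + j) * (1 - κ (i + j))) :
    ∀ r ∈ Icc tn ts, GG a (Mn N (i + j)) r < LL N (i + j) ^ 2 := by
  intro r0 hr0
  by_contra hcon
  push Not at hcon
  have hM1 : (1 : ℝ) ≤ Mn N (i + j) := one_le_Mn h.N0 (i + j)
  have hτs := P.τs (j + 1)
  rw [Finset.sum_range_succ] at hτs
  have hT : ts ≤ T := by linarith [H.tτ]
  have hsub : Icc tn ts ⊆ Icc 0 T := Icc_subset_Icc H.t0 hT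
  set S := Icc tn ts ∩ (GG a (Mn N (i + j))) ⁻¹' Ici (LL N (i + j) ^ 2) with hS
  have hcl : IsClosed S :=
    ((h.GG_cont hM1).mono hsub).preimage_isClosed_of_isClosed isClosed_Icc isClosed_Ici
  have hco : IsCompact S := isCompact_Icc.of_isClosed_subset hcl inter_subset_left
  obtain ⟨t1, ht1, hmin⟩ := hco.exists_isLeast ⟨r0, hr0, hcon⟩
  have hb := h.below P h0 H ht1.1.1 (ht1.1.2.trans hτ) (fun r hr => by
    by_contra hcon'
    push Not at hcon'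
    have := hmin ⟨⟨hr.1, hr.2.le.trans ht1.1.2⟩, hcon'.le⟩
    linarith [hr.2]) ((Zf_mono h.cs.yc _ (P.P.S.α0 _).le ht1.1.2).trans hZ)
  exact absurd ht1.2 (not_le.2 hb)

theorem GG_anti (h : Sy T c E N α μ x y f g a b) (n : ℕ) {t : ℝ} (ht : t ∈ Icc 0 T) :
    GG b (Mn N (n + 1)) t ≤ GG b (Mn N n) t := by
  have hM1 : (1 : ℝ) ≤ Mn N n := one_le_Mn h.N0 n
  have hM2 : (Mn N n : ℝ) ≤ Mn N (n + 1) := by
    rw [Mn_succ]; push_cast; linarith
  exact (h.sb (hM1.trans hM2) ht).tsum_le_tsum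
    (fun k => mul_le_mul_of_nonneg_right (gw_anti (by linarith) hM2 k) (h.b0 k t)) (h.sb hM1 ht)

/-- the next stage -/
theorem Sy.next (h : Sy T c E N α μ x y f g a b) (P : Px i T E B₀ c N α μ κ τ q ℓ s w)
    (h0 : ∀ m, i + 1 ≤ m → ∀ J, En x y m J 0 ≤ e0 N m ^ 2)
    (H : Iv i T B₀ c N α μ τ q ℓ s x y f g b j tn) :
    ∃ tc, Iv i T B₀ c N α μ τ q ℓ s x y f g b (j + 1) tc := by
  set A := 7 / 10 - ∑ k ∈ Finset.range j, ℓ (i + k) with hA
  set θ := af E (dd c N) (DD c N) α μ τ q w A (i + j) * (1 - κ (i + j)) with hθ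
  have hin : i ≤ i + j := by omega
  have hτp := P.P.τp (i + j) hin
  have hsum : ∀ F : ℕ → ℝ, ∑ k ∈ Finset.range (j + 1), F (i + k)
      = ∑ k ∈ Finset.range j, F (i + k) + F (i + j) := fun F => Finset.sum_range_succ _ _
  have hτs := P.τs (j + 1)
  have hℓs := P.ℓs (j + 1)
  rw [hsum] at hτs hℓs
  -- the threshold is positive
  have hθ0 : 0 ≤ θ := by
    have e1 := P.P.ℓ1 (i + j) hin
    have e2 := P.P.κ1 (i + j) hin
    have e3 := P.P.κ0 (i + j) hin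
    have e4 := P.P.w0 (i + j) hin
    have e5 := P.P.q0 (i + j) hin
    have e6 := P.P.q0 (i + j + 1) (by omega)
    have e7 : 0 ≤ E * dd c N (i + j + 1) * τ (i + j) := by
      have := P.P.E1
      have := P.P.S.d0 (i + j + 1)
      positivity
    have e8 : E * (dd c N (i + j) + dd c N (i + j + 1)) * τ (i + j)
        = E * dd c N (i + j) * τ (i + j) + E * dd c N (i + j + 1) * τ (i + j) := by ring
    rw [e8] at e1
    apply mul_nonneg _ (by linarith)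
    unfold af
    linarith
  have hup : ∀ tc, tn ≤ tc → tc ≤ tn + τ (i + j) → Zf α y (i + j) tn tc ≤ θ →
      tc ≤ T ∧ Nb N f g (i + j) tc ∧
      St T E (dd c N) (DD c N) α μ κ τ q ℓ s w x y f g (i + j) A tn tc ∧
      GG b (Mn N (i + j)) tc ≤ B₀ + ∑ k ∈ Finset.range (j + 1), ℓ (i + k) := by
    intro tc h1 h2 h3
    exact h.up P h0 H h1 h2 fun r hr => (h.below_all P h0 H h2 h3 r ⟨hr.1, hr.2.le⟩).le
  rcases lt_or_ge (Zf α y (i + j) tn (tn + τ (i + j))) θ with hlt | hge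
  · obtain ⟨-, -, hSt, -⟩ := hup (tn + τ (i + j)) (by linarith) le_rfl hlt.le
    obtain ⟨-, -, h3⟩ := h.cs.stage P.P hin hSt hlt.le
    exact absurd hlt (h3 rfl)
  · obtain ⟨tc, htc, hZ⟩ := intermediate_value_Icc (show tn ≤ tn + τ (i + j) by linarith)
      (Zf_cont (α := α) h.cs.yc (i + j) tn).continuousOn
      ⟨by rw [Zf_zero]; exact hθ0, hge⟩
    obtain ⟨hT, hnb, hSt, hGb⟩ := hup tc htc.1 htc.2 hZ.le
    obtain ⟨h1, h2, -⟩ := h.cs.stage P.P hin hSt hZ.le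
    obtain ⟨h3, h4⟩ := h2 hZ
    have htc0 : 0 ≤ tc := H.t0.trans htc.1
    refine ⟨tc, htc0, ?_, ?_, h4, h1, ?_, ?_⟩
    · rw [hsum]; linarith [H.tτ, htc.2]
    · rw [hsum]
      have : A - ℓ (i + j) ≤ x (i + (j + 1)) tc := h3
      linarith
    · intro m hm r hr
      have e1 := hnb m (by omega) r hr
      have e2 : LL N (i + j) ≤ LL N (i + j + 1) := by
        unfold LL
        have : (0 : ℝ) < Mn N (i + j) := by exact_mod_cast Mn_pos h.N0 _
        refine Real.log_le_log this ?_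
        rw [Mn_succ]; push_cast; linarith
      exact e1.trans (nz_le_succ (n := i + j) (by omega) (by linarith [P.L40 (i + j) hin]) e2)
    · exact (GG_anti h (i + j) ⟨htc0, hT⟩).trans hGb

/-- the contradiction -/
theorem Sy.false (h : Sy T c E N α μ x y f g a b) (P : Px i T E B₀ c N α μ κ τ q ℓ s w)
    (h0 : ∀ m, i + 1 ≤ m → ∀ J, En x y m J 0 ≤ e0 N m ^ 2)
    (hx : 7 / 10 ≤ x i 0) (hy : s i ≤ y i 0) (hG : GG b (Mn N i) 0 ≤ B₀) : False := by
  have base : Iv i T B₀ c N α μ τ q ℓ s x y f g b 0 0 := by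
    refine ⟨le_rfl, by simp, by simpa using hx, by simpa using hy, ?_, ?_, by simpa using hG⟩
    · intro t ht
      have : t = 0 := le_antisymm ht.2 ht.1
      rw [this, sg_zero]
      exact P.P.q0 _ (by omega)
    · intro m hm r hr
      exact absurd hr.2 (not_lt.2 hr.1.le)
  have hall : ∀ j, ∃ tn, Iv i T B₀ c N α μ τ q ℓ s x y f g b j tn := by
    intro j
    induction j with
    | zero => exact ⟨0, base⟩
    | succ j ih =>
      obtain ⟨tn, H⟩ := ih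
      exact h.next P h0 H
  obtain ⟨C, hC0, hC⟩ := h.dec
  obtain ⟨j, hj⟩ := pow_unbounded_of_one_lt (4 * C + 1) (one_lt_two (α := ℝ))
  obtain ⟨tn, H⟩ := hall j
  have htT : tn ≤ T := H.tτ.trans (P.τs j)
  have ht : tn ∈ Icc 0 T := ⟨H.t0, htT⟩
  have h1 := H.hx
  have h2 := P.ℓs j
  have h3 : 1 / 2 ≤ |x (i + j) tn| := by linarith [le_abs_self (x (i + j) tn)]
  have h4 := h.xa (i + j) tn ht
  have h5 := hC tn ht ((Mn N (i + j) : ℤ) • ev 0)
  have h6 : (2 : ℝ) ^ j ≤ H459R3.NS.N ((Mn N (i + j) : ℤ) • ev 0) := by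
    have e1 : (Mn N (i + j) : ℝ) ≤ H459R3.NS.N ((Mn N (i + j) : ℤ) • ev 0) := by
      exact_mod_cast natCast_le_N (ev_ne' 0)
    have e2 := two_pow_le_Mn h.N0 (i + j)
    have e3 : (2 : ℝ) ^ j ≤ 2 ^ (i + j) := pow_le_pow_right₀ (by norm_num) (by omega)
    linarith
  have h7 : (1 : ℝ) ≤ 2 ^ j := one_le_pow₀ (by norm_num)
  set X : ℝ := ((H459R3.NS.N ((Mn N (i + j) : ℤ) • ev 0) : ℕ) : ℝ) with hX
  have h8 : X ≤ X ^ 8 := le_self_pow₀ (h7.trans h6) (by norm_num)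
  have h9 : 1 / 4 ≤ a ((Mn N (i + j) : ℤ) • ev 0) tn := by linarith
  have h10 : X ^ 8 * (1 / 4) ≤ C :=
    (mul_le_mul_of_nonneg_left h9 (by positivity)).trans h5
  linarith

end Pool.Agent.N977.S
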