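import Pool.Agent.N977.S.Des

/-!
One stage of the cascade with the Navier-Stokes nonlinearity.
-/

open MeasureTheory Set Filter Topology

namespace Pool.Agent.N977.S

open H459R3.NS Pool.Agent.N977.Q

/-- the logarithms of the frequencies -/
noncomputable def LL (N n : ℕ) : ℝ := Real.log (Mn N n)

/-- the bound for the noise -/
noncomputable def nz (N n m : ℕ) : ℝ := LL N n ^ 5 * (Mn N m * (1 / 8) ^ (m - n))

/-- the size of the initial values -/
noncomputable def e0 (N m : ℕ) : ℝ := 1 / (Mn N m : ℝ) ^ 5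

/-- the total effect of the perturbations -/
noncomputable def vv (c : ℝ) (N n m : ℕ) : ℝ := e0 N m + 4 / 3 * nz N n m / dd c N m

/-- the bound for the inactive levels -/
noncomputable def YY (N n m : ℕ) : ℝ := (1 / 10) ^ (m - n) / LL N m ^ 3

/-- Further conditions for the parameters. -/
structure Px (i : ℕ) (T E B₀ c : ℝ) (N : ℕ) (α μ κ τ q ℓ s w : ℕ → ℝ) : Prop where
  P : Pr i E (dd c N) (DD c N) α μ κ τ q ℓ s w
  L40 : ∀ n, i ≤ n → 40 ≤ LL N n
  w1 : ∀ n, i ≤ n → ∀ m, n + 1 ≤ m → vv c N n m ≤ w n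
  wτ : ∀ n, i ≤ n → nz N n n * τ n ≤ w n
  Y0 : ∀ n, i ≤ n → q (n + 1) + vv c N n (n + 2) ≤ YY N n (n + 2)
  Ys : ∀ n, i ≤ n → ∀ m, n + 2 ≤ m →
    9 / 8 * α m * YY N n m ^ 2 * (1 / dd c N (m + 1)) + vv c N n (m + 1) ≤ YY N n (m + 1)
  η : ∀ n, i ≤ n → 112 * (LL N n ^ 2) ^ 2 * √(τ n / c) ≤ ℓ n
  G : ∀ n, i ≤ n → B₀ + 1 + 108 * (8 * E * (n + 2) + 4) < LL N n ^ 2
  ℓs : ∀ n, ∑ j ∈ Finset.range n, ℓ (i + j) ≤ 1 / 5
  τs : ∀ n, ∑ j ∈ Finset.range n, τ (i + j) ≤ T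

theorem nz_nonneg {N : ℕ} (n m : ℕ) (h : 0 ≤ LL N n) : 0 ≤ nz N n m := by
  unfold nz; positivity

theorem nz_add {N n m : ℕ} (h : n ≤ m) (i : ℕ) : nz N n (m + i) = nz N n m * (1 / 4) ^ i := by
  have h1 : (Mn N (m + i) : ℝ) = Mn N m * 2 ^ i := by
    unfold Mn; push_cast; rw [pow_add]; ring
  have h2 : m + i - n = (m - n) + i := by omega
  unfold nz
  rw [h1, h2, pow_add]
  have h3 : (1 / 4 : ℝ) ^ i = 2 ^ i * (1 / 8) ^ i := by rw [← mul_pow]; norm_num
  rw [h3]; ring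

theorem nz_le_succ {N n m : ℕ} (h : n + 1 ≤ m) (h0 : 0 ≤ LL N n) (h1 : LL N n ≤ LL N (n + 1)) :
    nz N n m ≤ nz N (n + 1) m := by
  unfold nz
  apply mul_le_mul (pow_le_pow_left₀ h0 h1 5) _ (by positivity) (pow_nonneg (h0.trans h1) 5)
  apply mul_le_mul_of_nonneg_left _ (Nat.cast_nonneg _)
  exact pow_le_pow_of_le_one (by norm_num) (by norm_num) (by omega)

theorem geom4 (k : ℕ) : ∑ i ∈ Finset.range k, (1 / 4 : ℝ) ^ i ≤ 4 / 3 := by
  rw [geom_sum_eq (by norm_num)]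
  have : (0 : ℝ) ≤ (1 / 4) ^ k := by positivity
  rw [div_le_iff_of_neg (by norm_num)]
  linarith

variable {T c E B₀ : ℝ} {N i : ℕ} {α μ κ τ q ℓ s w : ℕ → ℝ} {x y f g : ℕ → ℝ → ℝ}
  {a b : K3 → ℝ → ℝ}

/-- noise bounds -/
def Nb (N : ℕ) (f g : ℕ → ℝ → ℝ) (n : ℕ) (ts : ℝ) : Prop :=
  ∀ m, n ≤ m → ∀ r ∈ Ioo 0 ts, |f m r| + |g m r| ≤ nz N n m

theorem Sy.tails (h : Sy T c E N α μ x y f g a b) (P : Px i T E B₀ c N α μ κ τ q ℓ s w)
    (h0 : ∀ m, i + 1 ≤ m → ∀ J, En x y m J 0 ≤ e0 N m ^ 2) {n : ℕ} (hin : i ≤ n) {ts : ℝ}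
    (hts : ts ≤ T) (hn : Nb N f g n ts) {m j : ℕ} (hm : n + 1 ≤ m) (hj : m ≤ j) {t : ℝ}
    (ht : t ∈ Icc 0 ts) : |x j t| ≤ sg (dd c N) α μ y m t + vv c N n m ∧
      |y j t| ≤ sg (dd c N) α μ y m t + vv c N n m := by
  have hL : 0 ≤ LL N n := by linarith [P.L40 n hin]
  have hM : (0 : ℝ) < Mn N m := by exact_mod_cast Mn_pos h.N0 m
  have hd : 0 < dd c N m := by unfold dd; have := h.c0; positivity
  have h1 := h.cs.tail P.P.S (m := m) (j := j) hj (e := e0 N m) (Φ := 4 / 3 * nz N n m) (tt := ts)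
    (by unfold e0; positivity) (by have := nz_nonneg n m hL; positivity) hd hts
    (h0 m (by omega)) (fun J r hr => ?_) ht
  · unfold vv
    exact ⟨by linarith [h1.1], by linarith [h1.2]⟩
  · have h2 : ∀ k ∈ Finset.range (J + 1), |f (m + k) r| + |g (m + k) r| ≤ nz N n m * (1 / 4) ^ k :=
      fun k _ => by
        rw [← nz_add (by omega : n ≤ m)]
        exact hn (m + k) (by omega) r hr
    refine (Finset.sum_le_sum h2).trans ?_
    rw [← Finset.mul_sum]
    have := mul_le_mul_of_nonneg_left (geom4 (J + 1)) (nz_nonneg n m hL)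
    linarith

theorem YY_nonneg {n m : ℕ} (h : 0 ≤ LL N m) : 0 ≤ YY N n m := by unfold YY; positivity

/-- the inactive levels -/
theorem Sy.inactive (h : Sy T c E N α μ x y f g a b) (P : Px i T E B₀ c N α μ κ τ q ℓ s w)
    (h0 : ∀ m, i + 1 ≤ m → ∀ J, En x y m J 0 ≤ e0 N m ^ 2) {n : ℕ} (hin : i ≤ n) {ts : ℝ}
    (hts : ts ≤ T) (hn : Nb N f g n ts)
    (hq : ∀ t ∈ Icc 0 ts, sg (dd c N) α μ y (n + 2) t ≤ q (n + 1)) {m : ℕ} (hm : n + 2 ≤ m) :
    ∀ t ∈ Icc 0 ts, sg (dd c N) α μ y m t + vv c N n m ≤ YY N n m := by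
  induction m, hm using Nat.le_induction with
  | base => intro t ht; linarith [hq t ht, P.Y0 n hin]
  | succ m hm ih =>
    intro t ht
    have hM : (0 : ℝ) < Mn N (m + 1) := by exact_mod_cast Mn_pos h.N0 (m + 1)
    have hd : 0 < dd c N (m + 1) := by unfold dd; have := h.c0; positivity
    have hα := P.P.S.α0 m
    have hμ := P.P.με m (by omega)
    have h1 := P.Ys n hin m hm
    have hY : 0 ≤ YY N n m := YY_nonneg (by linarith [P.L40 m (by omega)])
    have h2 := sg_le (d := dd c N) (α := α) (μ := μ) h.cs.yc (m + 1) (F := 9 / 8 * α m * YY N n m ^ 2)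
      (w := 1 / dd c N (m + 1)) (t0 := ts) (by positivity) (by rw [mul_one_div, div_self hd.ne'])
      (by positivity) (fun r hr => by
        have e1 := (h.tails P h0 hin hts hn (by omega : n + 1 ≤ m) le_rfl hr).2
        have e2 := ih r hr
        have e3 : |y m r| ≤ YY N n m := e1.trans e2
        have e4 : y m r ^ 2 ≤ YY N n m ^ 2 := by
          rw [← sq_abs]; exact pow_le_pow_left₀ (abs_nonneg _) e3 2
        have e5 : ff α μ y (m + 1) r = (α m + μ m) * y m r ^ 2 := rfl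
        rw [e5]
        have e6 : α m + μ m ≤ 9 / 8 * α m := by linarith
        exact mul_le_mul e6 e4 (sq_nonneg _) (by positivity)) ht
    linarith

theorem sumX {n : ℕ} {Y : ℕ → ℝ} (hE : 0 ≤ E) (hY0 : ∀ m, 0 ≤ Y m)
    (hY : ∀ m, n + 2 ≤ m → Y m ≤ (1 / 10) ^ (m - n)) :
    Summable (fun m => 8 ^ (m - n) * (if m < n + 2 then E else Y m)) ∧
    ∑' m, 8 ^ (m - n) * (if m < n + 2 then E else Y m) ≤ 8 * E * (n + 2) + 4 := by
  set h : ℕ → ℝ := fun m => 8 ^ (m - n) * (if m < n + 2 then E else Y m) with hh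
  have hg : Summable fun m : ℕ => (16 / 25 : ℝ) * (4 / 5) ^ m :=
    (summable_geometric_of_lt_one (by norm_num) (by norm_num)).mul_left _
  have h1 : ∀ m, h (m + (n + 2)) ≤ 16 / 25 * (4 / 5) ^ m := by
    intro m
    simp only [hh]
    rw [if_neg (by omega)]
    have e : m + (n + 2) - n = m + 2 := by omega
    have e2 := hY (m + (n + 2)) (by omega)
    rw [e] at e2 ⊢
    calc (8 : ℝ) ^ (m + 2) * Y (m + (n + 2)) ≤ 8 ^ (m + 2) * (1 / 10) ^ (m + 2) :=
          mul_le_mul_of_nonneg_left e2 (by positivity)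
      _ = (4 / 5) ^ (m + 2) := by rw [← mul_pow]; norm_num
      _ = 16 / 25 * (4 / 5) ^ m := by rw [pow_add]; norm_num; ring
  have h0 : ∀ m, 0 ≤ h (m + (n + 2)) := fun m => by
    simp only [hh]
    rw [if_neg (by omega)]
    have := hY0 (m + (n + 2))
    positivity
  have hs1 : Summable fun m => h (m + (n + 2)) := Summable.of_nonneg_of_le h0 h1 hg
  have hs : Summable h := (summable_nat_add_iff (n + 2)).1 hs1
  refine ⟨hs, ?_⟩
  rw [← hs.sum_add_tsum_nat_add (n + 2)]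
  have h2 : ∑' m, h (m + (n + 2)) ≤ 4 := by
    refine (hs1.tsum_le_tsum h1 hg).trans ?_
    rw [tsum_mul_left, tsum_geometric_of_lt_one (by norm_num) (by norm_num)]
    norm_num
  have h3 : ∑ m ∈ Finset.range (n + 2), h m ≤ 8 * E * (n + 2) := by
    have : ∀ m ∈ Finset.range (n + 2), h m ≤ 8 * E := by
      intro m hm
      rw [Finset.mem_range] at hm
      simp only [hh]
      rw [if_pos hm]
      have e : (8 : ℝ) ^ (m - n) ≤ 8 ^ 1 := pow_le_pow_right₀ (by norm_num) (by omega)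
      rw [pow_one] at e
      exact mul_le_mul_of_nonneg_right e hE
    refine (Finset.sum_le_card_nsmul _ _ _ this).trans (le_of_eq ?_)
    rw [Finset.card_range, nsmul_eq_mul]
    push_cast
    ring
  linarith

/-- the invariants at the beginning of the stage `n` -/
structure Iv (i : ℕ) (T B₀ c : ℝ) (N : ℕ) (α μ τ q ℓ s : ℕ → ℝ) (x y f g : ℕ → ℝ → ℝ)
    (b : K3 → ℝ → ℝ) (j : ℕ) (tn : ℝ) : Prop where
  t0 : 0 ≤ tn
  tτ : tn ≤ ∑ k ∈ Finset.range j, τ (i + k)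
  hx : 7 / 10 - ∑ k ∈ Finset.range j, ℓ (i + k) ≤ x (i + j) tn
  hy : s (i + j) ≤ y (i + j) tn
  hS : ∀ t ∈ Icc 0 tn, sg (dd c N) α μ y (i + j + 1) t ≤ q (i + j)
  hn : Nb N f g (i + j) tn
  hG : GG b (Mn N (i + j)) tn ≤ B₀ + ∑ k ∈ Finset.range j, ℓ (i + k)

variable {j : ℕ} {tn ts : ℝ}

/-- the estimates up to the time `ts` of the stage -/
theorem Sy.up (h : Sy T c E N α μ x y f g a b) (P : Px i T E B₀ c N α μ κ τ q ℓ s w)
    (h0 : ∀ m, i + 1 ≤ m → ∀ J, En x y m J 0 ≤ e0 N m ^ 2)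
    (H : Iv i T B₀ c N α μ τ q ℓ s x y f g b j tn) (hts : tn ≤ ts) (hτ : ts ≤ tn + τ (i + j))
    (hΓ : ∀ r ∈ Ico tn ts, GG a (Mn N (i + j)) r ≤ LL N (i + j) ^ 2) :
    ts ≤ T ∧ Nb N f g (i + j) ts ∧
    St T E (dd c N) (DD c N) α μ κ τ q ℓ s w x y f g (i + j)
      (7 / 10 - ∑ k ∈ Finset.range j, ℓ (i + k)) tn ts ∧
    GG b (Mn N (i + j)) ts ≤ B₀ + ∑ k ∈ Finset.range (j + 1), ℓ (i + k) := by
  set n := i + j with hnij
  have hin : i ≤ n := by omega
  obtain ⟨ht0, htτ, hx, hy, hS, hn, hG⟩ := H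
  have hsum : ∀ F : ℕ → ℝ, ∑ k ∈ Finset.range (j + 1), F (i + k)
      = ∑ k ∈ Finset.range j, F (i + k) + F n := fun F => Finset.sum_range_succ _ _
  have hτs := P.τs (j + 1)
  have hℓs := P.ℓs (j + 1)
  rw [hsum] at hτs hℓs
  have hT : ts ≤ T := by linarith
  have hτp := P.P.τp n hin
  have hL := P.L40 n hin
  have hL0 : 0 ≤ LL N n := by linarith
  have hM1 : (1 : ℝ) ≤ Mn N n := one_le_Mn h.N0 n
  -- the noise
  have hnb : Nb N f g n ts := by
    intro m hm r hr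
    rcases lt_or_ge r tn with hlt | hge
    · exact hn m hm r ⟨hr.1, hlt⟩
    · refine (h.noise hm ⟨hr.1, hr.2.trans_le hT⟩ (hΓ r ⟨hge, hr.2⟩)).trans ?_
      unfold nz
      have e1 : (0 : ℝ) ≤ Mn N m * (1 / 8) ^ (m - n) := by positivity
      have e2 : 40 * (LL N n ^ 2) ^ 2 ≤ LL N n ^ 5 := by
        have : 0 ≤ (LL N n ^ 2) ^ 2 := by positivity
        calc 40 * (LL N n ^ 2) ^ 2 ≤ LL N n * (LL N n ^ 2) ^ 2 :=
              mul_le_mul_of_nonneg_right hL this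
          _ = LL N n ^ 5 := by ring
      exact mul_le_mul_of_nonneg_right e2 e1
  have hw0 := P.P.w0 n hin
  have hdn1 : 0 < dd c N (n + 1) := P.P.d1 (n + 1)
  have htail : ∀ m, n + 1 ≤ m → ∀ j, m ≤ j → ∀ t ∈ Icc 0 ts,
      |x j t| ≤ sg (dd c N) α μ y m t + w n ∧ |y j t| ≤ sg (dd c N) α μ y m t + w n := by
    intro m hm j hj t ht
    have e1 := h.tails P h0 hin hT hnb hm hj ht
    have e2 := P.w1 n hin m hm
    exact ⟨by linarith [e1.1], by linarith [e1.2]⟩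
  have hz1 : nz N n (n + 1) = nz N n n * (1 / 4) := by
    have := nz_add (N := N) (le_refl n) 1
    rwa [pow_one] at this
  have hz0 : 0 ≤ nz N n n := nz_nonneg n n hL0
  have hwτ := P.wτ n hin
  have hfg : ∀ m, (m = n ∨ m = n + 1) → ∀ r ∈ Ioo 0 ts,
      |f m r| * τ n ≤ w n ∧ |g m r| * τ n ≤ w n := by
    intro m hm r hr
    have e1 := hnb m (by omega) r hr
    have e2 : nz N n m ≤ nz N n n := by
      rcases hm with rfl | rfl
      · exact le_rfl
      · rw [hz1]; linarith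
    have e3 : |f m r| ≤ nz N n n := by linarith [abs_nonneg (g m r)]
    have e4 : |g m r| ≤ nz N n n := by linarith [abs_nonneg (f m r)]
    exact ⟨(mul_le_mul_of_nonneg_right e3 hτp.le).trans hwτ,
      (mul_le_mul_of_nonneg_right e4 hτp.le).trans hwτ⟩
  have hI : ∀ r ∈ Ioo tn ts, r ∈ Ioo 0 ts := fun r hr => ⟨ht0.trans_lt hr.1, hr.2⟩
  have hE0 : 0 ≤ e0 N (n + 1) := by unfold e0; positivity
  have hz3 : 0 ≤ nz N n (n + 1) := nz_nonneg n (n + 1) hL0
  have hv := P.w1 n hin (n + 1) le_rfl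
  have hv1 : e0 N (n + 1) ≤ w n := by
    unfold vv at hv
    have : 0 ≤ 4 / 3 * nz N n (n + 1) / dd c N (n + 1) := by positivity
    linarith
  have hv2 : nz N n (n + 1) ≤ dd c N (n + 1) * w n := by
    unfold vv at hv
    have e1 : 4 / 3 * nz N n (n + 1) / dd c N (n + 1) ≤ w n := by linarith
    rw [div_le_iff₀ hdn1] at e1
    linarith
  refine ⟨hT, hnb, ?_, ?_⟩
  · exact {
      tn0 := ht0
      tts := hts
      tsT := hT
      tsτ := hτ
      A1 := by
        have : 0 ≤ ∑ k ∈ Finset.range j, ℓ (i + k) := Finset.sum_nonneg fun k _ => by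
          have e1 := P.η (i + k) (by omega)
          refine le_trans ?_ e1
          positivity
        linarith
      A2 := by linarith
      hx := hx
      hy := hy
      hS := hS
      hE := fun j t ht => h.xE j t ⟨ht0.trans ht.1, ht.2.trans hT⟩
      t1 := fun j hj t ht => htail (n + 1) le_rfl j hj t ht
      t2 := fun j hj t ht => htail (n + 2) (by omega) j hj t ht
      f1 := fun r hr => ⟨(hfg n (Or.inl rfl) r (hI r hr)).1, (hfg (n + 1) (Or.inr rfl) r (hI r hr)).1⟩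
      g1 := fun r hr => ⟨(hfg n (Or.inl rfl) r (hI r hr)).2, (hfg (n + 1) (Or.inr rfl) r (hI r hr)).2⟩
      g2 := fun r hr => by
        have e1 := hn (n + 1) (by omega) r hr
        linarith [abs_nonneg (f (n + 1) r)]
      y0 := by
        have e1 := h0 (n + 1) (by omega) 0
        unfold En at e1
        simp only [zero_add, Finset.range_one, Finset.sum_singleton, add_zero] at e1
        refine le_trans ?_ hv1
        apply abs_le_of_sq_le_sq _ hE0
        linarith [sq_nonneg (x (n + 1) 0)] }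
  · have e1 := h.zb hM1 ht0 hts hT (Γ := LL N n ^ 2) fun r hr => hΓ r ⟨hr.1.le, hr.2⟩
    have e2 := P.η n hin
    have e3 : √((ts - tn) / c) ≤ √(τ n / c) := by
      apply Real.sqrt_le_sqrt
      exact div_le_div_of_nonneg_right (by linarith) h.c0.le
    have e4 : 112 * (LL N n ^ 2) ^ 2 * √((ts - tn) / c) ≤ 112 * (LL N n ^ 2) ^ 2 * √(τ n / c) :=
      mul_le_mul_of_nonneg_left e3 (by positivity)
    rw [hsum]
    linarith

/-- the weighted norm stays below the threshold -/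
theorem Sy.below (h : Sy T c E N α μ x y f g a b) (P : Px i T E B₀ c N α μ κ τ q ℓ s w)
    (h0 : ∀ m, i + 1 ≤ m → ∀ J, En x y m J 0 ≤ e0 N m ^ 2)
    (H : Iv i T B₀ c N α μ τ q ℓ s x y f g b j tn) (hts : tn ≤ ts) (hτ : ts ≤ tn + τ (i + j))
    (hΓ : ∀ r ∈ Ico tn ts, GG a (Mn N (i + j)) r ≤ LL N (i + j) ^ 2)
    (hZ : Zf α y (i + j) tn ts ≤ af E (dd c N) (DD c N) α μ τ q w
      (7 / 10 - ∑ k ∈ Finset.range j, ℓ (i + k)) (i + j) * (1 - κ (i + j))) :
    GG a (Mn N (i + j)) ts < LL N (i + j) ^ 2 := by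
  obtain ⟨hT, hnb, hSt, hGb⟩ := h.up P h0 H hts hτ hΓ
  set n := i + j with hnij
  have hin : i ≤ n := by omega
  have hts0 : ts ∈ Icc 0 T := ⟨H.t0.trans hts, hT⟩
  obtain ⟨h1, -, -⟩ := h.cs.stage P.P hin hSt hZ
  have h2 : ∀ m, n + 2 ≤ m → |x m ts| ≤ YY N n m ∧ |y m ts| ≤ YY N n m := by
    intro m hm
    have e1 := h.tails P h0 hin hT hnb (by omega : n + 1 ≤ m) le_rfl (t := ts) ⟨hts0.1, le_rfl⟩
    have e2 := h.inactive P h0 hin hT hnb h1 hm ts ⟨hts0.1, le_rfl⟩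
    exact ⟨e1.1.trans e2, e1.2.trans e2⟩
  have hL0 : ∀ m, n ≤ m → 1 ≤ LL N m := fun m hm => by linarith [P.L40 m (by omega)]
  set Y : ℕ → ℝ := fun m => if n ≤ m then YY N n m else 0 with hY
  have hY0 : ∀ m, 0 ≤ Y m := fun m => by
    simp only [hY]
    split_ifs with hm
    · exact YY_nonneg (by linarith [hL0 m hm])
    · exact le_rfl
  obtain ⟨s1, s2⟩ := sumX (n := n) (E := E) (Y := Y) h.E0 hY0 (fun m hm => by
    simp only [hY]
    rw [if_pos (by omega)]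
    unfold YY
    exact div_le_self (by positivity) (one_le_pow₀ (hL0 m (by omega))))
  have h3 := h.GG_le n hts0 (X := fun m => if m < n + 2 then E else Y m) (fun m => by
    show |x m ts| ≤ (if m < n + 2 then E else Y m) ∧ |y m ts| ≤ (if m < n + 2 then E else Y m)
    split_ifs with hm
    · exact h.xE m ts hts0
    · simp only [hY]
      rw [if_pos (by omega)]
      exact h2 m (by omega)) s1
  have h4 := P.G n hin
  have h5 := P.ℓs (j + 1)
  linarith

end Pool.Agent.N977.S
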