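import Pool.Agent.N977.S.Ext2

/-!
The initial data.
-/

open MeasureTheory Set Filter Topology
open scoped ContDiff ComplexConjugate

namespace Pool.Agent.N977.S

open H459R3.NS Pool.Agent.N977.Q
open Pool.Agent.N977.K (SolK cmp)

/-- the third component of the datum -/
noncomputable def d2 (M : ℕ) (x : V) : ℝ :=
  √2 * (4 / 5 * Rm ((M : ℤ) • ev 0) 1 x + 3 / 5 * Rm ((M : ℤ) • ev 2) 1 x)

theorem dat2_two (M : ℕ) (x : V) : dat2 M x 2 = d2 M x := by
  have e1 : 4 * Real.pi * M * x 0 = 2 * Real.pi * ph ((M : ℤ) • ev 0) x := by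
    rw [ph_smul]
    have : ph (ev 0) x = 2 * x 0 := by simp [ph, ev, Fin.sum_univ_three]
    rw [this]; push_cast; ring
  have e2 : 2 * Real.pi * M * (2 * x 0 + x 1) = 2 * Real.pi * ph ((M : ℤ) • ev 2) x := by
    rw [ph_smul]
    have : ph (ev 2) x = 2 * x 0 + x 1 := by simp [ph, ev, Fin.sum_univ_three]
    rw [this]; push_cast; ring
  show √2 * (4 / 5 * Real.cos (4 * Real.pi * M * x 0)
    + 3 / 5 * Real.cos (2 * Real.pi * M * (2 * x 0 + x 1))) = _
  unfold d2
  rw [Rm_one, Rm_one, e1, e2]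

theorem dat2_ne (M : ℕ) (x : V) {i : Fin 3} (hi : i ≠ 2) : dat2 M x i = 0 := by
  unfold dat2
  fin_cases i
  · rfl
  · rfl
  · exact absurd rfl hi

theorem sp_cmul {f : V → ℝ} (h : SP f) (c : ℝ) : SP (fun x => c * f x) :=
  ⟨contDiff_const.mul h.smooth, fun i x => by simp only [h.per i x]⟩

theorem d2_sp (M : ℕ) : SP (d2 M) :=
  sp_cmul ((sp_cmul (Rm_sp _ _) _).add (sp_cmul (Rm_sp _ _) _)) _

theorem dat2_spv (M : ℕ) : SPV (dat2 M) := by
  refine sp_spv fun i => ?_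
  by_cases hi : i = 2
  · subst hi
    simp_rw [dat2_two]
    exact d2_sp M
  · simp_rw [dat2_ne M _ hi]
    exact ⟨contDiff_const, fun i x => rfl⟩

theorem fr_Rm_one (k l : K3) : fr (Rm k 1) l = (pm k l : ℝ) := by
  rw [fr_Rm]
  unfold pm
  split_ifs <;> simp

theorem fr_d2 (M : ℕ) (k : K3) : fr (d2 M) k
    = ((√2 * (4 / 5 * pm ((M : ℤ) • ev 0) k + 3 / 5 * pm ((M : ℤ) • ev 2) k) : ℝ) : ℂ) := by
  unfold d2
  have c1 : Continuous fun x => 4 / 5 * Rm ((M : ℤ) • ev 0) 1 x := continuous_const.mul (Rm_cont _ _)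
  have c2 : Continuous fun x => 3 / 5 * Rm ((M : ℤ) • ev 2) 1 x := continuous_const.mul (Rm_cont _ _)
  rw [fr_smul, fr_add c1 c2, fr_smul, fr_smul, fr_Rm_one, fr_Rm_one]
  push_cast
  ring

theorem aa_dat0 {N : ℕ} (hN : 0 < N) (i m : ℕ) :
    aa N 0 (dat2 (Mn N i)) m = if i = m then 4 / 5 else 0 := by
  have h2 : √2 * √2 = 2 := Real.mul_self_sqrt (by norm_num)
  unfold aa
  simp_rw [dat2_two]
  have e : (fun x => d2 (Mn N i) x) = d2 (Mn N i) := rfl
  rw [e, fr_d2, Complex.ofReal_re, pm_ev hN, pm_ev hN]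
  by_cases h : i = m
  · subst h
    simp
    linear_combination (2 / 5) * h2
  · simp [h]

theorem aa_dat2 {N : ℕ} (hN : 0 < N) (i m : ℕ) :
    aa N 2 (dat2 (Mn N i)) m = if i = m then 3 / 5 else 0 := by
  have h2 : √2 * √2 = 2 := Real.mul_self_sqrt (by norm_num)
  unfold aa
  simp_rw [dat2_two]
  have e : (fun x => d2 (Mn N i) x) = d2 (Mn N i) := rfl
  rw [e, fr_d2, Complex.ofReal_re, pm_ev hN, pm_ev hN]
  by_cases h : i = m
  · subst h
    simp
    linear_combination (3 / 10) * h2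
  · simp [h]

theorem pm_not {N : ℕ} {i : ℕ} {e : Fin 6} (he : e = 0 ∨ e = 2) {k : K3} (hk : ¬ Dg N k) :
    pm ((Mn N i : ℤ) • ev e) k = 0 := by
  apply pm_zero
  · intro h; exact hk ⟨i, e, he, Or.inl h⟩
  · intro h; exact hk ⟨i, e, he, Or.inr h⟩

variable {N i : ℕ} {ε R : ℝ} {v w : V → V}

/-- the Fourier coefficients of `v = w + ε dat` -/
theorem fr_sum (hw : SPV w) (hv : v = fun x => w x + ε • dat2 (Mn N i) x) (j : Fin 3) (k : K3) :
    fr (fun x => v x j) k = fr (fun x => w x j) k + ε * fr (fun x => dat2 (Mn N i) x j) k := by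
  have e : (fun x => v x j) = fun x => w x j + ε * dat2 (Mn N i) x j := by
    funext x; rw [hv]; rfl
  have c1 : Continuous fun x => ε * dat2 (Mn N i) x j :=
    continuous_const.mul (spv_sp (dat2_spv _) j).cont
  rw [e, fr_add (spv_sp hw j).cont c1, fr_smul]

theorem cw_sum (hw : SPV w) (hv : v = fun x => w x + ε • dat2 (Mn N i) x) (k : K3) (j : Fin 3) :
    cw N v k j = cw N w k j := by
  by_cases hj : j = 2
  · subst hj
    have h1 := fr_sum hw hv 2 k
    simp_rw [dat2_two] at h1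
    have e : (fun x => d2 (Mn N i) x) = d2 (Mn N i) := rfl
    rw [e, fr_d2] at h1
    by_cases hk : Dg N k
    · rw [cw_dg hk, cw_dg hk, h1, Complex.add_im, ← Complex.ofReal_mul, Complex.ofReal_im, add_zero]
    · rw [cw_not hk, cw_not hk, h1, pm_not (Or.inl rfl) hk, pm_not (Or.inr rfl) hk]
      simp
  · rw [cw_ne hj, cw_ne hj, fr_sum hw hv j k]
    simp_rw [dat2_ne _ _ hj]
    have : fr (fun _ => (0 : ℝ)) k = 0 := by unfold fr fc; simp
    rw [this]
    simp

theorem bn_sum (hw : SPV w) (hv : v = fun x => w x + ε • dat2 (Mn N i) x) (k : K3) :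
    bn N v k ≤ un w k := by
  have : bn N v k = bn N w k := by
    unfold bn
    simp_rw [cw_sum hw hv]
  rw [this]
  exact bn_le_un w k

theorem Wn_summable (hw : SPV w) : Summable fun k : K3 => (1 + len k) ^ 6 * un w k := by
  obtain ⟨C, hC0, hC⟩ := un_decay hw 10
  refine Summable.of_nonneg_of_le (fun k => mul_nonneg (pow_nonneg
    (by linarith [len_nonneg k]) _) (un_nonneg w k))
    (f := fun k => (if k = 0 then un w 0 else 0)
      + 729 * C * (if k = 0 then (0 : ℝ) else 1 / (H459R3.NS.N k : ℝ) ^ 4)) (fun k => ?_) ?_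
  · by_cases hk : k = 0
    · subst hk
      simp [len_zero]
    · rw [if_neg hk, if_neg hk, zero_add]
      have h1 := one_le_N hk
      have h2 := len_le_N k
      have h3 := hC k
      have h4 := len_nonneg k
      have h5 : (1 + len k) ^ 6 ≤ 729 * (H459R3.NS.N k : ℝ) ^ 6 := by
        calc (1 + len k) ^ 6 ≤ (3 * (H459R3.NS.N k : ℝ)) ^ 6 :=
              pow_le_pow_left₀ (by linarith) (by linarith) 6
          _ = _ := by ring
      rw [mul_one_div, le_div_iff₀ (by positivity)]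
      calc (1 + len k) ^ 6 * un w k * (H459R3.NS.N k : ℝ) ^ 4
          ≤ 729 * (H459R3.NS.N k : ℝ) ^ 6 * un w k * (H459R3.NS.N k : ℝ) ^ 4 :=
            mul_le_mul_of_nonneg_right (mul_le_mul_of_nonneg_right h5 (un_nonneg w k)) (by positivity)
        _ = 729 * ((H459R3.NS.N k : ℝ) ^ 10 * un w k) := by ring
        _ ≤ 729 * C := by linarith
  · refine Summable.add ?_ (summable_N4.mul_left _)
    exact summable_of_ne_finset_zero (s := {0}) fun k hk => if_neg (by simpa using hk)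

theorem Wn_le (hw : SPV w) (hR : Wn w ≤ R) (k : K3) : (1 + len k) ^ 6 * un w k ≤ R :=
  ((Wn_summable hw).le_tsum k fun l _ => mul_nonneg (pow_nonneg
    (by linarith [len_nonneg l]) _) (un_nonneg w l)).trans hR

theorem un_le_R (hw : SPV w) (hR : Wn w ≤ R) (k : K3) : un w k ≤ R := by
  refine le_trans ?_ (Wn_le hw hR k)
  exact le_mul_of_one_le_left (un_nonneg w k) (one_le_pow₀ (by linarith [len_nonneg k]))

theorem R_nonneg (hw : SPV w) (hR : Wn w ≤ R) : 0 ≤ R := (un_nonneg w 0).trans (un_le_R hw hR 0)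

/-- the initial weighted norm -/
theorem GG_init (hw : SPV w) (hv : v = fun x => w x + ε • dat2 (Mn N i) x) (hR : Wn w ≤ R)
    (hε : 0 < ε) {M : ℝ} (hM : 1 ≤ M) : ∑' k, gw M k * (bn N v k / ε) ≤ R / ε := by
  have h1 : ∀ k, gw M k * (bn N v k / ε) ≤ (1 + len k) ^ 6 * un w k / ε := by
    intro k
    have hl := len_nonneg k
    have h2 : gw M k ≤ (1 + len k) ^ 6 := by
      unfold gw
      have a1 : max 1 (len k / M) ≤ 1 + len k :=
        max_le (by linarith) ((div_le_self hl hM).trans (by linarith))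
      calc _ ≤ (1 + len k) ^ 3 := pow_le_pow_left₀ (by positivity) a1 3
        _ ≤ _ := pow_le_pow_right₀ (by linarith) (by norm_num)
    have h3 := bn_sum hw hv k
    rw [← mul_div_assoc]
    apply div_le_div_of_nonneg_right _ hε.le
    exact mul_le_mul h2 h3 (bn_nonneg _ _ _) (by positivity)
  have hs := (Wn_summable hw).div_const ε
  have hs' : Summable fun k => gw M k * (bn N v k / ε) :=
    Summable.of_nonneg_of_le (fun k => mul_nonneg (gw_pos M k).le
      (div_nonneg (bn_nonneg _ _ _) hε.le)) h1 hs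
  refine (hs'.tsum_le_tsum h1 hs).trans ?_
  rw [tsum_div_const]
  exact div_le_div_of_nonneg_right hR hε.le

theorem d2_sq_le (M : ℕ) (x : V) : d2 M x ^ 2 ≤ 4 := by
  have h2 : √2 * √2 = 2 := Real.mul_self_sqrt (by norm_num)
  unfold d2
  rw [Rm_one, Rm_one]
  set a := Real.cos (2 * Real.pi * ph ((M : ℤ) • ev 0) x)
  set b := Real.cos (2 * Real.pi * ph ((M : ℤ) • ev 2) x)
  have ha := Real.abs_cos_le_one (2 * Real.pi * ph ((M : ℤ) • ev 0) x)
  have hb := Real.abs_cos_le_one (2 * Real.pi * ph ((M : ℤ) • ev 2) x)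
  have h3 : |4 / 5 * a + 3 / 5 * b| ≤ 7 / 5 := by
    refine (abs_add_le _ _).trans ?_
    rw [abs_mul, abs_mul, abs_of_pos (by norm_num : (0 : ℝ) < 4 / 5),
      abs_of_pos (by norm_num : (0 : ℝ) < 3 / 5)]
    linarith
  have h4 : (4 / 5 * a + 3 / 5 * b) ^ 2 ≤ (7 / 5) ^ 2 := by
    rw [← sq_abs]; exact pow_le_pow_left₀ (abs_nonneg _) h3 2
  calc _ = (√2 * √2) * (4 / 5 * a + 3 / 5 * b) ^ 2 := by ring
    _ ≤ _ := by rw [h2]; linarith

/-- the initial energy -/
theorem EE_init (hw : SPV w) (hv : v = fun x => w x + ε • dat2 (Mn N i) x) (hvs : SPV v)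
    (hR : Wn w ≤ R) : EE 0 v ≤ 8 * ε ^ 2 + 2 * R ^ 2 := by
  have hE : EE 0 w ≤ R ^ 2 := by
    have h1 : ∀ k, len k ^ (2 * 0) * un w k ^ 2 ≤ R * ((1 + len k) ^ 6 * un w k) := by
      intro k
      rw [mul_zero, pow_zero, one_mul, sq]
      apply mul_le_mul (un_le_R hw hR k) _ (un_nonneg w k) (R_nonneg hw hR)
      exact le_mul_of_one_le_left (un_nonneg w k) (one_le_pow₀ (by linarith [len_nonneg k]))
    refine ((EE_summable hw 0).tsum_le_tsum h1 ((Wn_summable hw).mul_left R)).trans ?_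
    rw [tsum_mul_left, sq]
    exact mul_le_mul_of_nonneg_left hR (R_nonneg hw hR)
  rw [EE_zero hw] at hE
  rw [EE_zero hvs]
  have h2 : ∀ j, ∫ x in cube, v x j ^ 2
      ≤ ∫ x in cube, (2 * w x j ^ 2 + 2 * ε ^ 2 * dat2 (Mn N i) x j ^ 2) := by
    intro j
    refine setIntegral_mono_on ?_ ?_ measurableSet_Icc fun x _ => ?_
    · exact integrableOn_cube ((spv_sp hvs j).cont.pow 2)
    · exact integrableOn_cube ((continuous_const.mul ((spv_sp hw j).cont.pow 2)).add
        (continuous_const.mul ((spv_sp (dat2_spv _) j).cont.pow 2)))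
    · have e : v x j = w x j + ε * dat2 (Mn N i) x j := by rw [hv]; rfl
      rw [e]
      nlinarith [sq_nonneg (w x j - ε * dat2 (Mn N i) x j)]
  have h3 : ∀ j, ∫ x in cube, (2 * w x j ^ 2 + 2 * ε ^ 2 * dat2 (Mn N i) x j ^ 2)
      = 2 * (∫ x in cube, w x j ^ 2) + 2 * ε ^ 2 * ∫ x in cube, dat2 (Mn N i) x j ^ 2 := by
    intro j
    have i1 : IntegrableOn (fun x => 2 * w x j ^ 2) cube :=
      integrableOn_cube (continuous_const.mul ((spv_sp hw j).cont.pow 2))
    have i2 : IntegrableOn (fun x => 2 * ε ^ 2 * dat2 (Mn N i) x j ^ 2) cube :=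
      integrableOn_cube (continuous_const.mul ((spv_sp (dat2_spv _) j).cont.pow 2))
    rw [integral_add i1 i2, integral_const_mul, integral_const_mul]
  have h4 : ∑ j, ∫ x in cube, dat2 (Mn N i) x j ^ 2 ≤ 4 := by
    rw [Fin.sum_univ_three]
    have z : ∀ j : Fin 3, j ≠ 2 → ∫ x in cube, dat2 (Mn N i) x j ^ 2 = 0 := fun j hj => by
      simp_rw [dat2_ne _ _ hj]
      simp
    rw [z 0 (by decide), z 1 (by decide)]
    simp_rw [dat2_two]
    have : ∫ x in cube, d2 (Mn N i) x ^ 2 ≤ ∫ x in cube, (4 : ℝ) := by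
      refine setIntegral_mono_on ?_ ?_ measurableSet_Icc fun x _ => d2_sq_le _ x
      · exact integrableOn_cube ((d2_sp _).cont.pow 2)
      · exact integrableOn_cube continuous_const
    have e : ∫ x in cube, (4 : ℝ) = 4 := by
      simp [Measure.real, volume_cube]
    rw [e] at this
    linarith
  calc ∑ j, ∫ x in cube, v x j ^ 2 ≤ ∑ j, (2 * (∫ x in cube, w x j ^ 2)
        + 2 * ε ^ 2 * ∫ x in cube, dat2 (Mn N i) x j ^ 2) :=
        Finset.sum_le_sum fun j _ => (h2 j).trans (h3 j).le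
    _ = 2 * ∑ j, (∫ x in cube, w x j ^ 2)
        + 2 * ε ^ 2 * ∑ j, ∫ x in cube, dat2 (Mn N i) x j ^ 2 := by
        rw [Finset.sum_add_distrib, ← Finset.mul_sum, ← Finset.mul_sum]
    _ ≤ 2 * R ^ 2 + 2 * ε ^ 2 * 4 := by
        have := mul_le_mul_of_nonneg_left h4 (show 0 ≤ 2 * ε ^ 2 by positivity)
        linarith
    _ = _ := by ring

/-- the small amplitudes -/
theorem aa_w (hw : SPV w) (hR : Wn w ≤ R) (hN : 0 < N) {e : Fin 6} (he : e = 0 ∨ e = 2) (m : ℕ) :
    (Mn N m : ℝ) ^ 6 * |aa N e w m| ≤ 2 * R := by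
  have h1 := aa_abs (N := N) e w m
  have h2 := Wn_le hw hR ((Mn N m : ℤ) • ev e)
  have hM : (0 : ℝ) < Mn N m := by exact_mod_cast Mn_pos hN m
  have h3 : (Mn N m : ℝ) ≤ 1 + len ((Mn N m : ℤ) • ev e) := by
    rw [len_smul]
    have := (len_ev he).1
    nlinarith
  have h4 := pow_le_pow_left₀ hM.le h3 6
  have h5 := un_nonneg w ((Mn N m : ℤ) • ev e)
  have h6 : (Mn N m : ℝ) ^ 6 * un w ((Mn N m : ℤ) • ev e) ≤ R :=
    (mul_le_mul_of_nonneg_right h4 h5).trans h2
  have h7 : √2 ≤ 2 := by linarith [sqrt_two_le']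
  calc (Mn N m : ℝ) ^ 6 * |aa N e w m| ≤ (Mn N m : ℝ) ^ 6 * (2 * un w ((Mn N m : ℤ) • ev e)) := by
        apply mul_le_mul_of_nonneg_left _ (by positivity)
        exact h1.trans (mul_le_mul_of_nonneg_right h7 h5)
    _ = 2 * ((Mn N m : ℝ) ^ 6 * un w ((Mn N m : ℤ) • ev e)) := by ring
    _ ≤ _ := by linarith

theorem aa_v (hw : SPV w) (hv : v = fun x => w x + ε • dat2 (Mn N i) x) (e : Fin 6) (m : ℕ) :
    aa N e v m = aa N e w m + ε * aa N e (dat2 (Mn N i)) m := by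
  have h1 : SPV (fun x => ε • dat2 (Mn N i) x) := by
    refine sp_spv fun j => ?_
    exact sp_cmul (spv_sp (dat2_spv _) j) ε
  rw [hv, aa_add hw h1, aa_smul]

end Pool.Agent.N977.S
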