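import Pool.Agent.N977.S.Init
import Pool.Agent.N977.S.Par3

/-!
Stable finite time blow-up.
-/

open MeasureTheory Set Filter Topology
open scoped ContDiff ComplexConjugate

namespace Pool.Agent.N977.S

open H459R3.NS Pool.Agent.N977.Q
open Pool.Agent.N977.K (SolK cmp)

theorem log_sq_le {x : ℝ} (hx : 1 ≤ x) : Real.log x ^ 2 ≤ x := by
  have h0 : 0 ≤ Real.log x := Real.log_nonneg hx
  have h1 := Real.add_one_le_exp (Real.log x / 2 - 1)
  have h2 : Real.exp (Real.log x / 2 - 1) * Real.exp 1 = Real.exp (Real.log x / 2) := by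
    rw [← Real.exp_add]; congr 1; ring
  have h3 : 2 ≤ Real.exp 1 := by linarith [Real.exp_one_gt_d9]
  have h4 : Real.log x ≤ Real.exp (Real.log x / 2) := by
    rw [← h2]
    have : Real.log x / 2 ≤ Real.exp (Real.log x / 2 - 1) := by linarith
    nlinarith [Real.exp_pos (Real.log x / 2 - 1)]
  calc Real.log x ^ 2 ≤ Real.exp (Real.log x / 2) ^ 2 := pow_le_pow_left₀ h0 h4 2
    _ = Real.exp (Real.log x) := by rw [← Real.exp_nat_mul]; congr 1; push_cast; ring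
    _ = x := Real.exp_log (by linarith)

theorem ga_of {θ p : ℝ} (hθ : 0 < θ) (hθ1 : θ ≤ 1) (hp : p ≤ 2) :
    Ga 4 (al θ 2 p 4) (mu θ 2 p 4) := by
  have h3 : ∀ n, |al θ 2 p 4 n| ≤ 1 * (Mn 4 n : ℝ) ^ 3 := by
    intro n
    have h1 := al_le (b := 2) hθ1 hp (by norm_num : 3 ≤ 4) n
    have h2 : (1 : ℝ) ≤ Mn 4 n := one_le_Mn (by norm_num) n
    rw [abs_of_pos (al_pos hθ (by norm_num) n), one_mul]
    refine h1.trans ?_
    calc (Mn 4 n : ℝ) ^ 2 * Real.log (Mn 4 n) ^ 2 ≤ (Mn 4 n : ℝ) ^ 2 * Mn 4 n :=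
          mul_le_mul_of_nonneg_left (log_sq_le h2) (by positivity)
      _ = _ := by ring
  refine ⟨by norm_num, h3, fun n => ?_⟩
  have h4 := mu_pos (b := 2) (p := p) hθ (by norm_num : 3 ≤ 4) n
  have h5 := mu_le_al (b := 2) (p := p) hθ (by norm_num : 3 ≤ 4) n
  rw [abs_of_pos h4]
  exact (h5.trans (le_abs_self _)).trans (h3 n)

/-- the bound of the initial values of the higher levels -/
theorem En_init {x y : ℕ → ℝ → ℝ} {N m : ℕ} (hN : 0 < N)
    (hx : ∀ k, m ≤ k → |x k 0| ≤ 1 / 2 * (1 / (Mn N k : ℝ) ^ 5))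
    (hy : ∀ k, m ≤ k → |y k 0| ≤ 1 / 2 * (1 / (Mn N k : ℝ) ^ 5)) (J : ℕ) :
    En x y m J 0 ≤ e0 N m ^ 2 := by
  have hM : (0 : ℝ) < Mn N m := by exact_mod_cast Mn_pos hN m
  unfold En
  have h1 : ∀ k ∈ Finset.range (J + 1), x (m + k) 0 ^ 2 + y (m + k) 0 ^ 2
      ≤ 1 / 2 * (1 / (Mn N m : ℝ) ^ 10) * (1 / 4) ^ k := by
    intro k _
    have e1 := pow_le_pow_left₀ (abs_nonneg _) (hx (m + k) (by omega)) 2
    have e2 := pow_le_pow_left₀ (abs_nonneg _) (hy (m + k) (by omega)) 2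
    rw [sq_abs] at e1 e2
    have e3 : (Mn N (m + k) : ℝ) = Mn N m * 2 ^ k := by
      unfold Mn; push_cast; rw [pow_add]; ring
    have e4 : (1 / 2 * (1 / (Mn N (m + k) : ℝ) ^ 5)) ^ 2
        ≤ 1 / 4 * (1 / (Mn N m : ℝ) ^ 10) * (1 / 4) ^ k := by
      rw [e3]
      have a1 : (1 / 2 * (1 / ((Mn N m : ℝ) * 2 ^ k) ^ 5)) ^ 2
          = 1 / 4 * (1 / (Mn N m : ℝ) ^ 10) * (1 / (2 ^ k) ^ 10) := by
        field_simp; norm_num
      rw [a1]
      apply mul_le_mul_of_nonneg_left _ (by positivity)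
      rw [one_div_pow]
      apply one_div_le_one_div_of_le (by positivity)
      calc (4 : ℝ) ^ k = (2 ^ k) ^ 2 := by rw [← pow_mul, mul_comm, pow_mul]; norm_num
        _ ≤ (2 ^ k) ^ 10 := pow_le_pow_right₀ (one_le_pow₀ (by norm_num)) (by norm_num)
    linarith
  refine (Finset.sum_le_sum h1).trans ?_
  rw [← Finset.mul_sum]
  have h2 := geom4 (J + 1)
  have h3 : 0 ≤ 1 / 2 * (1 / (Mn N m : ℝ) ^ 10) := by positivity
  have h4 := mul_le_mul_of_nonneg_left h2 h3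
  have h5 : e0 N m ^ 2 = 1 / (Mn N m : ℝ) ^ 10 := by unfold e0; rw [one_div_pow, ← pow_mul]
  rw [h5]
  have h6 : 0 ≤ 1 / (Mn N m : ℝ) ^ 10 := by positivity
  linarith

/-- **Stable finite time blow-up**. -/
theorem main {p δ : ℝ} (hp : 1 < p) (hδ : 0 < δ) :
    ∃ K : (V → V) → (V → V) → V → V, LowE 2 p δ K ∧
      ∀ ν ε T R : ℝ, 0 < ν → 0 < ε → ε ≤ 1 → 0 < T → ∃ j₀ : ℕ, ∀ j : ℕ, j₀ ≤ j →
        ∀ (T₂ : ℝ) (u : ℝ → V → V) (q : ℝ → V → ℝ), SolK ν T₂ K u q →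
          Wn (fun x => u 0 x - ε • dat2 (2 ^ j) x) ≤ R → T₂ ≤ T := by
  set p₀ := min p 2 with hp₀
  have hp1 : 1 < p₀ := lt_min hp (by norm_num)
  have hp2 : p₀ ≤ 2 := min_le_right _ _
  set θ := min 1 (δ / 18) with hθd
  have hθ : 0 < θ := lt_min one_pos (by positivity)
  have hθ1 : θ ≤ 1 := min_le_left _ _
  have hθδ : 18 * θ ≤ δ := by
    have : θ ≤ δ / 18 := min_le_right _ _
    linarith
  set α := al θ 2 p₀ 4 with hα
  set μ := mu θ 2 p₀ 4 with hμ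
  have hG : Ga 4 α μ := ga_of hθ hθ1 hp2
  have hαb : ∀ n, |α n| ≤ θ * ((Mn 4 n : ℝ) ^ (2 : ℝ) * Real.log (Mn 4 n) ^ p) := by
    intro n
    rw [abs_of_pos (al_pos hθ (by norm_num) n)]
    unfold al
    rw [Real.rpow_two, mul_assoc]
    apply mul_le_mul_of_nonneg_left _ hθ.le
    apply mul_le_mul_of_nonneg_left _ (by positivity)
    exact Real.rpow_le_rpow_of_exponent_le (one_le_L (by norm_num) n) (min_le_left _ _)
  have hμb : ∀ n, |μ n| ≤ θ * ((Mn 4 n : ℝ) ^ (2 : ℝ) * Real.log (Mn 4 n) ^ p) := by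
    intro n
    have h4 := mu_pos (b := 2) (p := p₀) hθ (by norm_num : 3 ≤ 4) n
    have h5 := mu_le_al (b := 2) (p := p₀) hθ (by norm_num : 3 ≤ 4) n
    rw [abs_of_pos h4]
    exact (h5.trans (le_abs_self _)).trans (hαb n)
  have hK : LowE 2 p δ (KB 4 α μ) := KB_low hG hθ.le hαb hμb hθδ
  refine ⟨KB 4 α μ, hK, ?_⟩
  intro ν ε T R hν hε hε1 hT
  set c := (2 * Real.pi) ^ 2 * ν with hc
  have hc0 : 0 < c := by positivity
  set R' := |R| with hR'
  have hR0 : 0 ≤ R' := abs_nonneg R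
  set E : ℝ := 7 + 4 * (R' / ε) with hE
  have hRε : 0 ≤ R' / ε := by positivity
  obtain ⟨N₀, hN₀⟩ := px_exists (θ := ε * θ) (p := p₀) (c := c) (E := E) (B₀ := R' / ε) (T := T)
    (by positivity) (by nlinarith) hp1 hp2 hc0 (by linarith) hRε hT
  obtain ⟨j₁, hj₁⟩ := pow_unbounded_of_one_lt (20 * (R' / ε) + N₀) (one_lt_two (α := ℝ))
  refine ⟨max j₁ 2, fun j hj T₂ u q hs hW => ?_⟩
  by_contra hcon
  push Not at hcon
  obtain ⟨i, hi⟩ : ∃ i, j = i + 2 := ⟨j - 2, by have := (le_max_right j₁ 2).trans hj; omega⟩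
  have hjM : 2 ^ j = Mn 4 i := by
    unfold Mn; rw [hi, pow_add]; ring
  have hbig : 20 * (R' / ε) + N₀ ≤ Mn 4 i := by
    have h1 : (2 : ℝ) ^ j₁ ≤ 2 ^ j :=
      pow_le_pow_right₀ (by norm_num) ((le_max_left _ _).trans hj)
    have h2 : ((2 ^ j : ℕ) : ℝ) = Mn 4 i := by rw [hjM]
    push_cast at h2
    linarith
  have hN4 : (0 : ℕ) < 4 := by norm_num
  have hNi : N₀ ≤ Mn 4 i := by
    have : (N₀ : ℝ) ≤ Mn 4 i := by linarith
    exact_mod_cast this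
  obtain ⟨κ, τ, qq, ℓ, s, w, P⟩ := hN₀ 4 i (by norm_num) hNi
  have eα : al (ε * θ) 2 p₀ 4 = fun n => ε * α n := by
    funext n; rw [hα]; unfold al; ring
  have eμ : mu (ε * θ) 2 p₀ 4 = fun n => ε * μ n := by
    funext n; rw [hμ]; unfold mu al; ring
  rw [eα, eμ] at P
  have h0T : (0 : ℝ) ∈ Ico 0 T₂ := ⟨le_rfl, hT.trans hcon⟩
  have h0T' : (0 : ℝ) ∈ Icc 0 T := ⟨le_rfl, hT.le⟩
  have hu0 : SPV (u 0) := sol_spv hs h0T
  -- the perturbation of the datum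
  set W : V → V := fun x => u 0 x - ε • dat2 (Mn 4 i) x with hWd
  have hWs : SPV W := by
    refine sp_spv fun k => ?_
    have e : (fun x => W x k) = fun x => u 0 x k - ε * dat2 (Mn 4 i) x k := rfl
    rw [e]
    exact (spv_sp hu0 k).sub (sp_cmul (spv_sp (dat2_spv _) k) ε)
  have hWR : Wn W ≤ R' := by
    rw [hjM] at hW
    exact hW.trans (le_abs_self R)
  have hvW : u 0 = fun x => W x + ε • dat2 (Mn 4 i) x := by
    funext x; simp only [hWd]; abel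
  -- the energy
  have hEE : √2 * √(EE 0 (u 0)) ≤ ε * E := by
    have h1 := EE_init hWs hvW hu0 hWR
    have h2 : √(EE 0 (u 0)) ≤ 3 * ε + 2 * R' := by
      apply Real.sqrt_le_iff.2
      have : 0 ≤ ε * R' := by positivity
      exact ⟨by positivity, by nlinarith [sq_nonneg ε, sq_nonneg R']⟩
    have h3 : ε * E = 7 * ε + 4 * R' := by rw [hE]; field_simp
    rw [h3]
    have h4 := sqrt_two_le'
    have h5 : 0 ≤ 3 * ε + 2 * R' := by positivity
    calc √2 * √(EE 0 (u 0)) ≤ 1.4143 * (3 * ε + 2 * R') :=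
          mul_le_mul h4 h2 (Real.sqrt_nonneg _) (by norm_num)
      _ ≤ _ := by linarith
  have hα0 : ∀ n, 0 ≤ α n := fun n => (al_pos hθ (by norm_num) n).le
  have hμ0 : ∀ n, 0 ≤ μ n := fun n => (mu_pos hθ (by norm_num) n).le
  have hS := sy_of (E := E) hG hα0 hμ0 hν hK hs hT hcon hε hε1 hc (by linarith) hEE
  -- the initial amplitudes
  have hx0 : ∀ e m, xx 4 ε T e u m 0 = aa 4 e W m / ε + aa 4 e (dat2 (Mn 4 i)) m := by
    intro e m
    rw [xx_eq h0T', aa_v hWs hvW e m]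
    field_simp
  have hsm : ∀ e, (e = 0 ∨ e = 2) → ∀ m, (Mn 4 m : ℝ) ^ 6 * |aa 4 e W m / ε| ≤ 2 * (R' / ε) := by
    intro e he m
    rw [abs_div, abs_of_pos hε, ← mul_div_assoc, ← mul_div_assoc]
    exact div_le_div_of_nonneg_right (aa_w hWs hWR hN4 he m) hε.le
  have hM1 : ∀ m, (1 : ℝ) ≤ Mn 4 m := fun m => one_le_Mn hN4 m
  have hbound : ∀ e, (e = 0 ∨ e = 2) → ∀ m, i ≤ m →
      |aa 4 e W m / ε| ≤ 1 / 10 * (1 / (Mn 4 m : ℝ) ^ 5) := by
    intro e he m hm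
    have h1 := hsm e he m
    have h2 : (Mn 4 i : ℝ) ≤ Mn 4 m := by
      unfold Mn; push_cast
      exact mul_le_mul_of_nonneg_left (pow_le_pow_right₀ (by norm_num) hm) (by norm_num)
    have h3 : 20 * (R' / ε) ≤ Mn 4 m := by
      have : (0 : ℝ) ≤ N₀ := Nat.cast_nonneg _
      linarith
    have h4 : (0 : ℝ) < Mn 4 m := by linarith [hM1 m]
    rw [← mul_one_div, ← div_eq_mul_one_div, ← div_eq_mul_one_div, le_div_iff₀ (by positivity)]
    have h5 : (Mn 4 m : ℝ) * (|aa 4 e W m / ε| * (Mn 4 m : ℝ) ^ 5) ≤ Mn 4 m * (1 / 10) := by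
      calc _ = (Mn 4 m : ℝ) ^ 6 * |aa 4 e W m / ε| := by ring
        _ ≤ 2 * (R' / ε) := h1
        _ ≤ _ := by linarith
    exact le_of_mul_le_mul_left h5 h4
  have hfin := hS.false P (fun m hm => En_init hN4 (fun k hk => by
      rw [hx0 0 k, aa_dat0 hN4, if_neg (by omega), add_zero]
      refine (hbound 0 (Or.inl rfl) k (by omega)).trans ?_
      have h4 : (0 : ℝ) ≤ 1 / (Mn 4 k : ℝ) ^ 5 := by positivity
      linarith) (fun k hk => by
      rw [hx0 2 k, aa_dat2 hN4, if_neg (by omega), add_zero]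
      refine (hbound 2 (Or.inr rfl) k (by omega)).trans ?_
      have h4 : (0 : ℝ) ≤ 1 / (Mn 4 k : ℝ) ^ 5 := by positivity
      linarith)) ?_ ?_ ?_
  · exact hfin
  · rw [hx0 0 i, aa_dat0 hN4, if_pos rfl]
    have h1 := hbound 0 (Or.inl rfl) i le_rfl
    have h2 : 1 / (Mn 4 i : ℝ) ^ 5 ≤ 1 := by
      rw [div_le_one (by have := hM1 i; positivity)]
      exact one_le_pow₀ (hM1 i)
    have h3 := neg_abs_le (aa 4 0 W i / ε)
    linarith
  · rw [hx0 2 i, aa_dat2 hN4, if_pos rfl]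
    have h1 := hbound 2 (Or.inr rfl) i le_rfl
    have h2 : 1 / (Mn 4 i : ℝ) ^ 5 ≤ 1 := by
      rw [div_le_one (by have := hM1 i; positivity)]
      exact one_le_pow₀ (hM1 i)
    have h3 := neg_abs_le (aa 4 2 W i / ε)
    have h4 := P.P.s1 i le_rfl
    linarith
  · exact GG_init hWs hvW hWR hε (hM1 i)

end Pool.Agent.N977.S
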