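import Pool.Agent.N977.S.Mode

/-!
The evolution of the Fourier coefficients, continued.
-/

open MeasureTheory Set Filter Topology
open scoped ContDiff ComplexConjugate

namespace Pool.Agent.N977.S

open H459R3.NS Pool.Agent.N977.Q
open Pool.Agent.N977.K (SolK cmp)

variable {N : ℕ} {α μ : ℕ → ℝ} {ν T : ℝ} {u : ℝ → V → V} {q : ℝ → V → ℝ}

/-- the right hand side of the equations -/
noncomputable def rhs (ν : ℝ) (K : (V → V) → (V → V) → V → V) (v : V → V) (P : V → ℝ) (i : Fin 3)
    (x : V) : ℝ :=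
  ν * lap (fun y => v y i) x - conv (fun i y => v y i) i x - pd i P x + K v v x i

theorem rhs_cont (h : Ga N α μ) {v : V → V} (hv : SPV v) {P : V → ℝ} (hP : SP P) (i : Fin 3) :
    Continuous (rhs ν (KB N α μ) v P i) :=
  (((continuous_const.mul (spv_sp hv i).lap.cont).sub (sp_conv (spv_sp hv) i).cont).sub
    (hP.pd i).cont).add (spv_sp (KB_spv h hv hv) i).cont

theorem fr_rhs (h : Ga N α μ) {v : V → V} (hv : SPV v) {P : V → ℝ} (hP : SP P) (i : Fin 3) (k : K3) :
    fr (rhs ν (KB N α μ) v P i) k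
      = -(ν * ((2 * Real.pi) ^ 2 * len k ^ 2) : ℝ) * fr (fun x => v x i) k
      - fr (conv (fun i y => v y i) i) k - 2 * Real.pi * Complex.I * (k i : ℂ) * fr P k
      + fr (fun x => KB N α μ v v x i) k := by
  have c1 : Continuous fun x => ν * lap (fun y => v y i) x :=
    continuous_const.mul (spv_sp hv i).lap.cont
  have c2 : Continuous fun x => ν * lap (fun y => v y i) x - conv (fun i y => v y i) i x :=
    c1.sub (sp_conv (spv_sp hv) i).cont
  have c3 : Continuous fun x => ν * lap (fun y => v y i) x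
    - conv (fun i y => v y i) i x - pd i P x := c2.sub (hP.pd i).cont
  have e : rhs ν (KB N α μ) v P i = fun x => (ν * lap (fun y => v y i) x
    - conv (fun i y => v y i) i x - pd i P x) + KB N α μ v v x i := rfl
  rw [e, fr_add c3 (spv_sp (KB_spv h hv hv) i).cont, fr_sub c2 (hP.pd i).cont,
    fr_sub c1 (sp_conv (spv_sp hv) i).cont, fr_smul, fr_lap (spv_sp hv i), fr_pd' hP]
  push_cast
  ring

open Classical in
/-- the Fourier coefficient without the component which is driven by the perturbation -/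
noncomputable def cw (N : ℕ) (v : V → V) (k : K3) (i : Fin 3) : ℂ :=
  fr (fun x => v x i) k - (if i = 2 ∧ Dg N k then ((fr (fun x => v x 2) k).re : ℂ) else 0)

/-- its norm -/
noncomputable def bn (N : ℕ) (v : V → V) (k : K3) : ℝ := √(∑ i, ‖cw N v k i‖ ^ 2)

theorem bn_nonneg (N : ℕ) (v : V → V) (k : K3) : 0 ≤ bn N v k := Real.sqrt_nonneg _

theorem bn_sq (N : ℕ) (v : V → V) (k : K3) : bn N v k ^ 2 = ∑ i, ‖cw N v k i‖ ^ 2 :=
  Real.sq_sqrt (Finset.sum_nonneg fun _ _ => sq_nonneg _)

theorem cw_ne {v : V → V} {k : K3} {i : Fin 3} (hi : i ≠ 2) : cw N v k i = fr (fun x => v x i) k := by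
  unfold cw; rw [if_neg (fun h => hi h.1), sub_zero]

theorem cw_not {v : V → V} {k : K3} (hk : ¬ Dg N k) (i : Fin 3) :
    cw N v k i = fr (fun x => v x i) k := by
  unfold cw; rw [if_neg (fun h => hk h.2), sub_zero]

theorem cw_dg {v : V → V} {k : K3} (hk : Dg N k) :
    cw N v k 2 = ((fr (fun x => v x 2) k).im : ℂ) * Complex.I := by
  unfold cw; rw [if_pos ⟨rfl, hk⟩]
  apply Complex.ext <;> simp

theorem norm_cw_le (v : V → V) (k : K3) (i : Fin 3) : ‖cw N v k i‖ ≤ ‖fr (fun x => v x i) k‖ := by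
  by_cases hi : i = 2
  · subst hi
    by_cases hk : Dg N k
    · rw [cw_dg hk]
      simp only [norm_mul, Complex.norm_real, Complex.norm_I, mul_one, Real.norm_eq_abs]
      exact Complex.abs_im_le_norm _
    · rw [cw_not hk]
  · rw [cw_ne hi]

theorem bn_le_un (v : V → V) (k : K3) : bn N v k ≤ un v k := by
  apply Real.sqrt_le_sqrt
  refine Finset.sum_le_sum fun i _ => ?_
  exact pow_le_pow_left₀ (norm_nonneg _) (norm_cw_le v k i) 2

/-- on the designated frequencies -/
theorem un_le_bn (v : V → V) (k : K3) : un v k ≤ bn N v k + |(fr (fun x => v x 2) k).re| := by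
  by_cases hk : Dg N k
  · rw [← abs_of_nonneg (un_nonneg v k), ← abs_of_nonneg (bn_nonneg N v k)]
    rw [← sub_nonneg] 
    have h1 : un v k ^ 2 = bn N v k ^ 2 + (fr (fun x => v x 2) k).re ^ 2 := by
      rw [un_sq, bn_sq, Fin.sum_univ_three, Fin.sum_univ_three, cw_ne (by decide),
        cw_ne (by decide), cw_dg hk]
      have e : ‖fr (fun x => v x 2) k‖ ^ 2 = (fr (fun x => v x 2) k).re ^ 2
          + (fr (fun x => v x 2) k).im ^ 2 := by
        rw [Complex.sq_norm, Complex.normSq_apply]; ring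
      rw [e]
      simp only [norm_mul, Complex.norm_real, Complex.norm_I, mul_one, Real.norm_eq_abs, sq_abs]
      ring
    have h2 := abs_nonneg (fr (fun x => v x 2) k).re
    have h3 := bn_nonneg N v k
    rw [sub_nonneg, abs_of_nonneg (un_nonneg v k), abs_of_nonneg h3]
    apply le_of_sq_le_sq' _ (by positivity)
    rw [h1, add_sq, sq_abs]
    have : 0 ≤ 2 * bn N v k * |(fr (fun x => v x 2) k).re| := by positivity
    linarith
  · have : bn N v k = un v k := by
      unfold bn un
      simp_rw [cw_not hk]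
    rw [this]
    linarith [abs_nonneg (fr (fun x => v x 2) k).re]
where
  le_of_sq_le_sq' {a b : ℝ} (h : a ^ 2 ≤ b ^ 2) (hb : 0 ≤ b) : a ≤ b := by
    exact abs_le_of_sq_le_sq' h hb |>.2

theorem un_eq_bn {v : V → V} {k : K3} (hk : ¬ Dg N k) : un v k = bn N v k := by
  unfold bn un
  simp_rw [cw_not hk]

/-- the evolution of `bn` -/
theorem bn_deriv (h : Ga N α μ) (hs : SolK ν T (KB N α μ) u q) {t : ℝ} (ht : t ∈ Ioo 0 T) (k : K3) :
    ∃ B : ℝ, |B| ≤ bn N (u t) k * (2 * Real.pi * len k * cv (un (u t)) (un (u t)) k) ∧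
      HasDerivAt (fun s => bn N (u s) k ^ 2)
        (-(2 * (ν * (2 * Real.pi) ^ 2 * len k ^ 2)) * bn N (u t) k ^ 2 + 2 * B) t := by
  have htI := Ioo_subset_Ico_self ht
  have hUs : SPV (u t) := sol_spv hs htI
  have hq := sol_sp_p hs htI
  set g : Fin 3 → V → ℝ := rhs ν (KB N α μ) (u t) (q t) with hg
  have hgc : ∀ i, Continuous (g i) := fun i => rhs_cont h hUs hq i
  have hd : ∀ i x, HasDerivAt (fun s => u s x i) (g i x) t := fun i x =>
    sol_hasDerivAt hs ht i x
  have h1 : ∀ i, HasDerivAt (fun s => ‖cw N (u s) k i‖ ^ 2)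
      (2 * (conj (cw N (u t) k i) * fr (g i) k).re) t := by
    intro i
    by_cases hi : i = 2 ∧ Dg N k
    · obtain ⟨hi, hk⟩ := hi
      subst hi
      have e : (fun s => ‖cw N (u s) k 2‖ ^ 2) = fun s => (fr (fun x => u s x 2) k).im ^ 2 := by
        funext s
        rw [cw_dg hk]
        simp [norm_mul, sq_abs]
      rw [e, cw_dg hk]
      have := (im_deriv (f := fun s x => u s x 2) (smooth_c hs 2) ht (hd 2) (hgc 2) k).pow 2
      refine this.congr_deriv ?_
      simp
      ring
    · have e : ∀ v, cw N v k i = fr (fun x => v x i) k := fun v => by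
        unfold cw; rw [if_neg hi, sub_zero]
      simp only [e]
      exact fr_deriv (f := fun s x => u s x i) (smooth_c hs i) ht (hd i) (hgc i) k
  have h2 := HasDerivAt.fun_sum (u := Finset.univ) fun i (_ : i ∈ Finset.univ) => h1 i
  refine ⟨-(∑ i, conj (cw N (u t) k i) * fr (conv (fun i y => u t y i) i) k).re, ?_, ?_⟩
  · rw [abs_neg]
    refine (Complex.abs_re_le_norm _).trans ?_
    refine (conv_le hUs (hs.divfree t htI) (fun i => conj (cw N (u t) k i)) k).trans (le_of_eq ?_)
    simp only [Complex.norm_conj]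
    rfl
  · have e0 : (fun s => bn N (u s) k ^ 2) = fun s => ∑ i, ‖cw N (u s) k i‖ ^ 2 :=
      funext fun s => bn_sq _ _ _
    rw [e0]
    refine h2.congr_deriv ?_
    -- the pressure
    have e3 : ∑ i, (k i : ℂ) * conj (cw N (u t) k i) = 0 := by
      have e4 := sum_k_fr hUs (hs.divfree t htI) k
      have e5 : ∑ i, (k i : ℂ) * conj (cw N (u t) k i)
          = conj (∑ i, (k i : ℂ) * fr (fun x => u t x i) k) := by
        rw [map_sum]
        refine Finset.sum_congr rfl fun i _ => ?_
        rw [map_mul, map_intCast]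
        by_cases hi : i = 2 ∧ Dg N k
        · obtain ⟨hi, hk⟩ := hi
          subst hi
          rw [Dg_two hk]
          simp
        · have e : cw N (u t) k i = fr (fun x => u t x i) k := by
            unfold cw; rw [if_neg hi, sub_zero]
          rw [e]
      rw [e5, e4, map_zero]
    -- the perturbation
    have e6 : ∀ i, (conj (cw N (u t) k i) * fr (fun x => KB N α μ (u t) (u t) x i) k).re = 0 := by
      intro i
      by_cases hi : i = 2
      · subst hi
        rw [KB_two]
        by_cases hk : Dg N k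
        · rw [cw_dg hk, Complex.mul_re]
          simp [kb_im h hUs hUs k]
        · rw [kb_not h hUs hUs hk]
          simp
      · rw [KB_ne _ _ hi]
        have : fr (fun _ => (0 : ℝ)) k = 0 := by unfold fr fc; simp
        rw [this]
        simp
    have e7 : ∀ i, (conj (cw N (u t) k i) * fr (fun x => u t x i) k).re = ‖cw N (u t) k i‖ ^ 2 := by
      intro i
      by_cases hi : i = 2 ∧ Dg N k
      · obtain ⟨hi, hk⟩ := hi
        subst hi
        rw [cw_dg hk]
        simp [norm_mul, sq_abs]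
        ring
      · have e : cw N (u t) k i = fr (fun x => u t x i) k := by
          unfold cw; rw [if_neg hi, sub_zero]
        rw [e, Complex.sq_norm, Complex.normSq_apply, Complex.mul_re, Complex.conj_re,
          Complex.conj_im]
        ring
    have e8 : ∀ i, (conj (cw N (u t) k i) * fr (g i) k).re
        = -(ν * ((2 * Real.pi) ^ 2 * len k ^ 2)) * ‖cw N (u t) k i‖ ^ 2
          - (conj (cw N (u t) k i) * fr (conv (fun i y => u t y i) i) k).re
          - (2 * Real.pi * Complex.I * fr (q t) k * ((k i : ℂ) * conj (cw N (u t) k i))).re := by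
      intro i
      have a1 : conj (cw N (u t) k i) * fr (g i) k
          = (-(ν * ((2 * Real.pi) ^ 2 * len k ^ 2)) : ℝ)
            * (conj (cw N (u t) k i) * fr (fun x => u t x i) k)
          - conj (cw N (u t) k i) * fr (conv (fun i y => u t y i) i) k
          - 2 * Real.pi * Complex.I * fr (q t) k * ((k i : ℂ) * conj (cw N (u t) k i))
          + conj (cw N (u t) k i) * fr (fun x => KB N α μ (u t) (u t) x i) k := by
        rw [hg, fr_rhs h hUs hq]
        push_cast
        ring
      rw [a1, Complex.add_re, Complex.sub_re, Complex.sub_re, Complex.re_ofReal_mul, e6, e7, add_zero]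
    simp_rw [e8]
    rw [← Finset.mul_sum, Finset.sum_sub_distrib, Finset.sum_sub_distrib, ← Finset.mul_sum,
      ← Complex.re_sum, ← Complex.re_sum, ← Finset.mul_sum, e3, mul_zero, Complex.zero_re, ← bn_sq]
    ring

/-- the evolution of the amplitudes -/
theorem aa_deriv (h : Ga N α μ) (hs : SolK ν T (KB N α μ) u q) {t : ℝ} (ht : t ∈ Ioo 0 T)
    (n : ℕ) (e : Fin 6) :
    ∃ B : ℝ, |B| ≤ √2 * (2 * Real.pi * len ((Mn N n : ℤ) • ev e)
        * cv (un (u t)) (un (u t)) ((Mn N n : ℤ) • ev e)) ∧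
      HasDerivAt (fun s => aa N e (u s) n)
        (-(ν * (2 * Real.pi) ^ 2 * len ((Mn N n : ℤ) • ev e) ^ 2 * aa N e (u t) n)
          + √2 * (fr (kb N α μ (u t) (u t)) ((Mn N n : ℤ) • ev e)).re + B) t := by
  have htI := Ioo_subset_Ico_self ht
  have hUs : SPV (u t) := sol_spv hs htI
  have hq := sol_sp_p hs htI
  set k : K3 := (Mn N n : ℤ) • ev e with hk
  refine ⟨-(√2 * (fr (conv (fun i y => u t y i) 2) k).re), ?_, ?_⟩
  · rw [abs_neg, abs_mul, abs_of_nonneg (Real.sqrt_nonneg 2)]
    refine mul_le_mul_of_nonneg_left ?_ (Real.sqrt_nonneg 2)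
    refine (Complex.abs_re_le_norm _).trans ?_
    have := conv_le hUs (hs.divfree t htI) (fun i => if i = 2 then 1 else 0) k
    simpa [Fin.sum_univ_three] using this
  · have hd : ∀ x, HasDerivAt (fun s => u s x 2) (rhs ν (KB N α μ) (u t) (q t) 2 x) t := fun x =>
      sol_hasDerivAt hs ht 2 x
    have h1 := (re_deriv (f := fun s x => u s x 2) (smooth_c hs 2) ht hd
      (rhs_cont h hUs hq 2) k).const_mul √2
    refine h1.congr_deriv ?_
    have hk2 : k 2 = 0 := by rw [hk]; simp [ev_two' e]
    rw [fr_rhs h hUs hq, hk2, KB_two, Complex.add_re, Complex.sub_re, Complex.sub_re]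
    unfold aa
    rw [← hk]
    have e1 : ((-(ν * ((2 * Real.pi) ^ 2 * len k ^ 2)) : ℝ) : ℂ) * fr (fun x => u t x 2) k
        = ((-(ν * ((2 * Real.pi) ^ 2 * len k ^ 2)) : ℝ) : ℂ) * fr (fun x => u t x 2) k := rfl
    have e2 : (-((ν * ((2 * Real.pi) ^ 2 * len k ^ 2) : ℝ) : ℂ) * fr (fun x => u t x 2) k).re
        = -(ν * ((2 * Real.pi) ^ 2 * len k ^ 2)) * (fr (fun x => u t x 2) k).re := by
      rw [← Complex.ofReal_neg, Complex.re_ofReal_mul]
    rw [e2]
    simp only [Int.cast_zero, mul_zero, zero_mul, Complex.zero_re]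
    ring

end Pool.Agent.N977.S
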