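import Pool.Agent.N977.Q.Stage

/-!
One stage of the perturbed cascade.
-/

open Set Filter Topology

namespace Pool.Agent.N977.S

open Pool.Agent.N977.K (cmp)

/-- `V' ≥ b V` and `V(s) ≥ 0` imply `V ≥ 0` -/
theorem pos_of_lin {V V' b : ℝ → ℝ} {s t : ℝ} (hst : s ≤ t) (hV : ContinuousOn V (Icc s t))
    (hd : ∀ r ∈ Ioo s t, HasDerivAt V (V' r) r) (hb : Continuous b)
    (h : ∀ r ∈ Ioo s t, b r * V r ≤ V' r) (h0 : 0 ≤ V s) : 0 ≤ V t := by
  have hG : ∀ r, HasDerivAt (fun r => ∫ u in (0 : ℝ)..r, b u) (b r) r := fun r =>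
    (hb.integral_hasStrictDerivAt 0 r).hasDerivAt
  set G : ℝ → ℝ := fun r => ∫ u in (0 : ℝ)..r, b u with hGdef
  have hGc : Continuous G := continuous_iff_continuousAt.2 fun s => (hG s).continuousAt
  have hc := cmp (f := fun _ => 0) (f' := fun _ => 0) (g := fun r => V r * Real.exp (-G r))
    (g' := fun r => V' r * Real.exp (-G r) + V r * (Real.exp (-G r) * -b r)) hst
    continuousOn_const (hV.mul (Real.continuous_exp.comp hGc.neg).continuousOn)
    (fun r _ => hasDerivAt_const _ _)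
    (fun r hr => (hd r hr).mul (hG r).neg.exp)
    (fun r hr => by
      have h1 := h r hr
      have h2 := Real.exp_pos (-G r)
      nlinarith)
  have h1 : 0 ≤ V s * Real.exp (-G s) := mul_nonneg h0 (Real.exp_pos _).le
  by_contra hneg
  push Not at hneg
  have := mul_neg_of_neg_of_pos hneg (Real.exp_pos (-G t))
  linarith

section stage

variable {Z y y' : ℝ → ℝ} {t0 t1 a α κ s γ E σ : ℝ}

theorem stage_mono (hα : 0 ≤ α) (hZc : Continuous Z)
    (hZ : ∀ t ∈ Ioo t0 t1, HasDerivAt Z (α * y t ^ 2) t) {r r' : ℝ} (hr : t0 ≤ r) (hrs : r ≤ r')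
    (hs : r' ≤ t1) : Z r ≤ Z r' := by
  have h := cmp (f := fun _ => 0) (f' := fun _ => 0) (g := Z) (g' := fun s => α * y s ^ 2)
    hrs continuousOn_const hZc.continuousOn (fun s hs => hasDerivAt_const _ _)
    (fun u hu => hZ u ⟨hr.trans_lt hu.1, hu.2.trans_le hs⟩) (fun u _ => by positivity)
  linarith

theorem low_aux (hs : 0 < s) (hγ : 0 ≤ γ) (hE : 0 ≤ E) (hZc : Continuous Z)
    (hyc : Continuous y) (hZ0 : Z t0 = 0)
    (hZ : ∀ t ∈ Ioo t0 t1, HasDerivAt Z (α * y t ^ 2) t)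
    (hy : ∀ t ∈ Ioo t0 t1, HasDerivAt y (y' t) t)
    (hys : s ≤ y t0) (hyE : ∀ t ∈ Icc t0 t1, |y t| ≤ E)
    (hyl : ∀ t ∈ Ioo t0 t1, 0 < y t → Z t ≤ a → α * y t * (a - 2 * Z t) - γ ≤ y' t)
    (hZa : ∀ t ∈ Icc t0 t1, Z t ≤ a) (hn : 4 * E * γ * (t1 - t0) ≤ s ^ 2) {t : ℝ}
    (ht : t ∈ Icc t0 t1) (hpos : ∀ r ∈ Ico t0 t, 0 < y r) :
    s ^ 2 / 2 + 2 * Z t * (a - Z t) ≤ y t ^ 2 := by
  have h := cmp (f := fun r => -(2 * E * γ * r)) (f' := fun _ => -(2 * E * γ))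
    (g := fun s => y s ^ 2 - 2 * a * Z s + 2 * Z s ^ 2)
    (g' := fun s => 2 * y s * y' s - 2 * a * (α * y s ^ 2) + 4 * Z s * (α * y s ^ 2))
    ht.1 (by fun_prop)
    (by fun_prop) (fun s hs => by
      have := ((hasDerivAt_id s).const_mul (2 * E * γ)).neg
      exact this.congr_deriv (by simp)) ?_ ?_
  · simp only [hZ0] at h
    have h1 := pow_le_pow_left₀ hs.le hys 2
    have h2 : 2 * E * γ * (t - t0) ≤ 2 * E * γ * (t1 - t0) :=
      mul_le_mul_of_nonneg_left (by linarith [ht.2]) (by positivity)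
    nlinarith
  · intro s hs
    have hs' : s ∈ Ioo t0 t1 := ⟨hs.1, hs.2.trans_le ht.2⟩
    have h1 := (hy s hs').pow 2
    have h2 := (hZ s hs').pow 2
    have h3 := ((h1.sub ((hZ s hs').const_mul (2 * a))).add (h2.const_mul 2))
    refine h3.congr_deriv ?_
    simp only [Nat.cast_ofNat, Nat.add_one_sub_one, pow_one]
    ring
  · intro r hr
    have hs' : r ∈ Ioo t0 t1 := ⟨hr.1, hr.2.trans_le ht.2⟩
    have h2 := hpos r ⟨hr.1.le, hr.2⟩
    have h1 := hyl r hs' h2 (hZa r (Ioo_subset_Icc_self hs'))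
    have h3 := hyE r (Ioo_subset_Icc_self hs')
    rw [abs_of_pos h2] at h3
    have h4 : 2 * y r * (α * y r * (a - 2 * Z r) - γ) ≤ 2 * y r * y' r :=
      mul_le_mul_of_nonneg_left h1 (by linarith)
    have h5 : y r * γ ≤ E * γ := mul_le_mul_of_nonneg_right h3 hγ
    nlinarith

theorem stage_pos (hs : 0 < s) (ha : 0 ≤ a) (hα : 0 ≤ α) (hγ : 0 ≤ γ) (hE : 0 ≤ E)
    (hZc : Continuous Z)
    (hyc : Continuous y) (hZ0 : Z t0 = 0)
    (hZ : ∀ t ∈ Ioo t0 t1, HasDerivAt Z (α * y t ^ 2) t)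
    (hy : ∀ t ∈ Ioo t0 t1, HasDerivAt y (y' t) t)
    (hys : s ≤ y t0) (hyE : ∀ t ∈ Icc t0 t1, |y t| ≤ E)
    (hyl : ∀ t ∈ Ioo t0 t1, 0 < y t → Z t ≤ a → α * y t * (a - 2 * Z t) - γ ≤ y' t)
    (hZa : ∀ t ∈ Icc t0 t1, Z t ≤ a) (hn : 4 * E * γ * (t1 - t0) ≤ s ^ 2) {t : ℝ}
    (ht : t ∈ Icc t0 t1) : 0 < y t := by
  by_contra hneg
  push Not at hneg
  set A : Set ℝ := Icc t0 t ∩ {r | y r ≤ 0} with hA
  have hcl : IsCompact A := isCompact_Icc.inter_right (isClosed_le hyc continuous_const)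
  have hne : A.Nonempty := ⟨t, ⟨ht.1, le_rfl⟩, hneg⟩
  obtain ⟨hr1, hr2⟩ := hcl.sInf_mem hne
  set r := sInf A with hr
  have hlt : ∀ u ∈ Ico t0 r, 0 < y u := by
    intro u hu
    by_contra hcon
    push Not at hcon
    have : u ∈ A := ⟨⟨hu.1, hu.2.le.trans hr1.2⟩, hcon⟩
    have := csInf_le hcl.bddBelow this
    linarith [hu.2]
  have h0 : y r = 0 := by
    have hivt := intermediate_value_Icc' hr1.1 hyc.continuousOn
    obtain ⟨u, hu, hu0⟩ := hivt ⟨hr2, by linarith⟩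
    rcases eq_or_lt_of_le hu.2 with h | h
    · rw [← h]; exact hu0
    · have := hlt u ⟨hu.1, h⟩
      linarith
  have hrI : r ∈ Icc t0 t1 := ⟨hr1.1, hr1.2.trans ht.2⟩
  have h1 := low_aux hs hγ hE hZc hyc hZ0 hZ hy hys hyE hyl hZa hn hrI hlt
  have h2 : 0 ≤ Z r := by
    have := stage_mono hα hZc hZ le_rfl hrI.1 hrI.2
    rwa [hZ0] at this
  rw [h0] at h1
  have h3 := mul_nonneg (mul_nonneg zero_le_two h2) (sub_nonneg.2 (hZa r hrI))
  have h4 : 0 < s ^ 2 := by positivity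
  linarith

/-- while `Z ≤ a`, the energy of the amplified mode is at least `s ^ 2 / 2 + 2 Z (a - Z)` -/
theorem stage_lower (hs : 0 < s) (ha : 0 ≤ a) (hα : 0 ≤ α) (hγ : 0 ≤ γ) (hE : 0 ≤ E)
    (hZc : Continuous Z)
    (hyc : Continuous y) (hZ0 : Z t0 = 0)
    (hZ : ∀ t ∈ Ioo t0 t1, HasDerivAt Z (α * y t ^ 2) t)
    (hy : ∀ t ∈ Ioo t0 t1, HasDerivAt y (y' t) t)
    (hys : s ≤ y t0) (hyE : ∀ t ∈ Icc t0 t1, |y t| ≤ E)
    (hyl : ∀ t ∈ Ioo t0 t1, 0 < y t → Z t ≤ a → α * y t * (a - 2 * Z t) - γ ≤ y' t)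
    (hZa : ∀ t ∈ Icc t0 t1, Z t ≤ a) (hn : 4 * E * γ * (t1 - t0) ≤ s ^ 2) {t : ℝ}
    (ht : t ∈ Icc t0 t1) : s ^ 2 / 2 + 2 * Z t * (a - Z t) ≤ y t ^ 2 :=
  low_aux hs hγ hE hZc hyc hZ0 hZ hy hys hyE hyl hZa hn ht fun _ hr =>
    stage_pos hs ha hα hγ hE hZc hyc hZ0 hZ hy hys hyE hyl hZa hn ⟨hr.1, hr.2.le.trans ht.2⟩

/-- at the end of the stage, (almost) all the energy has been transferred -/
theorem stage_end (ha : 1 / 2 ≤ a) (ha1 : a ≤ 1) (hα : 0 < α) (hs : 0 < σ)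
    (hκ : 0 < κ) (hκ1 : κ ≤ 1 / 2) (hσ1 : σ ≤ 1) (hZc : Continuous Z) (hyc : Continuous y)
    (hZ0 : Z t0 = 0) (hZ : ∀ t ∈ Ioo t0 t1, HasDerivAt Z (α * y t ^ 2) t)
    (hlow : ∀ t ∈ Icc t0 t1, Z t ≤ a → σ + 2 * Z t * (a - Z t) ≤ y t ^ 2)
    (hτ : 1 + Real.log (1 / κ) + Real.log (1 / σ) ≤ α * (t1 - t0))
    (hlt : Z t1 < a * (1 - κ)) : False := by
  have hmono : ∀ r r', t0 ≤ r → r ≤ r' → r' ≤ t1 → Z r ≤ Z r' := fun r s hr hrs hs =>
    stage_mono hα.le hZc hZ hr hrs hs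
  have hZb : ∀ t ∈ Icc t0 t1, Z t < a * (1 - κ) := fun t ht =>
    (hmono t t1 ht.1 ht.2 le_rfl).trans_lt hlt
  have haκ : a * (1 - κ) ≤ a := by nlinarith
  have hZa : ∀ t ∈ Icc t0 t1, Z t ≤ a := fun t ht => ((hZb t ht).trans_le haκ).le
  have hZ0' : ∀ t ∈ Icc t0 t1, 0 ≤ Z t := fun t ht => by
    have := hmono t0 t le_rfl ht.1 ht.2
    rwa [hZ0] at this
  have hlog1 : 0 ≤ Real.log (1 / κ) := Real.log_nonneg (by
    rw [le_div_iff₀ hκ]; linarith)
  have hlog2 : 0 ≤ Real.log (1 / σ) := Real.log_nonneg (by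
    rw [le_div_iff₀ hs]; linarith)
  set t2 := t0 + 1 / α with ht2
  have h2α : 0 < 1 / α := by positivity
  have ht21 : t2 ≤ t1 := by
    have h1 : 1 ≤ α * (t1 - t0) := by linarith
    have h2 : 1 / α ≤ t1 - t0 := by rw [div_le_iff₀ hα]; linarith
    linarith
  have ht02 : t0 ≤ t2 := by linarith
  have hseed : σ ≤ Z t2 := by
    have hZZ := cmp (f := fun r => α * σ * r)
      (f' := fun r => α * σ) (g := Z) (g' := fun s => α * y s ^ 2)
      ht02 (by fun_prop) hZc.continuousOn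
      (fun r _ => by simpa using (hasDerivAt_id r).const_mul (α * σ))
      (fun s hs => hZ s ⟨hs.1, hs.2.trans_le ht21⟩)
      (fun r hr => by
        have hr' : r ∈ Icc t0 t1 := ⟨hr.1.le, hr.2.le.trans ht21⟩
        have h1 := hlow r hr' (hZa r hr')
        have h2 : 0 ≤ 2 * Z r * (a - Z r) :=
          mul_nonneg (by linarith [hZ0' r hr']) (by linarith [hZa r hr'])
        exact mul_le_mul_of_nonneg_left (by linarith) hα.le)
    have e : α * σ * t2 - α * σ * t0 = σ := by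
      rw [ht2]
      field_simp
      ring
    rw [e, hZ0] at hZZ
    linarith
  have hZpos : ∀ t ∈ Icc t2 t1, 0 < Z t := fun t ht =>
    hs.trans_le (hseed.trans (hmono t2 t ht02 ht.1 ht.2))
  have haZ : ∀ t ∈ Icc t2 t1, 0 < a - Z t := fun t ht => by
    have := hZb t ⟨ht02.trans ht.1, ht.2⟩
    linarith
  have hV := cmp (f := fun s => α * s) (f' := fun _ => α)
    (g := fun s => Real.log (Z s) - Real.log (a - Z s))
    (g' := fun s => α * y s ^ 2 / Z s - (-(α * y s ^ 2)) / (a - Z s)) ht21 (by fun_prop)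
    (by
      apply ContinuousOn.sub
      · exact hZc.continuousOn.log fun t ht => (hZpos t ht).ne'
      · exact (continuousOn_const.sub hZc.continuousOn).log fun t ht => (haZ t ht).ne')
    (fun s _ => by simpa using (hasDerivAt_id s).const_mul α)
    (fun s hs => by
      have hs' : s ∈ Ioo t0 t1 := ⟨ht02.trans_lt hs.1, hs.2⟩
      have h1 := (hZ s hs').log (hZpos s (Ioo_subset_Icc_self hs)).ne'
      have h2 := ((hZ s hs').const_sub a).log (haZ s (Ioo_subset_Icc_self hs)).ne'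
      exact h1.sub h2)
    (fun r hr => by
      have hr' : r ∈ Icc t0 t1 := ⟨ht02.trans hr.1.le, hr.2.le⟩
      have h1 := hZpos r (Ioo_subset_Icc_self hr)
      have h2 := haZ r (Ioo_subset_Icc_self hr)
      have h3 := hlow r hr' (hZa r hr')
      have e : α * y r ^ 2 / Z r - (-(α * y r ^ 2)) / (a - Z r)
          = a * (α * y r ^ 2) / (Z r * (a - Z r)) := by
        field_simp
        ring
      rw [e, le_div_iff₀ (mul_pos h1 h2)]
      have h4 : α * (2 * Z r * (a - Z r)) ≤ α * y r ^ 2 :=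
        mul_le_mul_of_nonneg_left (by linarith) hα.le
      have h5 : 0 ≤ Z r * (a - Z r) := (mul_pos h1 h2).le
      have h6 : a * (α * (2 * Z r * (a - Z r))) ≤ a * (α * y r ^ 2) :=
        mul_le_mul_of_nonneg_left h4 (by linarith)
      have h7 : α * (Z r * (a - Z r)) ≤ a * (α * (2 * Z r * (a - Z r))) := by
        have : a * (α * (2 * Z r * (a - Z r))) = (2 * a) * (α * (Z r * (a - Z r))) := by ring
        rw [this]
        have h8 : 0 ≤ α * (Z r * (a - Z r)) := mul_nonneg hα.le h5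
        nlinarith
      linarith)
  have hm1 : t1 ∈ Icc t2 t1 := ⟨ht21, le_rfl⟩
  have hm2 : t2 ∈ Icc t2 t1 := ⟨le_rfl, ht21⟩
  have hend : Real.log (Z t1) - Real.log (a - Z t1) < Real.log (1 / κ) := by
    have h1 : Real.log (Z t1) < Real.log a :=
      Real.log_lt_log (hZpos t1 hm1) (hlt.trans_le haκ)
    have h2 : Real.log (a * κ) < Real.log (a - Z t1) :=
      Real.log_lt_log (by positivity) (by linarith)
    rw [Real.log_mul (by positivity) hκ.ne'] at h2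
    rw [Real.log_div one_ne_zero hκ.ne', Real.log_one]
    linarith
  have hstart : -Real.log (1 / σ) ≤ Real.log (Z t2) - Real.log (a - Z t2) := by
    have h1 : Real.log σ ≤ Real.log (Z t2) := Real.log_le_log hs hseed
    have h2 : Real.log (a - Z t2) ≤ 0 :=
      Real.log_nonpos (haZ t2 hm2).le (by linarith [hZpos t2 hm2])
    have h3 : Real.log σ = -Real.log (1 / σ) := by
      rw [one_div, Real.log_inv]
      ring
    linarith
  have e : α * t1 - α * t2 = α * (t1 - t0) - 1 := by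
    rw [ht2]; field_simp; ring
  linarith

/-- the total action during the stage -/
theorem stage_int (ha : 1 / 2 ≤ a) (hα : 0 < α)
    (hκ : 0 < κ) (hσ : 0 ≤ σ) (h01 : t0 ≤ t1) (hZc : Continuous Z) (hyc : Continuous y)
    (hZ0 : Z t0 = 0) (hZ : ∀ t ∈ Ioo t0 t1, HasDerivAt Z (α * y t ^ 2) t)
    (hlow : ∀ t ∈ Icc t0 t1, Z t ≤ a → σ + 2 * Z t * (a - Z t) ≤ y t ^ 2)
    (hend : Z t1 ≤ a * (1 - κ)) {J : ℝ → ℝ} (hJc : Continuous J)
    (hJ : ∀ t ∈ Ioo t0 t1, HasDerivAt J (Z t) t) :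
    α * (J t1 - J t0) ≤ Real.log (1 / κ) / 2 := by
  have hmono : ∀ r s, t0 ≤ r → r ≤ s → s ≤ t1 → Z r ≤ Z s := fun r s hr hrs hs =>
    stage_mono hα.le hZc hZ hr hrs hs
  have haκ : a * (1 - κ) ≤ a := by nlinarith
  have hZb : ∀ t ∈ Icc t0 t1, Z t ≤ a * (1 - κ) := fun t ht =>
    (hmono t t1 ht.1 ht.2 le_rfl).trans hend
  have hZa : ∀ t ∈ Icc t0 t1, Z t ≤ a := fun t ht => (hZb t ht).trans haκ
  have hpos : ∀ t ∈ Icc t0 t1, 0 < a - Z t := fun t ht => by
    have h1 := hZb t ht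
    have h2 : 0 < a * κ := by positivity
    nlinarith
  have h := cmp (f := fun s => α * J s) (f' := fun s => α * Z s)
    (g := fun s => -(1 / 2 * Real.log (a - Z s)))
    (g' := fun s => -(1 / 2 * (-(α * y s ^ 2) / (a - Z s)))) h01
    (by fun_prop)
    (by
      apply ContinuousOn.neg
      apply ContinuousOn.mul continuousOn_const
      exact (continuousOn_const.sub hZc.continuousOn).log fun t ht => (hpos t ht).ne')
    (fun s hs => (hJ s hs).const_mul α)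
    (fun s hs => ((((hZ s hs).const_sub a).log
      (hpos s (Ioo_subset_Icc_self hs)).ne').const_mul (1 / 2)).neg)
    (fun r hr => by
      have hr' := Ioo_subset_Icc_self hr
      have h1 := hlow r hr' (hZa r hr')
      have h2 := hpos r hr'
      have e : -(1 / 2 * (-(α * y r ^ 2) / (a - Z r))) = (α * y r ^ 2) / (2 * (a - Z r)) := by
        field_simp
      rw [e, le_div_iff₀ (by positivity)]
      have h3 : α * (2 * Z r * (a - Z r)) ≤ α * y r ^ 2 :=
        mul_le_mul_of_nonneg_left (by linarith) hα.le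
      linarith)
  have e1 : Real.log (a * κ) ≤ Real.log (a - Z t1) :=
    Real.log_le_log (by positivity) (by linarith [hZb t1 ⟨h01, le_rfl⟩])
  rw [Real.log_mul (by positivity) hκ.ne'] at e1
  rw [hZ0, sub_zero] at h
  rw [Real.log_div one_ne_zero hκ.ne', Real.log_one]
  linarith

end stage

end Pool.Agent.N977.S
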