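import Pool.Agent.N977.Q.Step
import Pool.Agent.N977.S.Stage

/-!
The cascade with perturbations.
-/

open Set Filter Topology

namespace Pool.Agent.N977.S

open Pool.Agent.N977.K (cmp)
open Pool.Agent.N977.Q (gf ff Ig sg En Sgn gf_nonneg gf_cont ff_eq ff_nonneg Ig_zero sg_zero
  En_nonneg)

/-- The cascade system with perturbations `f`, `g` on `(0, T)`. -/
structure Cs (T : ℝ) (d D α μ : ℕ → ℝ) (x y f g : ℕ → ℝ → ℝ) : Prop where
  xc : ∀ n, Continuous (x n)
  yc : ∀ n, Continuous (y n)
  xd : ∀ n, ∀ t ∈ Ioo 0 T, HasDerivAt (x n)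
    (-(d n * x n t) + gf α y n t - α n * y n t ^ 2 + f n t) t
  yd : ∀ n, ∀ t ∈ Ioo 0 T, HasDerivAt (y n)
    (-(D n * y n t) + α n * y n t * (x n t - x (n + 1) t) + gf μ y n t
      - μ n * y n t * y (n + 1) t + g n t) t
  dec : ∀ ε : ℝ, 0 < ε → ∃ J : ℕ, ∀ n ≥ J, ∀ t ∈ Icc 0 T,
    α n * y n t ^ 2 * |x (n + 1) t| + μ n * y n t ^ 2 * |y (n + 1) t| ≤ ε

variable {T : ℝ} {d D α μ c : ℕ → ℝ} {x y f g : ℕ → ℝ → ℝ}

section inflow

theorem ffc (hy : ∀ n, Continuous (y n)) (m : ℕ) : Continuous (ff α μ y m) := gf_cont hy _ m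

theorem Igd (hy : ∀ n, Continuous (y n)) (m : ℕ) (t : ℝ) :
    HasDerivAt (Ig d α μ y m) (Real.exp (d m * t) * ff α μ y m t) t := by
  have hc : Continuous fun s => Real.exp (d m * s) * ff α μ y m s :=
    (Real.continuous_exp.comp (by fun_prop)).mul (ffc hy m)
  exact (hc.integral_hasStrictDerivAt 0 t).hasDerivAt

theorem Igc (hy : ∀ n, Continuous (y n)) (m : ℕ) : Continuous (Ig d α μ y m) :=
  continuous_iff_continuousAt.2 fun t => (Igd hy m t).continuousAt

theorem sgc (hy : ∀ n, Continuous (y n)) (m : ℕ) : Continuous (sg d α μ y m) :=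
  (Real.continuous_exp.comp (by fun_prop)).mul (Igc hy m)

theorem sgd (hy : ∀ n, Continuous (y n)) (m : ℕ) (t : ℝ) :
    HasDerivAt (sg d α μ y m) (-(d m * sg d α μ y m t) + ff α μ y m t) t := by
  have h1 : HasDerivAt (fun s => Real.exp (-(d m * s))) (Real.exp (-(d m * t)) * -(d m)) t := by
    have := ((hasDerivAt_id t).const_mul (d m)).neg.exp
    refine this.congr_deriv ?_
    simp
  refine (h1.mul (Igd hy m t)).congr_deriv ?_
  unfold sg
  have e : Real.exp (-(d m * t)) * Real.exp (d m * t) = 1 := by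
    rw [← Real.exp_add]; simp
  rw [← mul_assoc (Real.exp (-(d m * t))) (Real.exp (d m * t)), e]
  ring

theorem Ig_nonneg (hy : ∀ n, Continuous (y n)) (S : Sgn d D α μ) (m : ℕ) {t : ℝ} (ht : 0 ≤ t) :
    0 ≤ Ig d α μ y m t := by
  have := cmp (f := fun _ => 0) (f' := fun _ => 0) (g := Ig d α μ y m)
    (g' := fun t => Real.exp (d m * t) * ff α μ y m t) ht
    continuousOn_const (Igc hy m).continuousOn (fun s hs => hasDerivAt_const _ _)
    (fun u hu => Igd hy m u) (fun u _ => mul_nonneg (Real.exp_pos _).le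
      (gf_nonneg (fun n => (add_pos (S.α0 n) (S.μ0 n)).le) m u))
  rw [Ig_zero] at this
  linarith

theorem sg_nonneg (hy : ∀ n, Continuous (y n)) (S : Sgn d D α μ) (m : ℕ) {t : ℝ} (ht : 0 ≤ t) :
    0 ≤ sg d α μ y m t := mul_nonneg (Real.exp_pos _).le (Ig_nonneg hy S m ht)

/-- bound for the damped inflow, if the flux is bounded -/
theorem sg_le (hy : ∀ n, Continuous (y n)) (m : ℕ) {F w t0 : ℝ}
    (hw0 : 0 ≤ w) (hw : 1 ≤ d m * w) (hF0 : 0 ≤ F)
    (hF : ∀ t ∈ Icc 0 t0, ff α μ y m t ≤ F) {t : ℝ} (ht : t ∈ Icc 0 t0) :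
    sg d α μ y m t ≤ F * w := by
  have hexp : ∀ t, HasDerivAt (fun s => Real.exp (d m * s)) (Real.exp (d m * t) * d m) t := by
    intro t
    have := ((hasDerivAt_id t).const_mul (d m)).exp
    refine this.congr_deriv ?_
    simp
  have key : Ig d α μ y m t ≤ F * w * Real.exp (d m * t) := by
    have hcmp := cmp (f := Ig d α μ y m) (f' := fun t => Real.exp (d m * t) * ff α μ y m t)
      (g := fun s => F * w * Real.exp (d m * s))
      (g' := fun s => F * w * (Real.exp (d m * s) * d m)) ht.1
      (Igc hy m).continuousOn ((continuous_const.mul (Real.continuous_exp.comp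
        (by fun_prop))).continuousOn) (fun s _ => Igd hy m s)
      (fun s _ => (hexp s).const_mul (F * w))
      (fun s hs => by
        have h1 := hF s ⟨hs.1.le, hs.2.le.trans ht.2⟩
        have h2 := Real.exp_pos (d m * s)
        have h3 : F ≤ F * (d m * w) := le_mul_of_one_le_right hF0 hw
        nlinarith [mul_le_mul_of_nonneg_left (h1.trans h3) h2.le])
    have : 0 ≤ F * w := mul_nonneg hF0 hw0
    simp only [Ig_zero, mul_zero, Real.exp_zero, mul_one, sub_zero] at hcmp
    linarith
  unfold sg
  have e1 := mul_le_mul_of_nonneg_left key (Real.exp_pos (-(d m * t))).le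
  have e2 : Real.exp (-(d m * t)) * (F * w * Real.exp (d m * t)) = F * w := by
    have : Real.exp (-(d m * t)) * Real.exp (d m * t) = 1 := by rw [← Real.exp_add]; simp
    linear_combination (F * w) * this
  linarith

end inflow

theorem Cs.En_deriv (h : Cs T d D α μ x y f g) (m J : ℕ) {t : ℝ} (ht : t ∈ Ioo 0 T) :
    HasDerivAt (En x y m J)
      (-(2 * ∑ i ∈ Finset.range (J + 1), (d (m + i) * x (m + i) t ^ 2 + D (m + i) * y (m + i) t ^ 2))
        + 2 * ((x m t * gf α y m t + y m t * gf μ y m t)
          - (x (m + J + 1) t * gf α y (m + J + 1) t + y (m + J + 1) t * gf μ y (m + J + 1) t))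
        + 2 * ∑ i ∈ Finset.range (J + 1), (x (m + i) t * f (m + i) t + y (m + i) t * g (m + i) t)) t := by
  have h1 : HasDerivAt (En x y m J) (∑ i ∈ Finset.range (J + 1),
      (2 * x (m + i) t * (-(d (m + i) * x (m + i) t) + gf α y (m + i) t
        - α (m + i) * y (m + i) t ^ 2 + f (m + i) t)
      + 2 * y (m + i) t * (-(D (m + i) * y (m + i) t) + α (m + i) * y (m + i) t *
        (x (m + i) t - x (m + i + 1) t) + gf μ y (m + i) t
          - μ (m + i) * y (m + i) t * y (m + i + 1) t + g (m + i) t))) t := by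
    unfold En
    apply HasDerivAt.fun_sum
    intro i _
    have a1 := (h.xd (m + i) t ht).pow 2
    have a2 := (h.yd (m + i) t ht).pow 2
    refine (a1.add a2).congr_deriv ?_
    simp only [Nat.cast_ofNat, Nat.add_one_sub_one, pow_one]
  refine h1.congr_deriv ?_
  have h2 : ∀ i, (2 * x (m + i) t * (-(d (m + i) * x (m + i) t) + gf α y (m + i) t
        - α (m + i) * y (m + i) t ^ 2 + f (m + i) t)
      + 2 * y (m + i) t * (-(D (m + i) * y (m + i) t) + α (m + i) * y (m + i) t *
        (x (m + i) t - x (m + i + 1) t) + gf μ y (m + i) t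
          - μ (m + i) * y (m + i) t * y (m + i + 1) t + g (m + i) t))
      = -(2 * (d (m + i) * x (m + i) t ^ 2 + D (m + i) * y (m + i) t ^ 2))
        + 2 * ((x (m + i) t * gf α y (m + i) t + y (m + i) t * gf μ y (m + i) t)
          - (x (m + (i + 1)) t * gf α y (m + (i + 1)) t
            + y (m + (i + 1)) t * gf μ y (m + (i + 1)) t))
        + 2 * (x (m + i) t * f (m + i) t + y (m + i) t * g (m + i) t) := by
    intro i
    rw [← add_assoc]
    simp only [gf]
    ring
  rw [Finset.sum_congr rfl fun i _ => h2 i, Finset.sum_add_distrib, Finset.sum_add_distrib,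
    ← Finset.mul_sum, Finset.sum_neg_distrib, ← Finset.mul_sum,
    Finset.sum_range_sub' (fun i => x (m + i) t * gf α y (m + i) t + y (m + i) t * gf μ y (m + i) t),
    ← Finset.mul_sum]
  simp only [add_zero, ← add_assoc]

/-- the energy of the high levels is controlled by the damped inflow and the perturbations -/
theorem Cs.tail (h : Cs T d D α μ x y f g) (S : Sgn d D α μ) {m j : ℕ} (hmj : m ≤ j)
    {e Φ tt : ℝ} (he : 0 ≤ e) (hΦ : 0 ≤ Φ) (hd : 0 < d m) (htT : tt ≤ T)
    (h0 : ∀ J, En x y m J 0 ≤ e ^ 2)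
    (hn : ∀ J, ∀ r ∈ Ioo 0 tt, ∑ i ∈ Finset.range (J + 1), (|f (m + i) r| + |g (m + i) r|) ≤ Φ)
    {t : ℝ} (ht : t ∈ Icc 0 tt) :
    |x j t| ≤ e + sg d α μ y m t + Φ / d m ∧ |y j t| ≤ e + sg d α μ y m t + Φ / d m := by
  have hT : 0 ≤ T := ht.1.trans (ht.2.trans htT)
  have hdm := hd.le
  have key : ∀ ε : ℝ, 0 < ε → Real.exp (d m * t) * √(x j t ^ 2 + y j t ^ 2)
      ≤ e + Ig d α μ y m t + Φ / d m * Real.exp (d m * t) + ε * (1 + T) := by
    intro ε hε
    obtain ⟨J0, hJ0⟩ := h.dec (ε ^ 2 * Real.exp (-(2 * (d m * T)))) (by positivity)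
    set J := max J0 j with hJ
    have hb : ∀ s ∈ Icc 0 T, gf α y (m + J + 1) s * |x (m + J + 1) s|
        + gf μ y (m + J + 1) s * |y (m + J + 1) s| ≤ ε ^ 2 * Real.exp (-(2 * (d m * T))) :=
      fun s hs => hJ0 (m + J) (by omega) s hs
    have hEnn : ∀ s, 0 ≤ En x y m J s := fun s => En_nonneg m J s
    set F : ℝ → ℝ := fun s => Real.exp (2 * (d m * s)) * En x y m J s with hF
    have hFnn : ∀ s, 0 ≤ F s := fun s => mul_nonneg (Real.exp_pos _).le (hEnn s)
    have hpos : ∀ s, 0 < F s + ε ^ 2 := fun s => by have := hFnn s; positivity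
    have hEF : ∀ s, √(En x y m J s) * Real.exp (d m * s) ≤ √(F s + ε ^ 2) := by
      intro s
      apply Real.le_sqrt_of_sq_le
      rw [mul_pow, Real.sq_sqrt (hEnn s), ← Real.exp_nat_mul]
      simp only [hF]
      push_cast
      nlinarith [sq_nonneg ε]
    have hxy : ∀ s, √(x m s ^ 2 + y m s ^ 2) * Real.exp (d m * s) ≤ √(F s + ε ^ 2) := by
      intro s
      refine le_trans (mul_le_mul_of_nonneg_right (Real.sqrt_le_sqrt ?_) (Real.exp_pos _).le) (hEF s)
      have := Finset.single_le_sum (s := Finset.range (J + 1))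
        (f := fun i => x (m + i) s ^ 2 + y (m + i) s ^ 2) (fun i _ => by positivity)
        (Finset.mem_range.2 (Nat.succ_pos J))
      simpa [En] using this
    have hEc : Continuous (En x y m J) := by
      unfold En
      exact continuous_finsetSum _ fun i _ => ((h.xc _).pow 2).add ((h.yc _).pow 2)
    have hFc : Continuous F := (Real.continuous_exp.comp (by fun_prop)).mul hEc
    have hcmp := cmp (f := fun s => √(F s + ε ^ 2))
      (f' := fun s => (Real.exp (2 * (d m * s)) * (2 * d m) * En x y m J s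
        + Real.exp (2 * (d m * s)) * (-(2 * ∑ i ∈ Finset.range (J + 1),
          (d (m + i) * x (m + i) s ^ 2 + D (m + i) * y (m + i) s ^ 2))
        + 2 * ((x m s * gf α y m s + y m s * gf μ y m s)
          - (x (m + J + 1) s * gf α y (m + J + 1) s
            + y (m + J + 1) s * gf μ y (m + J + 1) s))
        + 2 * ∑ i ∈ Finset.range (J + 1), (x (m + i) s * f (m + i) s + y (m + i) s * g (m + i) s)))
          / (2 * √(F s + ε ^ 2)))
      (g := fun s => Ig d α μ y m s + Φ / d m * Real.exp (d m * s) + ε * s)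
      (g' := fun s => Real.exp (d m * s) * ff α μ y m s + Φ / d m * (Real.exp (d m * s) * d m) + ε) ht.1
      ((hFc.add continuous_const).sqrt.continuousOn)
      ((((Igc h.yc m).add (continuous_const.mul (Real.continuous_exp.comp (by fun_prop)))).add
        (by fun_prop)).continuousOn)
      (fun s hs => by
        have h1 : HasDerivAt (fun s => Real.exp (2 * (d m * s)))
            (Real.exp (2 * (d m * s)) * (2 * d m)) s := by
          have := (((hasDerivAt_id s).const_mul (d m)).const_mul 2).exp
          refine this.congr_deriv ?_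
          simp
        exact (((h1.mul (h.En_deriv m J ⟨hs.1, hs.2.trans_le (ht.2.trans htT)⟩)).add_const
          (ε ^ 2)).sqrt (hpos s).ne'))
      (fun s hs => by
        have h1 : HasDerivAt (fun s => Real.exp (d m * s)) (Real.exp (d m * s) * d m) s := by
          have := ((hasDerivAt_id s).const_mul (d m)).exp
          refine this.congr_deriv ?_
          simp
        have := ((Igd (d := d) (α := α) (μ := μ) h.yc m s).add (h1.const_mul (Φ / d m))).add
          ((hasDerivAt_id s).const_mul ε)
        exact this.congr_deriv (by simp))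
      (fun s hs => by
        have hsT : s ∈ Icc 0 T := ⟨hs.1.le, hs.2.le.trans (ht.2.trans htT)⟩
        have hstt : s ∈ Ioo 0 tt := ⟨hs.1, hs.2.trans_le ht.2⟩
        have hr : 0 < √(F s + ε ^ 2) := Real.sqrt_pos.2 (hpos s)
        rw [div_le_iff₀ (by positivity)]
        have h1 := hxy s
        have h2 := ff_nonneg (y := y) S m s
        have h3 := hb s hsT
        have hE1 : (0 : ℝ) < Real.exp (d m * s) := Real.exp_pos _
        have hE2 : (0 : ℝ) < Real.exp (2 * (d m * s)) := Real.exp_pos _
        have e2 : Real.exp (2 * (d m * s)) = Real.exp (d m * s) * Real.exp (d m * s) := by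
          rw [← Real.exp_add]; congr 1; ring
        have h4 : d m * En x y m J s ≤ ∑ i ∈ Finset.range (J + 1),
            (d (m + i) * x (m + i) s ^ 2 + D (m + i) * y (m + i) s ^ 2) := by
          unfold En
          rw [Finset.mul_sum]
          refine Finset.sum_le_sum fun i _ => ?_
          have e1 : d m ≤ d (m + i) := S.dmono (by omega)
          have e2 : d m ≤ D (m + i) := e1.trans (S.dD _)
          nlinarith [mul_le_mul_of_nonneg_right e1 (sq_nonneg (x (m + i) s)),
            mul_le_mul_of_nonneg_right e2 (sq_nonneg (y (m + i) s))]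
        -- the inflow
        have hga := gf_nonneg (c := α) (y := y) (fun n => (S.α0 n).le) m s
        have hgm := gf_nonneg (c := μ) (y := y) (fun n => (S.μ0 n).le) m s
        have hx1 : x m s ≤ √(x m s ^ 2 + y m s ^ 2) := by
          refine (le_abs_self _).trans ?_
          rw [← Real.sqrt_sq_eq_abs]
          exact Real.sqrt_le_sqrt (by linarith [sq_nonneg (y m s)])
        have hy1 : y m s ≤ √(x m s ^ 2 + y m s ^ 2) := by
          refine (le_abs_self _).trans ?_
          rw [← Real.sqrt_sq_eq_abs]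
          exact Real.sqrt_le_sqrt (by linarith [sq_nonneg (x m s)])
        have h5 : x m s * gf α y m s + y m s * gf μ y m s
            ≤ √(x m s ^ 2 + y m s ^ 2) * ff α μ y m s := by
          rw [ff_eq]
          nlinarith [mul_le_mul_of_nonneg_right hx1 hga, mul_le_mul_of_nonneg_right hy1 hgm]
        have h5' : Real.exp (2 * (d m * s)) * (x m s * gf α y m s + y m s * gf μ y m s)
            ≤ √(F s + ε ^ 2) * (Real.exp (d m * s) * ff α μ y m s) := by
          have e1 := mul_le_mul_of_nonneg_left h5 hE2.le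
          have e3 := mul_le_mul_of_nonneg_right h1 (mul_nonneg hE1.le h2)
          calc _ ≤ _ := e1
            _ = √(x m s ^ 2 + y m s ^ 2) * Real.exp (d m * s) *
                (Real.exp (d m * s) * ff α μ y m s) := by rw [e2]; ring
            _ ≤ _ := e3
        have h6 : -(x (m + J + 1) s * gf α y (m + J + 1) s + y (m + J + 1) s * gf μ y (m + J + 1) s)
            ≤ ε ^ 2 * Real.exp (-(2 * (d m * T))) := by
          refine le_trans ?_ h3
          have e1 := gf_nonneg (c := α) (y := y) (fun n => (S.α0 n).le) (m + J + 1) s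
          have e2 := gf_nonneg (c := μ) (y := y) (fun n => (S.μ0 n).le) (m + J + 1) s
          nlinarith [mul_le_mul_of_nonneg_left (neg_abs_le (x (m + J + 1) s)) e1,
            mul_le_mul_of_nonneg_left (neg_abs_le (y (m + J + 1) s)) e2]
        have h6' : Real.exp (2 * (d m * s)) * (-(x (m + J + 1) s * gf α y (m + J + 1) s
            + y (m + J + 1) s * gf μ y (m + J + 1) s)) ≤ ε ^ 2 := by
          have e1 := mul_le_mul_of_nonneg_left h6 hE2.le
          have e2 : Real.exp (2 * (d m * s)) * (ε ^ 2 * Real.exp (-(2 * (d m * T))))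
              = ε ^ 2 * Real.exp (2 * (d m * s) - 2 * (d m * T)) := by
            rw [sub_eq_add_neg, Real.exp_add]; ring
          have e3 : Real.exp (2 * (d m * s) - 2 * (d m * T)) ≤ 1 := by
            rw [Real.exp_le_one_iff]
            have := mul_le_mul_of_nonneg_left hsT.2 hdm
            linarith
          rw [e2] at e1
          have := mul_le_mul_of_nonneg_left e3 (sq_nonneg ε)
          linarith
        have h7 : ε ≤ √(F s + ε ^ 2) := by
          apply Real.le_sqrt_of_sq_le
          linarith [hFnn s]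
        have h8 := mul_le_mul_of_nonneg_left h4 hE2.le
        -- the perturbations
        have h9 : ∑ i ∈ Finset.range (J + 1), (x (m + i) s * f (m + i) s + y (m + i) s * g (m + i) s)
            ≤ √(En x y m J s) * Φ := by
          have a1 : ∀ i ∈ Finset.range (J + 1),
              x (m + i) s * f (m + i) s + y (m + i) s * g (m + i) s
              ≤ √(En x y m J s) * (|f (m + i) s| + |g (m + i) s|) := by
            intro i hi
            have b1 : x (m + i) s ^ 2 + y (m + i) s ^ 2 ≤ En x y m J s :=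
              Finset.single_le_sum (s := Finset.range (J + 1))
                (f := fun i => x (m + i) s ^ 2 + y (m + i) s ^ 2) (fun i _ => by positivity) hi
            have b2 : |x (m + i) s| ≤ √(En x y m J s) := by
              rw [← Real.sqrt_sq_eq_abs]
              exact Real.sqrt_le_sqrt (by linarith [sq_nonneg (y (m + i) s)])
            have b3 : |y (m + i) s| ≤ √(En x y m J s) := by
              rw [← Real.sqrt_sq_eq_abs]
              exact Real.sqrt_le_sqrt (by linarith [sq_nonneg (x (m + i) s)])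
            have c1 : x (m + i) s * f (m + i) s ≤ √(En x y m J s) * |f (m + i) s| :=
              (le_abs_self _).trans (by
                rw [abs_mul]; exact mul_le_mul_of_nonneg_right b2 (abs_nonneg _))
            have c2 : y (m + i) s * g (m + i) s ≤ √(En x y m J s) * |g (m + i) s| :=
              (le_abs_self _).trans (by
                rw [abs_mul]; exact mul_le_mul_of_nonneg_right b3 (abs_nonneg _))
            rw [mul_add]
            linarith
          refine (Finset.sum_le_sum a1).trans ?_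
          rw [← Finset.mul_sum]
          exact mul_le_mul_of_nonneg_left (hn J s hstt) (Real.sqrt_nonneg _)
        have h9' : Real.exp (2 * (d m * s)) * ∑ i ∈ Finset.range (J + 1),
            (x (m + i) s * f (m + i) s + y (m + i) s * g (m + i) s)
            ≤ √(F s + ε ^ 2) * (Real.exp (d m * s) * Φ) := by
          have e1 := mul_le_mul_of_nonneg_left h9 hE2.le
          have e3 := mul_le_mul_of_nonneg_right (hEF s) (mul_nonneg hE1.le hΦ)
          calc _ ≤ _ := e1
            _ = √(En x y m J s) * Real.exp (d m * s) * (Real.exp (d m * s) * Φ) := by rw [e2]; ring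
            _ ≤ _ := e3
        have h10 : Φ / d m * (Real.exp (d m * s) * d m) = Real.exp (d m * s) * Φ := by
          field_simp
        rw [h10]
        nlinarith)
    have hF0 : √(F 0 + ε ^ 2) ≤ e + ε := by
      simp only [hF]
      apply Real.sqrt_le_iff.2
      have := h0 J
      simp only [mul_zero, Real.exp_zero, one_mul]
      exact ⟨by positivity, by nlinarith⟩
    have hj : Real.exp (d m * t) * √(x j t ^ 2 + y j t ^ 2) ≤ √(F t + ε ^ 2) := by
      rw [mul_comm]
      refine le_trans (mul_le_mul_of_nonneg_right (Real.sqrt_le_sqrt ?_) (Real.exp_pos _).le) (hEF t)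
      have := Finset.single_le_sum (s := Finset.range (J + 1))
        (f := fun i => x (m + i) t ^ 2 + y (m + i) t ^ 2) (fun i _ => by positivity)
        (a := j - m) (Finset.mem_range.2 (by omega))
      simpa [En, Nat.add_sub_cancel' hmj] using this
    simp only [Ig_zero, mul_zero, Real.exp_zero, mul_one, add_zero, zero_add] at hcmp
    have h11 : 0 ≤ Φ / d m := by positivity
    have : ε * t ≤ ε * T := mul_le_mul_of_nonneg_left (ht.2.trans htT) hε.le
    linarith
  have key2 : Real.exp (d m * t) * √(x j t ^ 2 + y j t ^ 2)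
      ≤ e + Ig d α μ y m t + Φ / d m * Real.exp (d m * t) := by
    apply le_of_forall_pos_le_add
    intro δ hδ
    have := key (δ / (1 + T)) (by positivity)
    rwa [div_mul_cancel₀ _ (by positivity)] at this
  have key3 : √(x j t ^ 2 + y j t ^ 2) ≤ e + sg d α μ y m t + Φ / d m := by
    have e1 := mul_le_mul_of_nonneg_left key2 (Real.exp_pos (-(d m * t))).le
    have e0 : Real.exp (-(d m * t)) * Real.exp (d m * t) = 1 := by
      rw [← Real.exp_add]; simp
    rw [← mul_assoc, e0, one_mul, mul_add, mul_add] at e1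
    have e2 : Real.exp (-(d m * t)) * e ≤ e := by
      have : Real.exp (-(d m * t)) ≤ 1 := by
        rw [Real.exp_le_one_iff]
        have := mul_nonneg hdm ht.1
        linarith
      exact mul_le_of_le_one_left he this
    have e3 : Real.exp (-(d m * t)) * (Φ / d m * Real.exp (d m * t)) = Φ / d m := by
      linear_combination (Φ / d m) * e0
    rw [e3] at e1
    unfold sg
    linarith
  constructor
  · refine le_trans ?_ key3
    rw [← Real.sqrt_sq_eq_abs]
    exact Real.sqrt_le_sqrt (by linarith [sq_nonneg (y j t)])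
  · refine le_trans ?_ key3
    rw [← Real.sqrt_sq_eq_abs]
    exact Real.sqrt_le_sqrt (by linarith [sq_nonneg (x j t)])

/-- before the stage -/
theorem Cs.pre (h : Cs T d D α μ x y f g) (S : Sgn d D α μ) (n : ℕ) {tn q w : ℝ}
    (htn : tn ≤ T) (hw : 0 ≤ w) (hq : 0 ≤ q)
    (hS : ∀ t ∈ Icc 0 tn, sg d α μ y (n + 1) t ≤ q)
    (ht1 : ∀ j, n + 1 ≤ j → ∀ t ∈ Icc 0 tn, |x j t| ≤ sg d α μ y (n + 1) t + w ∧
      |y j t| ≤ sg d α μ y (n + 1) t + w)
    (hqd : (2 * α (n + 1) + μ (n + 1)) * (q + w) ≤ D (n + 1) - d (n + 1))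
    (h0 : |y (n + 1) 0| ≤ w) (hg : ∀ r ∈ Ioo 0 tn, |g (n + 1) r| ≤ d (n + 1) * w)
    {t : ℝ} (ht : t ∈ Icc 0 tn) :
    |y (n + 1) t| ≤ μ n / α n * sg d α μ y (n + 1) t + w ∧ -w ≤ y (n + 1) t := by
  have hαn := S.α0 n
  have hμn := S.μ0 n
  have hαn1 := S.α0 (n + 1)
  have hμn1 := S.μ0 (n + 1)
  set ε := μ n / α n with hε
  have hε0 : 0 < ε := by positivity
  have hεα : ε * α n = μ n := by rw [hε]; field_simp
  set b : ℝ → ℝ := fun r => α (n + 1) * (x (n + 1) r - x (n + 1 + 1) r) - D (n + 1)
    - μ (n + 1) * y (n + 1 + 1) r with hb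
  have hbc : Continuous b :=
    ((continuous_const.mul ((h.xc _).sub (h.xc _))).sub continuous_const).sub
      (continuous_const.mul (h.yc _))
  have hbd : ∀ r ∈ Icc 0 tn, b r ≤ -d (n + 1) := by
    intro r hr
    have e1 := (ht1 (n + 1) le_rfl r hr).1
    have e2 := ht1 (n + 1 + 1) (by omega) r hr
    have e3 := hS r hr
    have e4 : x (n + 1) r - x (n + 1 + 1) r ≤ 2 * (q + w) := by
      have := le_abs_self (x (n + 1) r)
      have := neg_abs_le (x (n + 1 + 1) r)
      linarith [e2.1]
    have e5 := mul_le_mul_of_nonneg_left e4 hαn1.le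
    have e6 : -(μ (n + 1) * y (n + 1 + 1) r) ≤ μ (n + 1) * (q + w) := by
      have := neg_abs_le (y (n + 1 + 1) r)
      have h7 : -y (n + 1 + 1) r ≤ q + w := by linarith [e2.2]
      nlinarith [mul_le_mul_of_nonneg_left h7 hμn1.le]
    simp only [hb]
    nlinarith
  have hT' : ∀ r ∈ Ioo 0 t, r ∈ Ioo 0 T := fun r hr => ⟨hr.1, hr.2.trans_le (ht.2.trans htn)⟩
  have hI : ∀ r ∈ Ioo 0 t, r ∈ Icc 0 tn := fun r hr => ⟨hr.1.le, hr.2.le.trans ht.2⟩
  have hy0 : ∀ r ∈ Ioo 0 t, HasDerivAt (y (n + 1)) (b r * y (n + 1) r + μ n * y n r ^ 2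
      + g (n + 1) r) r := fun r hr => by
    refine (h.yd (n + 1) r (hT' r hr)).congr_deriv ?_
    simp only [hb, gf]
    ring
  have hff : ∀ r, ff α μ y (n + 1) r = (α n + μ n) * y n r ^ 2 := fun r => rfl
  -- upper bounds
  have hup : ∀ σ : ℝ, |σ| = 1 → 0 ≤ ε * sg d α μ y (n + 1) t + w - σ * y (n + 1) t := by
    intro σ hσ
    refine pos_of_lin (V := fun r => ε * sg d α μ y (n + 1) r + w - σ * y (n + 1) r)
      (V' := fun r => ε * (-(d (n + 1) * sg d α μ y (n + 1) r) + ff α μ y (n + 1) r)
        - σ * (b r * y (n + 1) r + μ n * y n r ^ 2 + g (n + 1) r)) ht.1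
      (((continuous_const.mul (sgc h.yc _)).add continuous_const).sub
        (continuous_const.mul (h.yc _))).continuousOn
      (fun r hr => by
        have h1 := (((sgd (d := d) (α := α) (μ := μ) h.yc (n + 1) r).const_mul ε).add_const w).sub
          ((hy0 r hr).const_mul σ)
        exact h1) hbc (fun r hr => ?_) ?_
    · have e1 := hbd r (hI r hr)
      have e2 := sg_nonneg (t := r) h.yc S (n + 1) hr.1.le
      have e3 := hg r ⟨hr.1, hr.2.trans_le ht.2⟩
      have e4 : 0 ≤ y n r ^ 2 := sq_nonneg _
      have hσ2 : σ = 1 ∨ σ = -1 := eq_or_eq_neg_of_abs_eq hσ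
      have e5 : σ * g (n + 1) r ≤ |g (n + 1) r| := by
        rcases hσ2 with h | h
        · rw [h, one_mul]; exact le_abs_self _
        · rw [h]; linarith [neg_abs_le (g (n + 1) r)]
      have e6 : σ * (μ n * y n r ^ 2) ≤ μ n * y n r ^ 2 := by
        have : 0 ≤ μ n * y n r ^ 2 := by positivity
        rcases hσ2 with h | h
        · rw [h, one_mul]
        · rw [h]; linarith
      have e7 : μ n * y n r ^ 2 ≤ ε * ((α n + μ n) * y n r ^ 2) := by
        have : ε * ((α n + μ n) * y n r ^ 2) = μ n * y n r ^ 2 + ε * (μ n * y n r ^ 2) := by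
          rw [add_mul, mul_add, ← mul_assoc ε, hεα]
        rw [this]
        have : 0 ≤ ε * (μ n * y n r ^ 2) := by positivity
        linarith
      have e8 : b r * (ε * sg d α μ y (n + 1) r + w) ≤ -d (n + 1) * (ε * sg d α μ y (n + 1) r + w) :=
        mul_le_mul_of_nonneg_right e1 (by positivity)
      simp only [hff]
      nlinarith
    · simp only [sg_zero, mul_zero, zero_add]
      rcases eq_or_eq_neg_of_abs_eq hσ with h | h
      · rw [h]; linarith [le_abs_self (y (n + 1) 0)]
      · rw [h]; linarith [neg_abs_le (y (n + 1) 0)]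
  constructor
  · rw [abs_le]
    have h1 := hup 1 (by norm_num)
    have h2 := hup (-1) (by norm_num)
    constructor <;> linarith
  · have : 0 ≤ w + y (n + 1) t := by
      refine pos_of_lin (V := fun r => w + y (n + 1) r)
        (V' := fun r => b r * y (n + 1) r + μ n * y n r ^ 2 + g (n + 1) r) ht.1
        (continuous_const.add (h.yc _)).continuousOn
        (fun r hr => (hy0 r hr).const_add w) hbc (fun r hr => ?_) ?_
      · have e1 := hbd r (hI r hr)
        have e3 := hg r ⟨hr.1, hr.2.trans_le ht.2⟩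
        have e4 : 0 ≤ μ n * y n r ^ 2 := by positivity
        have e5 := neg_abs_le (g (n + 1) r)
        have e8 : b r * w ≤ -d (n + 1) * w := mul_le_mul_of_nonneg_right e1 hw
        nlinarith
      · linarith [neg_abs_le (y (n + 1) 0)]
    linarith

end Pool.Agent.N977.S
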