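import Pool.Agent.N977.Q.Hop2
import Pool.Agent.N977.Q.Eval
import Pool.Agent.N977.Q.Th2
import Pool.Agent.N977.S.Cls

/-!
The perturbation.
-/

open MeasureTheory Set Filter Topology
open scoped ContDiff ComplexConjugate

namespace Pool.Agent.N977.S

open H459R3.NS Pool.Agent.N977.Q

variable {N : ℕ} {α μ : ℕ → ℝ}

/-! ### rapidly decreasing real sequences -/

/-- rapidly decreasing real sequences -/
def Rd (N : ℕ) (f : ℕ → ℝ) : Prop := ∀ s : ℕ, ∃ C, 0 ≤ C ∧ ∀ n, (Mn N n : ℝ) ^ s * |f n| ≤ C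

/-- shift -/
def sh (f : ℕ → ℝ) : ℕ → ℝ
  | 0 => 0
  | n + 1 => f n

theorem Rd.add {f g : ℕ → ℝ} (hf : Rd N f) (hg : Rd N g) : Rd N fun n => f n + g n := by
  intro s
  obtain ⟨C, hC0, hC⟩ := hf s
  obtain ⟨D, hD0, hD⟩ := hg s
  refine ⟨C + D, by linarith, fun n => ?_⟩
  have := mul_le_mul_of_nonneg_left (abs_add_le (f n) (g n)) (by positivity : 0 ≤ (Mn N n : ℝ) ^ s)
  linarith [hC n, hD n]

theorem Rd.neg {f : ℕ → ℝ} (hf : Rd N f) : Rd N fun n => -f n := by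
  intro s
  obtain ⟨C, hC0, hC⟩ := hf s
  exact ⟨C, hC0, fun n => by rw [abs_neg]; exact hC n⟩

theorem Rd.sub {f g : ℕ → ℝ} (hf : Rd N f) (hg : Rd N g) : Rd N fun n => f n - g n := by
  simpa [sub_eq_add_neg] using hf.add hg.neg

theorem Rd.bdd {f : ℕ → ℝ} (hf : Rd N f) : ∃ C, 0 ≤ C ∧ ∀ n, |f n| ≤ C := by
  obtain ⟨C, hC0, hC⟩ := hf 0
  exact ⟨C, hC0, fun n => by simpa using hC n⟩

theorem Rd.mul {f g : ℕ → ℝ} (hf : Rd N f) (hg : Rd N g) : Rd N fun n => f n * g n := by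
  intro s
  obtain ⟨C, hC0, hC⟩ := hf s
  obtain ⟨D, hD0, hD⟩ := hg.bdd
  refine ⟨C * D, by positivity, fun n => ?_⟩
  rw [abs_mul, ← mul_assoc]
  exact mul_le_mul (hC n) (hD n) (abs_nonneg _) hC0

theorem Rd.coef {f c : ℕ → ℝ} {G : ℝ} {q : ℕ} (hf : Rd N f) (hG : 0 ≤ G)
    (hc : ∀ n, |c n| ≤ G * (Mn N n : ℝ) ^ q) : Rd N fun n => c n * f n := by
  intro s
  obtain ⟨C, hC0, hC⟩ := hf (q + s)
  refine ⟨G * C, by positivity, fun n => ?_⟩
  rw [abs_mul]
  calc (Mn N n : ℝ) ^ s * (|c n| * |f n|) ≤ (Mn N n : ℝ) ^ s * ((G * (Mn N n : ℝ) ^ q) * |f n|) := by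
        apply mul_le_mul_of_nonneg_left _ (by positivity)
        exact mul_le_mul_of_nonneg_right (hc n) (abs_nonneg _)
    _ = G * ((Mn N n : ℝ) ^ (q + s) * |f n|) := by rw [pow_add]; ring
    _ ≤ G * C := mul_le_mul_of_nonneg_left (hC n) hG

theorem Rd.const {f : ℕ → ℝ} (c : ℝ) (hf : Rd N f) : Rd N fun n => c * f n :=
  hf.coef (c := fun _ => c) (q := 0) (abs_nonneg c) fun n => by simp

theorem Rd.sh {f : ℕ → ℝ} (hf : Rd N f) : Rd N (sh f) := by
  intro s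
  obtain ⟨C, hC0, hC⟩ := hf s
  refine ⟨2 ^ s * C, by positivity, fun n => ?_⟩
  cases n with
  | zero => simp only [S.sh, abs_zero, mul_zero]; positivity
  | succ n =>
    simp only [S.sh]
    rw [Mn_succ]
    push_cast
    rw [mul_pow, mul_assoc]
    exact mul_le_mul_of_nonneg_left (hC n) (by positivity)

theorem Rd.succ {f : ℕ → ℝ} (hf : Rd N f) : Rd N fun n => f (n + 1) := by
  intro s
  obtain ⟨C, hC0, hC⟩ := hf s
  refine ⟨C, hC0, fun n => le_trans ?_ (hC (n + 1))⟩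
  apply mul_le_mul_of_nonneg_right _ (abs_nonneg _)
  apply pow_le_pow_left₀ (Nat.cast_nonneg _)
  rw [Mn_succ]; push_cast; linarith [Nat.cast_nonneg (α := ℝ) (Mn N n)]

theorem Rd.summable {f : ℕ → ℝ} (hN : 0 < N) (hf : Rd N f) : Summable f := by
  obtain ⟨C, hC0, hC⟩ := hf 1
  refine Summable.of_norm_bounded (g := fun n : ℕ => C * (1 / 2) ^ n)
    (summable_geometric_two.mul_left C) fun n => ?_
  have hM : (0 : ℝ) < Mn N n := by exact_mod_cast Mn_pos hN n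
  have h1 := hC n
  have h2 := two_pow_le_Mn hN n
  rw [pow_one] at h1
  rw [Real.norm_eq_abs]
  calc |f n| ≤ C / Mn N n := by rw [le_div_iff₀ hM, mul_comm]; exact h1
    _ ≤ C / 2 ^ n := div_le_div_of_nonneg_left hC0 (by positivity) h2
    _ = C * (1 / 2) ^ n := by rw [one_div_pow]; ring

theorem Rd.ld {f : ℕ → ℝ} (hf : Rd N f) : Ld N fun n => ((√2 * f n : ℝ) : ℂ) := by
  intro s
  obtain ⟨C, hC0, hC⟩ := hf s
  refine ⟨√2 * C, fun n => ?_⟩
  rw [Complex.norm_real, Real.norm_eq_abs, abs_mul, abs_of_nonneg (Real.sqrt_nonneg 2)]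
  calc (Mn N n : ℝ) ^ s * (√2 * |f n|) = √2 * ((Mn N n : ℝ) ^ s * |f n|) := by ring
    _ ≤ _ := mul_le_mul_of_nonneg_left (hC n) (Real.sqrt_nonneg 2)

/-! ### the amplitudes -/

/-- the amplitude in the direction `e` -/
noncomputable def aa (N : ℕ) (e : Fin 6) (u : V → V) (n : ℕ) : ℝ :=
  √2 * (fr (fun x => u x 2) ((Mn N n : ℤ) • ev e)).re

variable {u v w : V → V}

theorem aa_abs (e : Fin 6) (u : V → V) (n : ℕ) :
    |aa N e u n| ≤ √2 * un u ((Mn N n : ℤ) • ev e) := by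
  unfold aa
  rw [abs_mul, abs_of_nonneg (Real.sqrt_nonneg 2)]
  exact mul_le_mul_of_nonneg_left ((Complex.abs_re_le_norm _).trans (fr_le_un _ _ _))
    (Real.sqrt_nonneg 2)

theorem ev_ne' (e : Fin 6) : ev e ≠ 0 := by revert e; unfold ev; decide

theorem aa_rd (hu : SPV u) (e : Fin 6) : Rd N (aa N e u) := by
  intro s
  obtain ⟨C, hC0, hC⟩ := un_decay' hu s (ev_ne' e)
  refine ⟨√2 * C, by positivity, fun n => ?_⟩
  calc (Mn N n : ℝ) ^ s * |aa N e u n| ≤ (Mn N n : ℝ) ^ s * (√2 * un u ((Mn N n : ℤ) • ev e)) :=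
        mul_le_mul_of_nonneg_left (aa_abs e u n) (by positivity)
    _ = √2 * ((Mn N n : ℝ) ^ s * un u ((Mn N n : ℤ) • ev e)) := by ring
    _ ≤ _ := mul_le_mul_of_nonneg_left (hC _) (Real.sqrt_nonneg 2)

theorem aa_add (hu : SPV u) (hv : SPV v) (e : Fin 6) (n : ℕ) :
    aa N e (fun x => u x + v x) n = aa N e u n + aa N e v n := by
  unfold aa
  have : (fun x => (u x + v x) 2) = fun x => u x 2 + v x 2 := rfl
  rw [this, fr_add (spv_sp hu 2).cont (spv_sp hv 2).cont, Complex.add_re]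
  ring

theorem aa_smul (r : ℝ) (u : V → V) (e : Fin 6) (n : ℕ) :
    aa N e (fun x => r • u x) n = r * aa N e u n := by
  unfold aa
  have : (fun x => (r • u x) 2) = fun x => r * u x 2 := rfl
  rw [this, fr_smul, Complex.re_ofReal_mul]
  ring

theorem fr_const' (a : ℝ) {k : K3} (hk : k ≠ 0) : fr (fun _ => a) k = 0 := by
  unfold fr fc
  have h := integral_ee (-k)
  rw [if_neg (neg_ne_zero.2 hk)] at h
  rw [integral_mul_const, h, zero_mul]

theorem aa_const (hN : 0 < N) (hu : SPV u) (a : V) (e : Fin 6) (n : ℕ) :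
    aa N e (fun x => u x + a) n = aa N e u n := by
  unfold aa
  have : (fun x => (u x + a) 2) = fun x => u x 2 + a 2 := rfl
  rw [this, fr_add (spv_sp hu 2).cont continuous_const,
    fr_const' _ (smul_ne (Mn_pos hN n) (ev_ne' e)), add_zero]

/-- the coefficients of the first direction -/
noncomputable def cX (N : ℕ) (α : ℕ → ℝ) (u v : V → V) (n : ℕ) : ℝ :=
  sh (fun n => α n * (aa N 2 u n * aa N 2 v n)) n - α n * (aa N 2 u n * aa N 2 v n)

/-- the coefficients of the second direction -/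
noncomputable def cY (N : ℕ) (α μ : ℕ → ℝ) (u v : V → V) (n : ℕ) : ℝ :=
  α n * (aa N 2 u n * (aa N 0 v n - aa N 0 v (n + 1)))
    + sh (fun n => μ n * (aa N 2 u n * aa N 2 v n)) n - μ n * (aa N 2 u n * aa N 2 v (n + 1))

/-- the scalar operator -/
noncomputable def kb (N : ℕ) (α μ : ℕ → ℝ) (u v : V → V) (x : V) : ℝ :=
  Ls N (ev 0) (fun n => ((√2 * cX N α u v n : ℝ) : ℂ)) x
    + Ls N (ev 2) (fun n => ((√2 * cY N α μ u v n : ℝ) : ℂ)) x

/-- The perturbation. -/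
noncomputable def KB (N : ℕ) (α μ : ℕ → ℝ) (u v : V → V) (x : V) : V := fun i =>
  if i = 2 then kb N α μ u v x else 0

/-- conditions on the coefficients -/
structure Ga (N : ℕ) (α μ : ℕ → ℝ) : Prop where
  N0 : 3 ≤ N
  a3 : ∀ n, |α n| ≤ 1 * (Mn N n : ℝ) ^ 3
  m3 : ∀ n, |μ n| ≤ 1 * (Mn N n : ℝ) ^ 3

theorem Ga.N1 (h : Ga N α μ) : 0 < N := by have := h.N0; omega

theorem cX_rd (h : Ga N α μ) (hu : SPV u) (hv : SPV v) : Rd N (cX N α u v) := by
  have h1 := ((aa_rd (N := N) hu 2).mul (aa_rd hv 2)).coef zero_le_one h.a3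
  exact h1.sh.sub h1

theorem cY_rd (h : Ga N α μ) (hu : SPV u) (hv : SPV v) : Rd N (cY N α μ u v) := by
  have h1 := ((aa_rd (N := N) hu 2).mul (aa_rd hv 2)).coef zero_le_one h.m3
  have h2 := ((aa_rd (N := N) hu 2).mul ((aa_rd hv 0).sub (aa_rd hv 0).succ)).coef zero_le_one h.a3
  have h3 := ((aa_rd (N := N) hu 2).mul (aa_rd hv 2).succ).coef zero_le_one h.m3
  exact (h2.add h1.sh).sub h3

theorem kb_sp (h : Ga N α μ) (hu : SPV u) (hv : SPV v) : SP (kb N α μ u v) :=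
  (Ls_sp h.N1 (cX_rd h hu hv).ld _).add (Ls_sp h.N1 (cY_rd h hu hv).ld _)

theorem KB_two (u v : V → V) : (fun x => KB N α μ u v x 2) = kb N α μ u v := by
  funext x; unfold KB; rw [if_pos rfl]

theorem KB_ne (u v : V → V) {i : Fin 3} (hi : i ≠ 2) : (fun x => KB N α μ u v x i) = fun _ => 0 := by
  funext x; unfold KB; rw [if_neg hi]

theorem KB_spv (h : Ga N α μ) (hu : SPV u) (hv : SPV v) : SPV (KB N α μ u v) := by
  refine sp_spv fun i => ?_
  by_cases hi : i = 2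
  · subst hi; rw [KB_two]; exact kb_sp h hu hv
  · rw [KB_ne u v hi]; exact ⟨contDiff_const, fun i x => rfl⟩

theorem KB_test (h : Ga N α μ) (hu : SPV u) (hv : SPV v) {f : V → ℝ} (hf : Continuous f) :
    HasSum (fun n => (cX N α u v n) * (√2 * (fr f ((Mn N n : ℤ) • ev 0)).re)
      + (cY N α μ u v n) * (√2 * (fr f ((Mn N n : ℤ) • ev 2)).re))
      (∫ x in cube, kb N α μ u v x * f x) := by
  have h1 := Ls_int h.N1 (cX_rd h hu hv).ld (ev 0) hf
  have h2 := Ls_int h.N1 (cY_rd h hu hv).ld (ev 2) hf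
  have h3 := h1.add h2
  have e : (∫ x in cube, kb N α μ u v x * f x)
      = (∫ x in cube, Ls N (ev 0) (fun n => ((√2 * cX N α u v n : ℝ) : ℂ)) x * f x)
        + ∫ x in cube, Ls N (ev 2) (fun n => ((√2 * cY N α μ u v n : ℝ) : ℂ)) x * f x := by
    rw [← integral_add]
    · congr 1
      funext x
      unfold kb
      ring
    · exact integrableOn_cube ((Ls_sp h.N1 (cX_rd h hu hv).ld _).cont.mul hf)
    · exact integrableOn_cube ((Ls_sp h.N1 (cY_rd h hu hv).ld _).cont.mul hf)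
  rw [e]
  refine h3.congr_fun fun n => ?_
  simp only [Complex.re_ofReal_mul]
  rw [fr_neg' hf, fr_neg' hf, Complex.conj_re, Complex.conj_re]
  ring
where
  congr_fun {f g : ℕ → ℝ} {a : ℝ} (h : HasSum f a) (e : ∀ n, g n = f n) : HasSum g a := by
    rw [show g = f from funext e]; exact h

end Pool.Agent.N977.S
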