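import Pool.Agent.N977.Q.Par
import Pool.Agent.N977.S.Ind

/-!
Choice of the parameters of the cascade with perturbations.
-/

open Set Filter Topology

namespace Pool.Agent.N977.S

open Pool.Agent.N977.Q (Mn al mu Mn_pos Mn_succ one_le_Mn log_Mn one_le_log logN_le n_le_L sum_small
  large_log al_pos mu_pos L_mono L_succ_le al_succ_le al_le Sgn exp_one_le)

/-- powers of the logarithm are small -/
theorem large_pow (k : ℕ) (B : ℝ) : ∃ N₀ : ℕ, 3 ≤ N₀ ∧ ∀ N : ℕ, N₀ ≤ N →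
    B * Real.log N ^ k ≤ N := by
  have h1 := Real.tendsto_pow_log_div_mul_add_atTop 1 0 k one_ne_zero
  simp only [one_mul, add_zero] at h1
  have h2 := h1.comp tendsto_natCast_atTop_atTop (α := ℕ)
  have h3 := (h2.eventually (gt_mem_nhds (show (0 : ℝ) < 1 / (|B| + 1) by positivity)))
  obtain ⟨N₁, hN₁⟩ := h3.exists_forall_of_atTop
  refine ⟨max N₁ 3, le_max_right _ _, fun N hN => ?_⟩
  have h4 := hN₁ N ((le_max_left _ _).trans hN)
  have hN3 : 3 ≤ N := (le_max_right _ _).trans hN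
  have hN0 : (0 : ℝ) < N := by exact_mod_cast (by omega : 0 < N)
  simp only [Function.comp] at h4
  rw [div_lt_div_iff₀ hN0 (by positivity)] at h4
  have h5 : 0 ≤ Real.log N ^ k := pow_nonneg (by linarith [one_le_log hN3]) _
  have h6 : B * Real.log N ^ k ≤ |B| * Real.log N ^ k :=
    mul_le_mul_of_nonneg_right (le_abs_self B) h5
  nlinarith

theorem Mn_add (N i n : ℕ) : Mn (Mn N i) n = Mn N (i + n) := by
  unfold Mn; rw [pow_add]; ring

/-- a frequency of a level is large, if the first one is -/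
theorem large_pow_Mn (k : ℕ) (B : ℝ) : ∃ N₀ : ℕ, 3 ≤ N₀ ∧ ∀ N i : ℕ, N₀ ≤ Mn N i → ∀ n, i ≤ n →
    B * Real.log (Mn N n) ^ k ≤ Mn N n := by
  obtain ⟨N₀, h3, h⟩ := large_pow k B
  refine ⟨N₀, h3, fun N i hi n hn => h _ (hi.trans ?_)⟩
  unfold Mn
  exact Nat.mul_le_mul_left _ (Nat.pow_le_pow_right (by norm_num) hn)

end Pool.Agent.N977.S
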