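import Pool.Agent.N977.S.Par

/-!
Choice of the parameters of the cascade with perturbations.
-/

open Set Filter Topology

namespace Pool.Agent.N977.S

open Pool.Agent.N977.Q (Mn al mu Mn_pos Mn_succ one_le_Mn log_Mn one_le_log logN_le n_le_L sum_small
  large_log al_pos mu_pos L_mono L_succ_le al_succ_le al_le Sgn exp_one_le one_le_L)

theorem log_le_eight : Real.log 1152 ≤ 8 := by
  rw [Real.log_le_iff_le_exp (by norm_num)]
  have h1 : (2.7 : ℝ) ≤ Real.exp 1 := by linarith [Real.exp_one_gt_d9]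
  have h2 : Real.exp 8 = Real.exp 1 ^ 8 := by rw [← Real.exp_nat_mul]; norm_num
  rw [h2]
  have := pow_le_pow_left₀ (by norm_num) h1 8
  linarith [show (2000 : ℝ) ≤ (2.7 : ℝ) ^ 8 by norm_num]

/-- facts about the logarithms -/
structure Lf (i : ℕ) (θ p c E B₀ C₁ h A : ℝ) (N : ℕ) : Prop where
  N3 : 3 ≤ N
  θ0 : 0 < θ
  θ1 : θ ≤ 1
  p2 : p ≤ 2
  p0 : 0 ≤ p
  c0 : 0 < c
  E1 : 1 ≤ E
  B0 : 0 ≤ B₀
  C7 : 1 ≤ C₁
  h0 : 0 < h
  h1 : h ≤ 1
  A1 : 1 ≤ A
  Lb : ∀ n, i ≤ n → 5000 * E + B₀ + 2000 + 100 / c + 36864 * C₁ + 80 * c * C₁ / θ ≤ LL N n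
  Lp : ∀ n, i ≤ n → A * LL N n ^ 250 ≤ Mn N n
  Ac : 4 + 1 / c + C₁ / θ + 16 / (9 * c ^ 2) + 12544 * C₁ / (c * θ) ≤ A

variable {i N : ℕ} {θ p c E B₀ C₁ h A : ℝ}

section

variable (F : Lf i θ p c E B₀ C₁ h A N) {n : ℕ} (hn : i ≤ n)
include F

theorem Lf.c1 : 0 ≤ 100 / c := by have := F.c0; positivity

theorem Lf.c2 : 0 ≤ 80 * c * C₁ / θ := by
  have := F.c0; have := F.C7; have := F.θ0; positivity

include hn

theorem Lf.L2000 : 2000 ≤ LL N n := by
  linarith [F.Lb n hn, F.c1, F.c2, F.E1, F.B0, F.C7]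

theorem Lf.LE : 5000 * E ≤ LL N n := by
  linarith [F.Lb n hn, F.c1, F.c2, F.E1, F.B0, F.C7]

theorem Lf.Lc : 100 / c ≤ LL N n := by
  linarith [F.Lb n hn, F.c1, F.c2, F.E1, F.B0, F.C7]

theorem Lf.LC : 36864 * C₁ ≤ LL N n := by
  linarith [F.Lb n hn, F.c1, F.c2, F.E1, F.B0, F.C7]

theorem Lf.Lθ : 80 * c * C₁ / θ ≤ LL N n := by
  linarith [F.Lb n hn, F.c1, F.c2, F.E1, F.B0, F.C7]

omit hn in
theorem Lf.Lpos (n : ℕ) : 0 < LL N n := by
  have := one_le_L F.N3 n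
  unfold LL; linarith

omit hn in
theorem Lf.L1 (n : ℕ) : 1 ≤ LL N n := one_le_L F.N3 n

omit hn in
theorem Lf.Lm (n : ℕ) : LL N n ≤ LL N (n + 1) := L_mono F.N3 n

omit hn in
theorem Lf.L2 (n : ℕ) : LL N (n + 1) ≤ 2 * LL N n := L_succ_le F.N3 n

omit hn in
theorem Lf.M1 (n : ℕ) : (1 : ℝ) ≤ Mn N n := one_le_Mn (by have := F.N3; omega) n

omit hn in
theorem Lf.α0 (n : ℕ) : 0 < al θ 2 p N n := al_pos F.θ0 F.N3 n

omit hn in
theorem Lf.α16 (n : ℕ) : al θ 2 p N (n + 1) ≤ 16 * al θ 2 p N n :=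
  al_succ_le F.θ0 F.p0 F.p2 le_rfl F.N3 n

omit hn in
theorem Lf.αM (n : ℕ) : θ * (Mn N n : ℝ) ^ 2 ≤ al θ 2 p N n := by
  unfold al
  have h1 : 1 ≤ Real.log (Mn N n) ^ p := Real.one_le_rpow (one_le_L F.N3 n) F.p0
  have h2 : 0 ≤ θ * (Mn N n : ℝ) ^ 2 := by have := F.θ0; positivity
  exact le_mul_of_one_le_right h2 h1

omit hn in
theorem Lf.αle (n : ℕ) : al θ 2 p N n ≤ (Mn N n : ℝ) ^ 2 * LL N n ^ 2 := al_le F.θ1 F.p2 F.N3 n

omit hn in
theorem Lf.αle' (n : ℕ) : al θ 2 p N (n + 1) ≤ (Mn N (n + 1) : ℝ) ^ 2 * (4 * LL N n ^ 2) := by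
  refine (F.αle (n + 1)).trans ?_
  apply mul_le_mul_of_nonneg_left _ (by positivity)
  have h1 := (F.Lpos (n + 1)).le
  have := pow_le_pow_left₀ h1 (F.L2 n) 2
  calc _ ≤ _ := this
    _ = _ := by ring

omit hn in
theorem Lf.με (n : ℕ) : mu θ 2 p N n / al θ 2 p N n = 1 / LL N n ^ 70 := by
  have h1 := (F.α0 n).ne'
  have h2 := (F.Lpos n).ne'
  unfold mu LL at *
  field_simp

omit hn in
/-- the time `τ` of a stage -/
theorem Lf.ατ (n : ℕ) : al θ 2 p N n * (C₁ * LL N n ^ h / al θ 2 p N n) = C₁ * LL N n ^ h := by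
  field_simp [(F.α0 n).ne']

omit hn in
theorem Lf.Lh (n : ℕ) : LL N n ^ h ≤ LL N n := by
  calc LL N n ^ h ≤ LL N n ^ (1 : ℝ) := Real.rpow_le_rpow_of_exponent_le (F.L1 n) F.h1
    _ = LL N n := Real.rpow_one _

omit hn in
theorem Lf.τ0 (n : ℕ) : 0 < C₁ * LL N n ^ h / al θ 2 p N n := by
  have h1 := F.α0 n
  have h2 : 0 < LL N n ^ h := Real.rpow_pos_of_pos (F.Lpos n) h
  have h3 := F.C7
  positivity

omit hn in
theorem Lf.α1τ (n : ℕ) : al θ 2 p N (n + 1) * (C₁ * LL N n ^ h / al θ 2 p N n)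
    ≤ 16 * (C₁ * LL N n) := by
  have h3 := F.C7
  calc _ ≤ (16 * al θ 2 p N n) * (C₁ * LL N n ^ h / al θ 2 p N n) :=
        mul_le_mul_of_nonneg_right (F.α16 n) (F.τ0 n).le
    _ = 16 * (C₁ * LL N n ^ h) := by rw [mul_assoc, F.ατ n]
    _ ≤ _ := by
        have := mul_le_mul_of_nonneg_left (F.Lh n) (by linarith : 0 ≤ C₁)
        linarith

omit hn in
/-- `τ ≤ C₁ L / (θ M²)` -/
theorem Lf.τM (n : ℕ) : C₁ * LL N n ^ h / al θ 2 p N n ≤ C₁ * LL N n / (θ * (Mn N n : ℝ) ^ 2) := by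
  have h1 := F.α0 n
  have h3 := F.C7
  have h4 := F.M1 n
  have h5 := F.θ0
  have h6 := F.Lpos n
  refine (div_le_div_of_nonneg_right (mul_le_mul_of_nonneg_left (F.Lh n) (by linarith)) h1.le).trans ?_
  exact div_le_div_of_nonneg_left (by positivity) (by positivity) (F.αM n)

theorem Lf.powM {k : ℕ} (hk : k ≤ 250) {B : ℝ} (hB : B ≤ A) : B * LL N n ^ k ≤ Mn N n := by
  refine le_trans ?_ (F.Lp n hn)
  have h1 := F.L1 n
  have h2 : LL N n ^ k ≤ LL N n ^ 250 := pow_le_pow_right₀ h1 hk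
  have h3 : 0 ≤ LL N n ^ k := by positivity
  have h4 := F.A1
  calc B * LL N n ^ k ≤ A * LL N n ^ k := mul_le_mul_of_nonneg_right hB h3
    _ ≤ _ := mul_le_mul_of_nonneg_left h2 (by linarith)

theorem Lf.ex : Ex (al θ 2 p N) (fun n => 1 / LL N n ^ 2) n ≤ 3 * LL N n ^ 64 := by
  unfold Ex
  have h0 := F.Lpos n
  have hR : al θ 2 p N (n + 1) / al θ 2 p N n ≤ 16 := by
    rw [div_le_iff₀ (F.α0 n)]; exact F.α16 n
  have e1 : Real.log (1 / (1 / LL N n ^ 2)) = 2 * Real.log (LL N n) := by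
    rw [one_div_one_div, Real.log_pow]; push_cast; ring
  have hlogL : 0 ≤ Real.log (LL N n) := Real.log_nonneg (F.L1 n)
  rw [e1]
  have a1 : 1 + 2 * (al θ 2 p N (n + 1) / al θ 2 p N n) * (2 * Real.log (LL N n))
      ≤ 1 + 64 * Real.log (LL N n) := by nlinarith
  refine (Real.exp_le_exp.2 a1).trans ?_
  rw [Real.exp_add]
  have a2 : Real.exp (64 * Real.log (LL N n)) = LL N n ^ 64 := by
    have : (64 : ℝ) * Real.log (LL N n) = ((64 : ℕ) : ℝ) * Real.log (LL N n) := by norm_num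
    rw [this, Real.exp_nat_mul, Real.exp_log h0]
  rw [a2]
  exact mul_le_mul_of_nonneg_right exp_one_le (by positivity)

theorem Lf.w1 : ∀ m, n + 1 ≤ m → vv c N n m ≤ 1 / LL N n ^ 200 := by
  intro m hm
  have hc := F.c0
  have hM := F.M1 n
  have hL := F.L1 n
  have hMm : (Mn N n : ℝ) ≤ Mn N m := by
    unfold Mn; push_cast
    exact mul_le_mul_of_nonneg_left (pow_le_pow_right₀ (by norm_num) (by omega)) (Nat.cast_nonneg _)
  have hM0 : (0 : ℝ) < Mn N n := by linarith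
  have hm0 : (0 : ℝ) < Mn N m := by linarith
  have e1 : e0 N m ≤ 1 / Mn N n := by
    unfold e0
    apply one_div_le_one_div_of_le hM0
    exact hMm.trans (le_self_pow₀ (hM.trans hMm) (by norm_num))
  have e2 : 4 / 3 * nz N n m / dd c N m ≤ 1 / c * LL N n ^ 5 / Mn N n := by
    unfold nz dd
    have a1 : (1 / 8 : ℝ) ^ (m - n) ≤ 1 := pow_le_one₀ (by norm_num) (by norm_num)
    have a2 : 4 / 3 * (LL N n ^ 5 * (Mn N m * (1 / 8) ^ (m - n))) / (4 * (c * (Mn N m : ℝ) ^ 2))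
        = (1 / 8) ^ (m - n) * (1 / 3) * (1 / c * LL N n ^ 5 / Mn N m) := by field_simp
    rw [a2]
    have a3 : 1 / c * LL N n ^ 5 / Mn N m ≤ 1 / c * LL N n ^ 5 / Mn N n :=
      div_le_div_of_nonneg_left (by positivity) hM0 hMm
    have a4 : 0 ≤ 1 / c * LL N n ^ 5 / Mn N m := by positivity
    have a5 : (1 / 8 : ℝ) ^ (m - n) * (1 / 3) ≤ 1 := by nlinarith
    exact (mul_le_of_le_one_left a4 a5).trans a3
  have e3 := F.powM hn (k := 205) (B := 1 + 1 / c) (by norm_num) (by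
    have := F.Ac
    have h1 : 0 ≤ C₁ / θ := div_nonneg (by linarith [F.C7]) F.θ0.le
    have h2 : 0 ≤ 16 / (9 * c ^ 2) := by positivity
    have h3 : 0 ≤ 12544 * C₁ / (c * θ) := by have := F.C7; have := F.θ0; positivity
    linarith)
  unfold vv
  have e4 : 1 / (Mn N n : ℝ) + 1 / c * LL N n ^ 5 / Mn N n ≤ 1 / LL N n ^ 200 := by
    rw [← add_div, div_le_div_iff₀ hM0 (by positivity)]
    have a1 : 1 ≤ LL N n ^ 5 := one_le_pow₀ hL
    calc (1 + 1 / c * LL N n ^ 5) * LL N n ^ 200 ≤ (LL N n ^ 5 + 1 / c * LL N n ^ 5) * LL N n ^ 200 :=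
          mul_le_mul_of_nonneg_right (by linarith) (by positivity)
      _ = (1 + 1 / c) * LL N n ^ 205 := by ring
      _ ≤ _ := by rw [one_mul]; exact e3
  linarith

theorem Lf.wτ : nz N n n * (C₁ * LL N n ^ h / al θ 2 p N n) ≤ 1 / LL N n ^ 200 := by
  have hθ := F.θ0
  have hM := F.M1 n
  have hL := F.L1 n
  have hC := F.C7
  have hM0 : (0 : ℝ) < Mn N n := by linarith
  have e1 : nz N n n = LL N n ^ 5 * Mn N n := by unfold nz; simp
  have e3 := F.powM hn (k := 206) (B := C₁ / θ) (by norm_num) (by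
    have := F.Ac
    have h1 : 0 ≤ 1 / c := div_nonneg (by norm_num) F.c0.le
    have h2 : 0 ≤ 16 / (9 * c ^ 2) := by have := F.c0; positivity
    have h3 : 0 ≤ 12544 * C₁ / (c * θ) := by have := F.c0; positivity
    linarith)
  rw [e1]
  calc _ ≤ LL N n ^ 5 * Mn N n * (C₁ * LL N n / (θ * (Mn N n : ℝ) ^ 2)) :=
        mul_le_mul_of_nonneg_left (F.τM n) (by positivity)
    _ = (C₁ / θ * LL N n ^ 206) / (Mn N n * LL N n ^ 200) := by
        have := (F.Lpos n).ne'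
        field_simp
    _ ≤ Mn N n / (Mn N n * LL N n ^ 200) := div_le_div_of_nonneg_right e3 (by positivity)
    _ = _ := by field_simp

theorem Lf.vY : ∀ m, n ≤ m → vv c N n m ≤ 1 / 2 * YY N n m := by
  intro m hm
  have hc := F.c0
  have hin : i ≤ m := hn.trans hm
  obtain ⟨k, rfl⟩ := Nat.exists_eq_add_of_le hm
  have hM := F.M1 n
  have hM0 : (0 : ℝ) < Mn N n := by linarith
  have hMk : (Mn N (n + k) : ℝ) = Mn N n * 2 ^ k := by
    unfold Mn; push_cast; rw [pow_add]; ring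
  have h2k : (2 : ℝ) ^ k ≤ Mn N (n + k) := by
    rw [hMk]; exact le_mul_of_one_le_left (by positivity) hM
  set M := (Mn N (n + k) : ℝ) with hMdef
  have hm1 : 1 ≤ M := F.M1 (n + k)
  have hm0 : 0 < M := by linarith
  set L := LL N (n + k) with hLdef
  have hL1 : 1 ≤ L := F.L1 (n + k)
  have hL0 : 0 < L := by linarith
  have hLn : LL N n ≤ L := by
    have : ∀ j, LL N n ≤ LL N (n + j) := fun j => by
      induction j with
      | zero => exact le_rfl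
      | succ j ih => exact ih.trans (F.Lm (n + j))
    exact this k
  have hLn0 := F.Lpos n
  have ac := F.Ac
  have p1 : 0 ≤ C₁ / θ := div_nonneg (by linarith [F.C7]) F.θ0.le
  have p2 : 0 ≤ 16 / (9 * c ^ 2) := by positivity
  have p3 : 0 ≤ 12544 * C₁ / (c * θ) := by have := F.C7; have := F.θ0; positivity
  have p4 : 0 ≤ 1 / c := by positivity
  have e1 := F.powM hin (k := 3) (B := 4) (by norm_num) (by linarith)
  have e2 := F.powM hin (k := 16) (B := 16 / (9 * c ^ 2)) (by norm_num) (by linarith)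
  change 4 * L ^ 3 ≤ M at e1
  change 16 / (9 * c ^ 2) * L ^ 16 ≤ M at e2
  have e3 : e0 N (n + k) ≤ 1 / 4 * ((1 / 10) ^ k / L ^ 3) := by
    unfold e0
    change 1 / M ^ 5 ≤ _
    have a1 : (10 : ℝ) ^ k ≤ M ^ 4 := by
      calc (10 : ℝ) ^ k ≤ 16 ^ k := pow_le_pow_left₀ (by norm_num) (by norm_num) k
        _ = (2 ^ k) ^ 4 := by rw [← pow_mul, mul_comm k 4, pow_mul]; norm_num
        _ ≤ M ^ 4 := pow_le_pow_left₀ (by positivity) h2k 4
    have a2 : 1 / 4 * ((1 / 10) ^ k / L ^ 3) = 1 / (10 ^ k * (4 * L ^ 3)) := by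
      rw [one_div_pow]; field_simp
    rw [a2]
    apply one_div_le_one_div_of_le (by positivity)
    calc 10 ^ k * (4 * L ^ 3) ≤ M ^ 4 * M := mul_le_mul a1 e1 (by positivity) (by positivity)
      _ = M ^ 5 := by ring
  have e4 : 4 / 3 * nz N n (n + k) / dd c N (n + k) ≤ 1 / 4 * ((1 / 10) ^ k / L ^ 3) := by
    unfold nz dd
    rw [Nat.add_sub_cancel_left, ← hMdef]
    have a0 : LL N n ^ 5 ≤ L ^ 5 := pow_le_pow_left₀ hLn0.le hLn 5
    have a1 : 4 / 3 * (LL N n ^ 5 * (M * (1 / 8) ^ k)) / (4 * (c * M ^ 2))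
        ≤ 4 / 3 * (L ^ 5 * (M * (1 / 8) ^ k)) / (4 * (c * M ^ 2)) := by
      apply div_le_div_of_nonneg_right _ (by positivity)
      exact mul_le_mul_of_nonneg_left (mul_le_mul_of_nonneg_right a0 (by positivity)) (by norm_num)
    refine a1.trans ?_
    -- `(4 / (3 c)) L⁸ (5/4)^k ≤ M`
    have a2 : 4 / (3 * c) * L ^ 8 * (5 / 4) ^ k ≤ M := by
      apply abs_le_of_sq_le_sq' _ hm0.le |>.2
      have b1 : (4 / (3 * c) * L ^ 8 * (5 / 4) ^ k) ^ 2
          = 16 / (9 * c ^ 2) * L ^ 16 * (25 / 16) ^ k := by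
        have b0 : ((5 / 4 : ℝ) ^ k) ^ 2 = (25 / 16) ^ k := by
          rw [← pow_mul, mul_comm, pow_mul]; norm_num
        rw [mul_pow, mul_pow, b0]
        field_simp
        norm_num
      rw [b1]
      have b2 : (25 / 16 : ℝ) ^ k ≤ M :=
        (pow_le_pow_left₀ (by norm_num) (by norm_num) k).trans h2k
      calc _ ≤ M * M := mul_le_mul e2 b2 (by positivity) hm0.le
        _ = M ^ 2 := by ring
    have a3 : 4 / 3 * (L ^ 5 * (M * (1 / 8) ^ k)) / (4 * (c * M ^ 2))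
        = (1 / 4 * ((1 / 10) ^ k / L ^ 3)) * ((4 / (3 * c) * L ^ 8 * (5 / 4) ^ k) / M) := by
      have : (1 / 8 : ℝ) ^ k = (1 / 10) ^ k * (5 / 4) ^ k := by rw [← mul_pow]; norm_num
      rw [this]
      field_simp
    rw [a3]
    apply mul_le_of_le_one_right (by positivity)
    rw [div_le_one hm0]
    exact a2
  unfold vv YY
  rw [Nat.add_sub_cancel_left]
  change e0 N (n + k) + 4 / 3 * nz N n (n + k) / dd c N (n + k) ≤ 1 / 2 * ((1 / 10) ^ k / L ^ 3)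
  linarith

theorem Lf.Y0 : 1 / LL N (n + 1) ^ 4 + vv c N n (n + 2) ≤ YY N n (n + 2) := by
  have h1 := F.vY hn (n + 2) (by omega)
  have h2 : 1 / LL N (n + 1) ^ 4 ≤ 1 / 2 * YY N n (n + 2) := by
    unfold YY
    have e : n + 2 - n = 2 := by omega
    rw [e]
    have a1 := F.L2 (n + 1)
    have a2 := F.L2000 (n := n + 1) (by omega)
    have a3 := F.Lpos (n + 1 + 1)
    have a4 := pow_le_pow_left₀ a3.le a1 3
    have a5 : 1 / 2 * ((1 / 10 : ℝ) ^ 2 / LL N (n + 2) ^ 3) = 1 / (200 * LL N (n + 2) ^ 3) := by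
      field_simp; norm_num
    rw [a5]
    apply one_div_le_one_div_of_le
    · have : 0 < LL N (n + 2) := a3
      positivity
    · calc 200 * LL N (n + 2) ^ 3 ≤ 200 * (2 * LL N (n + 1)) ^ 3 :=
            mul_le_mul_of_nonneg_left a4 (by norm_num)
        _ = 1600 * LL N (n + 1) ^ 3 := by ring
        _ ≤ LL N (n + 1) * LL N (n + 1) ^ 3 :=
            mul_le_mul_of_nonneg_right (by linarith) (by positivity)
        _ = _ := by ring
  linarith

theorem Lf.Ys : ∀ m, n + 2 ≤ m →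
    9 / 8 * al θ 2 p N m * YY N n m ^ 2 * (1 / dd c N (m + 1)) + vv c N n (m + 1)
      ≤ YY N n (m + 1) := by
  intro m hm
  have hc := F.c0
  have h1 := F.vY hn (m + 1) (by omega)
  have h2 : 9 / 8 * al θ 2 p N m * YY N n m ^ 2 * (1 / dd c N (m + 1)) ≤ 1 / 2 * YY N n (m + 1) := by
    have hM := F.M1 m
    have hM0 : (0 : ℝ) < Mn N m := by linarith
    have hL := F.Lpos m
    have hL' := F.Lpos (m + 1)
    have a0 := F.αle m
    have a1 := F.L2 m
    have a2 := F.Lc (n := m) (by omega)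
    rw [div_le_iff₀ hc] at a2
    have e : m + 1 - n = m - n + 1 := by omega
    set k := m - n with hk
    have a3 : dd c N (m + 1) = 16 * c * (Mn N m : ℝ) ^ 2 := by
      unfold dd; rw [Mn_succ]; push_cast; ring
    unfold YY
    rw [e, a3, ← hk]
    have b1 : 9 / 8 * al θ 2 p N m * ((1 / 10) ^ k / LL N m ^ 3) ^ 2
        * (1 / (16 * c * (Mn N m : ℝ) ^ 2))
        ≤ 9 / 8 * ((Mn N m : ℝ) ^ 2 * LL N m ^ 2) * ((1 / 10) ^ k / LL N m ^ 3) ^ 2
        * (1 / (16 * c * (Mn N m : ℝ) ^ 2)) := by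
      apply mul_le_mul_of_nonneg_right _ (by positivity)
      apply mul_le_mul_of_nonneg_right _ (by positivity)
      exact mul_le_mul_of_nonneg_left a0 (by norm_num)
    refine b1.trans ?_
    have b2 : 9 / 8 * ((Mn N m : ℝ) ^ 2 * LL N m ^ 2) * ((1 / 10) ^ k / LL N m ^ 3) ^ 2
        * (1 / (16 * c * (Mn N m : ℝ) ^ 2))
        = (1 / 10) ^ k * ((1 / 10) ^ k * (9 / 128) / (c * LL N m ^ 4)) := by field_simp; norm_num
    have b3 : (1 / 10 : ℝ) ^ k ≤ 1 := pow_le_one₀ (by norm_num) (by norm_num)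
    have b4 : (1 / 10 : ℝ) ^ k * (9 / 128) / (c * LL N m ^ 4) ≤ 1 / 20 / LL N (m + 1) ^ 3 := by
      rw [div_le_div_iff₀ (by positivity) (by positivity)]
      have c1 := pow_le_pow_left₀ hL'.le a1 3
      have c2 : (1 / 10 : ℝ) ^ k * (9 / 128) ≤ 9 / 128 := by nlinarith
      calc (1 / 10 : ℝ) ^ k * (9 / 128) * LL N (m + 1) ^ 3 ≤ 9 / 128 * (2 * LL N m) ^ 3 :=
            mul_le_mul c2 c1 (by positivity) (by norm_num)
        _ = 9 / 16 * LL N m ^ 3 := by ring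
        _ ≤ 1 / 20 * (LL N m * c) * LL N m ^ 3 := by
            apply mul_le_mul_of_nonneg_right _ (by positivity)
            linarith
        _ = _ := by ring
    have b5 : 1 / 2 * ((1 / 10 : ℝ) ^ (k + 1) / LL N (m + 1) ^ 3)
        = (1 / 10) ^ k * (1 / 20 / LL N (m + 1) ^ 3) := by rw [pow_succ]; ring
    rw [b2, b5]
    exact mul_le_mul_of_nonneg_left b4 (by positivity)
  linarith

theorem Lf.η {C₂ r : ℝ} (hC₂ : 1 ≤ C₂) (hr : r ≤ 2) :
    112 * (LL N n ^ 2) ^ 2 * √((C₁ * LL N n ^ h / al θ 2 p N n) / c) ≤ C₂ * LL N n ^ (-r) := by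
  have hc := F.c0
  have hθ := F.θ0
  have hM := F.M1 n
  have hL := F.L1 n
  have hL0 := F.Lpos n
  have hC := F.C7
  have hM0 : (0 : ℝ) < Mn N n := by linarith
  have e3 := F.powM hn (k := 13) (B := 12544 * C₁ / (c * θ)) (by norm_num) (by
    have := F.Ac
    have h1 : 0 ≤ 1 / c := by positivity
    have h2 : 0 ≤ 16 / (9 * c ^ 2) := by positivity
    have h3 : 0 ≤ C₁ / θ := by positivity
    linarith)
  have e4 : (C₁ * LL N n ^ h / al θ 2 p N n) / c ≤ (1 / (112 * LL N n ^ 6)) ^ 2 := by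
    have a1 := div_le_div_of_nonneg_right (F.τM n) hc.le
    refine a1.trans ?_
    have a2 : C₁ * LL N n / (θ * (Mn N n : ℝ) ^ 2) / c
        = (12544 * C₁ / (c * θ) * LL N n ^ 13) / ((Mn N n : ℝ) ^ 2 * (12544 * LL N n ^ 12)) := by
      field_simp
    have a3 : (1 / (112 * LL N n ^ 6)) ^ 2 = (Mn N n : ℝ) ^ 2 / ((Mn N n : ℝ) ^ 2
        * (12544 * LL N n ^ 12)) := by
      field_simp; norm_num
    rw [a2, a3]
    apply div_le_div_of_nonneg_right _ (by positivity)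
    exact e3.trans (le_self_pow₀ hM (by norm_num))
  have e5 : √((C₁ * LL N n ^ h / al θ 2 p N n) / c) ≤ 1 / (112 * LL N n ^ 6) := by
    rw [← Real.sqrt_sq (by positivity : 0 ≤ 1 / (112 * LL N n ^ 6))]
    exact Real.sqrt_le_sqrt e4
  have e6 : 1 / LL N n ^ 2 ≤ LL N n ^ (-r) := by
    rw [one_div, ← Real.rpow_natCast, ← Real.rpow_neg hL0.le]
    apply Real.rpow_le_rpow_of_exponent_le hL
    push_cast
    linarith
  calc 112 * (LL N n ^ 2) ^ 2 * √((C₁ * LL N n ^ h / al θ 2 p N n) / c)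
      ≤ 112 * (LL N n ^ 2) ^ 2 * (1 / (112 * LL N n ^ 6)) :=
        mul_le_mul_of_nonneg_left e5 (by positivity)
    _ = 1 / LL N n ^ 2 := by field_simp
    _ ≤ LL N n ^ (-r) := e6
    _ ≤ _ := le_mul_of_one_le_left (Real.rpow_nonneg hL0.le _) hC₂

theorem Lf.G : B₀ + 1 + 108 * (8 * E * (n + 2) + 4) < LL N n ^ 2 := by
  have h1 := n_le_L F.N3 n
  have h2 := F.Lb n hn
  have h3 := F.L2000 hn
  have h4 := F.E1
  have h5 := F.B0
  have h6 := F.C7
  have h7 := F.c1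
  have h8 := F.c2
  change ((n : ℝ) + 1) / 2 ≤ LL N n at h1
  have h9 : (n : ℝ) + 2 ≤ 3 * LL N n := by linarith
  have h10 : E * (n + 2) ≤ E * (3 * LL N n) := mul_le_mul_of_nonneg_left h9 (by linarith)
  have h11 : (5000 * E + B₀ + 2000) * LL N n ≤ LL N n * LL N n :=
    mul_le_mul_of_nonneg_right (by linarith) (by linarith)
  have h12 : B₀ * 1 ≤ B₀ * LL N n := mul_le_mul_of_nonneg_left (by linarith) h5
  have h13 : 0 ≤ E * LL N n := mul_nonneg (by linarith) (by linarith)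
  rw [sq]
  linarith

end

end Pool.Agent.N977.S
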