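import Pool.Agent.N977.S.Ode

/-!
One stage of the cascade with perturbations.
-/

open Set Filter Topology

namespace Pool.Agent.N977.S

open Pool.Agent.N977.K (cmp)
open Pool.Agent.N977.Q (gf ff Ig sg En Sgn gf_nonneg gf_cont ff_eq ff_nonneg Ig_zero sg_zero
  En_nonneg exp_one_le)

/-- the amplification factor -/
noncomputable def Ex (α κ : ℕ → ℝ) (n : ℕ) : ℝ :=
  Real.exp (1 + 2 * (α (n + 1) / α n) * Real.log (1 / κ n))

/-- Parameters. -/
structure Pr (i : ℕ) (E : ℝ) (d D α μ κ τ q ℓ s w : ℕ → ℝ) : Prop where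
  S : Sgn d D α μ
  E1 : 1 ≤ E
  d1 : ∀ n, 0 < d n
  με : ∀ n, i ≤ n → 8 * μ n ≤ α n
  κ0 : ∀ n, i ≤ n → 0 < κ n
  κ1 : ∀ n, i ≤ n → κ n ≤ 1 / 2
  s0 : ∀ n, i ≤ n → 0 < s n
  s1 : ∀ n, i ≤ n → s n ≤ 1 / 2
  ss : ∀ n, i ≤ n → s (n + 1) ≤ μ n / α n / 24
  τ0 : ∀ n, i ≤ n → 1 + Real.log (1 / κ n) + Real.log (1 / (s n ^ 2 / 2)) ≤ α n * τ n
  τp : ∀ n, i ≤ n → 0 < τ n
  q0 : ∀ n, i ≤ n → 0 ≤ q n
  q1 : ∀ n, i ≤ n → q n ≤ 1 / 8
  w0 : ∀ n, i ≤ n → 0 ≤ w n
  wE : ∀ n, i ≤ n → 4 * E * w n ≤ s n ^ 2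
  wε : ∀ n, i ≤ n → 48 * (w n * Ex α κ n) ≤ μ n / α n
  wq : ∀ n, i ≤ n → w n ≤ μ n / α n * q n
  qd : ∀ n, i ≤ n → (2 * α (n + 1) + μ (n + 1)) * (q n + w n) ≤ D (n + 1) - d (n + 1)
  qτ : ∀ n, i ≤ n → 3 * α (n + 1) * (q n + w n) * τ n ≤ 1
  qs : ∀ n, i ≤ n → 2 * α (n + 1) * ((2 * (μ n / α n) * q n) ^ 2 * (1 / d (n + 2))
    + (2 * (μ n / α n) * Ex α κ n) ^ 2 * τ n) ≤ q (n + 1)
  sd : ∀ n, i ≤ n → (D (n + 1) + α (n + 1) * (q n + 2 * q (n + 1) + 3 * w n) + μ (n + 1)) * τ n ≤ 1
  ℓ1 : ∀ n, i ≤ n → E * (d n + d (n + 1)) * τ n + 2 * q n + q (n + 1) + D n / α n + 3 * (μ n / α n)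
    + κ n + 4 * w n ≤ ℓ n

variable {T E : ℝ} {d D α μ κ τ q ℓ s w : ℕ → ℝ} {x y f g : ℕ → ℝ → ℝ}

/-- the transferred energy -/
noncomputable def Zf (α : ℕ → ℝ) (y : ℕ → ℝ → ℝ) (n : ℕ) (tn t : ℝ) : ℝ :=
  ∫ u in tn..t, α n * y n u ^ 2

/-- the energy which is transferred in the stage -/
noncomputable def af (E : ℝ) (d D α μ τ q w : ℕ → ℝ) (A : ℝ) (n : ℕ) : ℝ :=
  A - E * d n * τ n - q n - D n / α n - 3 * (μ n / α n) - 2 * w n

theorem Zf_zero (n : ℕ) (tn : ℝ) : Zf α y n tn tn = 0 := by simp [Zf]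

theorem Zf_deriv (hy : ∀ n, Continuous (y n)) (n : ℕ) (tn t : ℝ) :
    HasDerivAt (Zf α y n tn) (α n * y n t ^ 2) t :=
  ((continuous_const.mul ((hy n).pow 2)).integral_hasStrictDerivAt tn t).hasDerivAt

theorem Zf_cont (hy : ∀ n, Continuous (y n)) (n : ℕ) (tn : ℝ) : Continuous (Zf α y n tn) :=
  continuous_iff_continuousAt.2 fun t => (Zf_deriv hy n tn t).continuousAt

/-- Assumptions on the solution up to the time `ts` of the stage `n`, which starts at the time
`tn`. -/
structure St (T E : ℝ) (d D α μ κ τ q ℓ s w : ℕ → ℝ) (x y f g : ℕ → ℝ → ℝ) (n : ℕ)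
    (A tn ts : ℝ) : Prop where
  tn0 : 0 ≤ tn
  tts : tn ≤ ts
  tsT : ts ≤ T
  tsτ : ts ≤ tn + τ n
  A1 : A ≤ 1
  A2 : 1 / 2 ≤ A - ℓ n
  hx : A ≤ x n tn
  hy : s n ≤ y n tn
  hS : ∀ t ∈ Icc 0 tn, sg d α μ y (n + 1) t ≤ q n
  hE : ∀ j, ∀ t ∈ Icc tn ts, |x j t| ≤ E ∧ |y j t| ≤ E
  t1 : ∀ j, n + 1 ≤ j → ∀ t ∈ Icc 0 ts, |x j t| ≤ sg d α μ y (n + 1) t + w n ∧
      |y j t| ≤ sg d α μ y (n + 1) t + w n
  t2 : ∀ j, n + 2 ≤ j → ∀ t ∈ Icc 0 ts, |x j t| ≤ sg d α μ y (n + 2) t + w n ∧
      |y j t| ≤ sg d α μ y (n + 2) t + w n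
  f1 : ∀ r ∈ Ioo tn ts, |f n r| * τ n ≤ w n ∧ |f (n + 1) r| * τ n ≤ w n
  g1 : ∀ r ∈ Ioo tn ts, |g n r| * τ n ≤ w n ∧ |g (n + 1) r| * τ n ≤ w n
  g2 : ∀ r ∈ Ioo 0 tn, |g (n + 1) r| ≤ d (n + 1) * w n
  y0 : |y (n + 1) 0| ≤ w n

/-- a stage, up to the time `ts` -/
theorem Cs.stage (h : Cs T d D α μ x y f g) {i : ℕ} (P : Pr i E d D α μ κ τ q ℓ s w) {n : ℕ}
    (hin : i ≤ n)
    {A tn ts : ℝ} (H : St T E d D α μ κ τ q ℓ s w x y f g n A tn ts)
    (hZ : Zf α y n tn ts ≤ af E d D α μ τ q w A n * (1 - κ n)) :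
    (∀ t ∈ Icc 0 ts, sg d α μ y (n + 2) t ≤ q (n + 1)) ∧
    (Zf α y n tn ts = af E d D α μ τ q w A n * (1 - κ n) →
      A - ℓ n ≤ x (n + 1) ts ∧ s (n + 1) ≤ y (n + 1) ts) ∧
    (ts = tn + τ n → ¬ Zf α y n tn ts < af E d D α μ τ q w A n * (1 - κ n)) := by
  obtain ⟨htn, htts, htsT, htsτ, hA1, hA, hx, hy, hS, hE, ht1, ht2, hf1, hg1, hg2, hy0⟩ := H
  have S := P.S
  have hin1 : i ≤ n + 1 := by omega
  have hτp := P.τp n hin
  have hτ := hτp.le
  have hdn := S.d0 n
  have hdn1 := S.d0 (n + 1)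
  have hμn := S.μ0 n
  have hμn1 := S.μ0 (n + 1)
  have hqn := P.q0 n hin
  have hqn1 := P.q0 (n + 1) hin1
  have hDn := S.D0 n
  have hDn1 := S.D0 (n + 1)
  have hαn := S.α0 n
  have hαn1 := S.α0 (n + 1)
  have hκn := P.κ0 n hin
  have hκn1 := P.κ1 n hin
  have hℓ := P.ℓ1 n hin
  have hw := P.w0 n hin
  have hE1 := P.E1
  have hE0 : 0 ≤ E := by linarith
  have hlogκ : 0 ≤ Real.log (1 / κ n) := Real.log_nonneg (by rw [le_div_iff₀ hκn]; linarith)
  have hDα : 0 ≤ D n / α n := div_nonneg hDn hαn.le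
  set ε := μ n / α n with hε
  have hε0 : 0 < ε := by positivity
  have hε1 : ε ≤ 1 / 8 := by rw [hε, div_le_iff₀ hαn]; linarith [P.με n hin]
  have hεα : ε * α n = μ n := by rw [hε]; field_simp
  have hμα1 : μ (n + 1) ≤ α (n + 1) / 8 := by linarith [P.με (n + 1) hin1]
  set a := af E d D α μ τ q w A n with ha
  have ha' : a = A - E * d n * τ n - q n - D n / α n - 3 * ε - 2 * w n := rfl
  have h0 : 0 ≤ E * d (n + 1) * τ n := by positivity
  have h0' : 0 ≤ E * d n * τ n := by positivity
  have ha2 : A - ℓ n + E * d (n + 1) * τ n + q n + q (n + 1) + κ n + 2 * w n ≤ a := by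
    rw [ha']; linarith
  have ha12 : 1 / 2 ≤ a := by linarith
  have ha1 : a ≤ 1 := by rw [ha']; linarith
  have hwE := P.wE n hin
  have hwq := P.wq n hin
  have hw1 : w n ≤ 1 / 64 := by
    have : ε * q n ≤ 1 / 8 * (1 / 8) := mul_le_mul hε1 (P.q1 n hin) hqn (by norm_num)
    linarith
  have hT0 : ∀ t, t ∈ Icc tn ts → t ∈ Icc 0 ts := fun t ht => ⟨htn.trans ht.1, ht.2⟩
  have hT0' : ∀ t, t ∈ Ioo tn ts → t ∈ Ioo 0 T := fun t ht =>
    ⟨htn.trans_lt ht.1, ht.2.trans_le htsT⟩
  -- the transferred energy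
  set Z : ℝ → ℝ := Zf α y n tn with hZdef
  have hZd : ∀ t, HasDerivAt Z (α n * y n t ^ 2) t := fun t => Zf_deriv h.yc n tn t
  have hZc : Continuous Z := Zf_cont h.yc n tn
  have hZ0 : Z tn = 0 := Zf_zero n tn
  have hZmono : ∀ r r', r ≤ r' → Z r ≤ Z r' := fun r r' hrr => by
    have := cmp (f := fun _ => 0) (f' := fun _ => 0) (g := Z) (g' := fun t => α n * y n t ^ 2)
      hrr continuousOn_const hZc.continuousOn (fun s hs => hasDerivAt_const _ _)
      (fun u hu => hZd u) (fun u _ => by positivity)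
    linarith
  have hZnn : ∀ t, tn ≤ t → 0 ≤ Z t := fun t ht => by
    have := hZmono tn t ht
    rwa [hZ0] at this
  have hZa : ∀ t ∈ Icc tn ts, Z t ≤ a := fun t ht => by
    have h1 := (hZmono t ts ht.2).trans hZ
    have h2 := mul_nonneg (show 0 ≤ a by linarith) hκn.le
    linarith
  have hZ1 : ∀ t ∈ Icc tn ts, Z t ≤ 1 := fun t ht => (hZa t ht).trans ha1
  -- the inflow during the stage
  have hsg : ∀ t, tn ≤ t → sg d α μ y (n + 1) t ≤ q n + (1 + ε) * Z t := by
    intro t ht
    have hc := cmp (f := sg d α μ y (n + 1))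
      (f' := fun t => -(d (n + 1) * sg d α μ y (n + 1) t) + ff α μ y (n + 1) t)
      (g := fun t => (1 + ε) * Z t) (g' := fun t => (1 + ε) * (α n * y n t ^ 2)) ht
      (sgc h.yc (n + 1)).continuousOn (by fun_prop) (fun r _ => sgd h.yc (n + 1) r)
      (fun r _ => (hZd r).const_mul (1 + ε))
      (fun r hr => by
        have e1 := sg_nonneg h.yc S (n + 1) (htn.trans hr.1.le)
        have e2 : ff α μ y (n + 1) r = (α n + μ n) * y n r ^ 2 := rfl
        have e3 : (1 + ε) * (α n * y n r ^ 2) = (α n + μ n) * y n r ^ 2 := by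
          rw [← hεα]; ring
        have e4 := mul_nonneg hdn1 e1
        rw [e2, e3]
        linarith)
    have := hS tn ⟨htn, le_rfl⟩
    rw [hZ0] at hc
    linarith
  -- lower bound for the carrier
  have hfb : ∀ r ∈ Ioo tn ts, |f n r| ≤ w n / τ n ∧ |f (n + 1) r| ≤ w n / τ n := fun r hr => by
    rw [le_div_iff₀ hτp, le_div_iff₀ hτp]; exact hf1 r hr
  have hgb : ∀ r ∈ Ioo tn ts, |g n r| ≤ w n / τ n ∧ |g (n + 1) r| ≤ w n / τ n := fun r hr => by
    rw [le_div_iff₀ hτp, le_div_iff₀ hτp]; exact hg1 r hr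
  set γ := w n / τ n with hγ
  have hγ0 : 0 ≤ γ := by positivity
  have hγτ : γ * τ n = w n := by rw [hγ]; field_simp
  have hγt : ∀ t ∈ Icc tn ts, γ * (t - tn) ≤ w n := fun t ht => by
    have := mul_le_mul_of_nonneg_left (show t - tn ≤ τ n by linarith [ht.2]) hγ0
    linarith
  have hxl : ∀ t ∈ Icc tn ts, A - E * d n * τ n - w n - Z t ≤ x n t := by
    intro t ht
    have hc := cmp (f := fun s => -((d n * E + γ) * s) - Z s)
      (f' := fun s => -(d n * E + γ) - α n * y n s ^ 2) (g := x n)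
      (g' := fun s => -(d n * x n s) + gf α y n s - α n * y n s ^ 2 + f n s)
      ht.1 (by fun_prop) (h.xc n).continuousOn
      (fun s _ => by
        have h1 := (((hasDerivAt_id s).const_mul (d n * E + γ)).neg).sub (hZd s)
        exact h1.congr_deriv (by simp))
      (fun s hs => h.xd n s (hT0' s ⟨hs.1, hs.2.trans_le ht.2⟩))
      (fun s hs => by
        have hs' : s ∈ Ioo tn ts := ⟨hs.1, hs.2.trans_le ht.2⟩
        have e1 := (hE n s (Ioo_subset_Icc_self hs')).1
        have e2 := (hfb s hs').1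
        have e3 := gf_nonneg (y := y) (fun n => (S.α0 n).le) n s
        have e4 : d n * x n s ≤ d n * E := mul_le_mul_of_nonneg_left
          ((le_abs_self _).trans e1) hdn
        have e5 := neg_abs_le (f n s)
        linarith)
    have e : d n * E * (t - tn) ≤ d n * E * τ n :=
      mul_le_mul_of_nonneg_left (by linarith [ht.2]) (by positivity)
    have e2 := hγt t ht
    simp only [hZ0] at hc
    linarith
  -- upper bound for the next carrier
  have hsgZ : ∀ t ∈ Icc tn ts, sg d α μ y (n + 1) t + w n ≤ q n + w n + (1 + ε) * Z t :=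
    fun t ht => by linarith [hsg t ht.1]
  have hle2 : ∀ t ∈ Icc tn ts, sg d α μ y (n + 1) t + w n ≤ 2 := fun t ht => by
    have e1 := hsgZ t ht
    have e2 : (1 + ε) * Z t ≤ 9 / 8 * 1 :=
      mul_le_mul (by linarith) (hZ1 t ht) (hZnn t ht.1) (by norm_num)
    linarith [P.q1 n hin]
  have hyl : ∀ t ∈ Ioo tn ts, 0 < y n t → Z t ≤ a →
      α n * y n t * (a - 2 * Z t) - γ
        ≤ -(D n * y n t) + α n * y n t * (x n t - x (n + 1) t) + gf μ y n t
          - μ n * y n t * y (n + 1) t + g n t := by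
    intro t ht hy0 hZa
    have ht' := Ioo_subset_Icc_self ht
    have e1 := hxl t ht'
    have e2 := ht1 (n + 1) le_rfl t (hT0 t ht')
    have e2a := (le_abs_self _).trans e2.1
    have e2b := (le_abs_self _).trans e2.2
    have e3 := hsgZ t ht'
    have e4 := hle2 t ht'
    have hZt := hZnn t ht'.1
    have e5 : a - 2 * Z t ≤ x n t - x (n + 1) t - D n / α n - ε * 2 := by
      have : ε * Z t ≤ ε * 1 := mul_le_mul_of_nonneg_left (hZa.trans ha1) hε0.le
      rw [ha']
      linarith
    have e6 := mul_le_mul_of_nonneg_left e5 (mul_nonneg hαn.le hy0.le)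
    have e7 : α n * y n t * (x n t - x (n + 1) t - D n / α n - ε * 2)
        = -(D n * y n t) + α n * y n t * (x n t - x (n + 1) t) - μ n * y n t * 2 := by
      rw [← hεα]
      field_simp
      ring
    have e8 := gf_nonneg (y := y) (fun n => (S.μ0 n).le) n t
    have e9 : μ n * y n t * y (n + 1) t ≤ μ n * y n t * 2 :=
      mul_le_mul_of_nonneg_left (by linarith) (mul_nonneg hμn.le hy0.le)
    have e10 := (hgb t ht).1
    have e11 := neg_abs_le (g n t)
    linarith
  have hs0 := P.s0 n hin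
  have hlow : ∀ t ∈ Icc tn ts, Z t ≤ a → s n ^ 2 / 2 + 2 * Z t * (a - Z t) ≤ y n t ^ 2 := by
    intro t ht _
    refine stage_lower (Z := Z) (y := y n) (t0 := tn) (t1 := ts) (a := a) (α := α n)
      (s := s n) (γ := γ) (E := E) hs0 (by linarith) hαn.le hγ0 hE0 hZc (h.yc n) hZ0
      (fun t _ => hZd t) (fun t ht => h.yd n t (hT0' t ht)) hy (fun t ht => (hE n t ht).2) hyl hZa
      ?_ ht
    have : 4 * E * γ * (ts - tn) ≤ 4 * E * w n := by
      have := mul_le_mul_of_nonneg_left (hγt ts ⟨htts, le_rfl⟩) (show 0 ≤ 4 * E by positivity)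
      linarith
    linarith
  -- the action
  have hJd : ∀ s, HasDerivAt (fun t => ∫ u in (0 : ℝ)..t, Z u) (Z s) s := fun s =>
    (hZc.integral_hasStrictDerivAt 0 s).hasDerivAt
  set J : ℝ → ℝ := fun t => ∫ u in (0 : ℝ)..t, Z u with hJ
  have hJc : Continuous J := continuous_iff_continuousAt.2 fun s => (hJd s).continuousAt
  have hJmono : ∀ r r', tn ≤ r → r ≤ r' → J r ≤ J r' := by
    intro r r' hr hrr
    have := cmp (f := fun _ => 0) (f' := fun _ => 0) (g := J) (g' := Z) hrr
      continuousOn_const hJc.continuousOn (fun s hs => hasDerivAt_const _ _)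
      (fun u _ => hJd u) (fun u hu => hZnn u (hr.trans hu.1.le))
    linarith
  have hJ2 : α n * (J ts - J tn) ≤ Real.log (1 / κ n) / 2 :=
    stage_int (Z := Z) (y := y n) (t0 := tn) (t1 := ts) (a := a) (α := α n) (σ := s n ^ 2 / 2)
      (κ := κ n) ha12 hαn hκn (by positivity) htts hZc (h.yc n) hZ0
      (fun t _ => hZd t) hlow hZ hJc (fun s _ => hJd s)
  -- the amplification
  set G : ℝ → ℝ := fun r => 3 * α (n + 1) * (q n + w n) * (r - tn) + 4 * α (n + 1) * (J r - J tn)
    with hG
  have hGc : Continuous G := by simp only [hG]; fun_prop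
  have hGd : ∀ r, HasDerivAt G (3 * α (n + 1) * (q n + w n) + 4 * α (n + 1) * Z r) r := by
    intro r
    have h1 := (((hasDerivAt_id r).sub_const tn).const_mul (3 * α (n + 1) * (q n + w n))).add
      (((hJd r).sub_const (J tn)).const_mul (4 * α (n + 1)))
    refine h1.congr_deriv ?_
    simp
  have hG0 : G tn = 0 := by simp [hG]
  have hGnn : ∀ t, tn ≤ t → 0 ≤ G t := by
    intro t ht
    simp only [hG]
    have h1 := hJmono tn t le_rfl ht
    have h2 : 0 ≤ 3 * α (n + 1) * (q n + w n) * (t - tn) :=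
      mul_nonneg (by positivity) (by linarith)
    have h3 : 0 ≤ 4 * α (n + 1) * (J t - J tn) := mul_nonneg (by positivity) (by linarith)
    linarith
  have hGE : ∀ t ∈ Icc tn ts, Real.exp (G t) ≤ Ex α κ n := by
    intro t ht
    unfold Ex
    apply Real.exp_le_exp.2
    simp only [hG]
    have h1 : 3 * α (n + 1) * (q n + w n) * (t - tn) ≤ 3 * α (n + 1) * (q n + w n) * τ n :=
      mul_le_mul_of_nonneg_left (by linarith [ht.2]) (by positivity)
    have h2 := P.qτ n hin
    have h3 : J t - J tn ≤ Real.log (1 / κ n) / (2 * α n) := by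
      rw [le_div_iff₀ (by positivity)]
      have := mul_le_mul_of_nonneg_left (hJmono t ts ht.1 ht.2) hαn.le
      linarith
    have h4 := mul_le_mul_of_nonneg_left h3 (show 0 ≤ 4 * α (n + 1) by positivity)
    have h5 : 4 * α (n + 1) * (Real.log (1 / κ n) / (2 * α n))
        = 2 * (α (n + 1) / α n) * Real.log (1 / κ n) := by
      field_simp
      ring
    linarith
  have hEx1 : 1 ≤ Ex α κ n := by
    unfold Ex
    apply Real.one_le_exp
    positivity
  -- the equation of the next amplified mode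
  set b : ℝ → ℝ := fun r => α (n + 1) * (x (n + 1) r - x (n + 1 + 1) r) - D (n + 1)
    - μ (n + 1) * y (n + 1 + 1) r with hb
  have hbc : Continuous b :=
    ((continuous_const.mul ((h.xc _).sub (h.xc _))).sub continuous_const).sub
      (continuous_const.mul (h.yc _))
  have hy' : ∀ r ∈ Ioo tn ts, HasDerivAt (y (n + 1)) (b r * y (n + 1) r + μ n * y n r ^ 2
      + g (n + 1) r) r := fun r hr => by
    refine (h.yd (n + 1) r (hT0' r hr)).congr_deriv ?_
    simp only [hb, gf]
    ring
  have hbu : ∀ r ∈ Icc tn ts, b r ≤ 3 * α (n + 1) * (q n + w n) + 4 * α (n + 1) * Z r := by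
    intro r hr
    have e1 := (ht1 (n + 1) le_rfl r (hT0 r hr)).1
    have e2 := ht1 (n + 1 + 1) (by omega) r (hT0 r hr)
    have e3 := hsgZ r hr
    have hZr := hZnn r hr.1
    set X := q n + w n + (1 + ε) * Z r with hX
    have hX0 : 0 ≤ X := by positivity
    have e4 : x (n + 1) r - x (n + 1 + 1) r ≤ 2 * X := by
      have := le_abs_self (x (n + 1) r)
      have := neg_abs_le (x (n + 1 + 1) r)
      linarith [e2.1]
    have e5 := mul_le_mul_of_nonneg_left e4 hαn1.le
    have e6 : -(μ (n + 1) * y (n + 1 + 1) r) ≤ α (n + 1) / 8 * X := by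
      have := neg_abs_le (y (n + 1 + 1) r)
      have h7 : -y (n + 1 + 1) r ≤ X := by linarith [e2.2]
      have h8 := mul_le_mul_of_nonneg_left h7 hμn1.le
      have h9 := mul_le_mul_of_nonneg_right hμα1 hX0
      linarith
    have e7 : α (n + 1) * X ≤ α (n + 1) * (q n + w n) + 9 / 8 * (α (n + 1) * Z r) := by
      rw [hX]
      have := mul_le_mul_of_nonneg_right hε1 (mul_nonneg hαn1.le hZr)
      linarith
    have e8 : 0 ≤ α (n + 1) * (q n + w n) := by positivity
    have e9 : 0 ≤ α (n + 1) * Z r := by positivity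
    simp only [hb]
    linarith
  -- before the stage
  have hpre : ∀ t ∈ Icc 0 tn, |y (n + 1) t| ≤ ε * q n + w n ∧ -w n ≤ y (n + 1) t := fun t ht => by
    have := h.pre S n (tn := tn) (q := q n) (w := w n) (htts.trans htsT) hw hqn hS
      (fun j hj t ht => ht1 j hj t ⟨ht.1, ht.2.trans htts⟩) (P.qd n hin) hy0 hg2 ht
    refine ⟨this.1.trans ?_, this.2⟩
    have h1 := mul_le_mul_of_nonneg_left (hS t ht) hε0.le
    linarith
  -- upper bound for the next amplified mode
  have hH : ∀ t ∈ Icc tn ts, |y (n + 1) t| ≤ 2 * ε * Ex α κ n := by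
    intro t ht
    have key : ∀ σ : ℝ, |σ| = 1 → 0 ≤ (ε * q n + w n + ε * Z t + γ * (t - tn)) * Real.exp (G t)
        - σ * y (n + 1) t := by
      intro σ hσ
      refine pos_of_lin
        (V := fun r => (ε * q n + w n + ε * Z r + γ * (r - tn)) * Real.exp (G r) - σ * y (n + 1) r)
        (V' := fun r => (ε * (α n * y n r ^ 2) + γ) * Real.exp (G r)
          + (ε * q n + w n + ε * Z r + γ * (r - tn)) * (Real.exp (G r) *
            (3 * α (n + 1) * (q n + w n) + 4 * α (n + 1) * Z r))
          - σ * (b r * y (n + 1) r + μ n * y n r ^ 2 + g (n + 1) r)) ht.1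
        (((by fun_prop : Continuous fun r => ε * q n + w n + ε * Z r + γ * (r - tn)).mul
          (Real.continuous_exp.comp hGc)).sub (continuous_const.mul (h.yc _))).continuousOn
        (fun r hr => ?_) hbc (fun r hr => ?_) ?_
      · have hr' : r ∈ Ioo tn ts := ⟨hr.1, hr.2.trans_le ht.2⟩
        have a1 : HasDerivAt (fun r => ε * q n + w n + ε * Z r + γ * (r - tn))
            (ε * (α n * y n r ^ 2) + γ) r := by
          have := (((hZd r).const_mul ε).const_add (ε * q n + w n)).add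
            (((hasDerivAt_id r).sub_const tn).const_mul γ)
          exact this.congr_deriv (by simp)
        exact (a1.mul (hGd r).exp).sub ((hy' r hr').const_mul σ)
      · have hr' : r ∈ Ioo tn ts := ⟨hr.1, hr.2.trans_le ht.2⟩
        have hrI := Ioo_subset_Icc_self hr'
        have e1 := hbu r hrI
        have e2 := (hgb r hr').2
        have hσ2 : σ = 1 ∨ σ = -1 := eq_or_eq_neg_of_abs_eq hσ
        have e5 : σ * g (n + 1) r ≤ γ := by
          refine le_trans ?_ e2
          rcases hσ2 with h | h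
          · rw [h, one_mul]; exact le_abs_self _
          · rw [h]; linarith [neg_abs_le (g (n + 1) r)]
        have e6 : σ * (μ n * y n r ^ 2) ≤ μ n * y n r ^ 2 := by
          have : 0 ≤ μ n * y n r ^ 2 := by positivity
          rcases hσ2 with h | h
          · rw [h, one_mul]
          · rw [h]; linarith
        have e7 : ε * (α n * y n r ^ 2) = μ n * y n r ^ 2 := by rw [← hεα]; ring
        have hG1 : 1 ≤ Real.exp (G r) := Real.one_le_exp (hGnn r hr.1.le)
        have hW : 0 ≤ (ε * q n + w n + ε * Z r + γ * (r - tn)) * Real.exp (G r) := by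
          have := hZnn r hr.1.le
          have : 0 ≤ γ * (r - tn) := mul_nonneg hγ0 (by linarith [hr.1])
          positivity
        have e8 : 0 ≤ μ n * y n r ^ 2 + γ := by positivity
        have e9 : μ n * y n r ^ 2 + γ ≤ (μ n * y n r ^ 2 + γ) * Real.exp (G r) :=
          le_mul_of_one_le_right e8 hG1
        have e10 := mul_le_mul_of_nonneg_right e1 hW
        rw [e7]
        linarith
      · rw [hZ0, hG0]
        simp only [mul_zero, add_zero, sub_self, Real.exp_zero, mul_one]
        have e1 := (hpre tn ⟨htn, le_rfl⟩).1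
        rcases eq_or_eq_neg_of_abs_eq hσ with h | h
        · rw [h]; linarith [le_abs_self (y (n + 1) tn)]
        · rw [h]; linarith [neg_abs_le (y (n + 1) tn)]
    have e1 : |y (n + 1) t| ≤ (ε * q n + w n + ε * Z t + γ * (t - tn)) * Real.exp (G t) := by
      rw [abs_le]
      have h1 := key 1 (by norm_num)
      have h2 := key (-1) (by norm_num)
      constructor <;> linarith
    refine e1.trans (mul_le_mul ?_ (hGE t ht) (Real.exp_pos _).le (by positivity))
    have e2 := hγt t ht
    have e3 : ε * Z t ≤ ε * 1 := mul_le_mul_of_nonneg_left (hZ1 t ht) hε0.le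
    have e4 : ε * q n ≤ ε * (1 / 8) := mul_le_mul_of_nonneg_left (P.q1 n hin) hε0.le
    linarith
  -- the next inflow
  have hqs := P.qs n hin
  rw [← hε] at hqs
  have hff2 : ∀ t, ff α μ y (n + 2) t = (α (n + 1) + μ (n + 1)) * y (n + 1) t ^ 2 := fun t => rfl
  have hαμ : α (n + 1) + μ (n + 1) ≤ 2 * α (n + 1) := by linarith
  have hd2 := P.d1 (n + 2)
  set F0 := 2 * α (n + 1) * (2 * ε * q n) ^ 2 with hF0
  have hF00 : 0 ≤ F0 := by positivity
  have hs1 : ∀ t ∈ Icc 0 tn, sg d α μ y (n + 2) t ≤ F0 * (1 / d (n + 2)) := by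
    intro t ht
    refine sg_le h.yc (n + 2) (t0 := tn) (by positivity) (by rw [mul_one_div, div_self hd2.ne'])
      hF00 (fun r hr => ?_) ht
    rw [hff2, hF0]
    have e1 := (hpre r hr).1
    have e2 : |y (n + 1) r| ≤ 2 * ε * q n := by linarith
    rw [← sq_abs (y (n + 1) r)]
    exact mul_le_mul hαμ (pow_le_pow_left₀ (abs_nonneg _) e2 2) (by positivity) (by positivity)
  have hsH : ∀ t ∈ Icc tn ts, sg d α μ y (n + 2) t ≤ q (n + 1) := by
    intro t ht
    have hc := cmp (f := sg d α μ y (n + 2))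
      (f' := fun t => -(d (n + 2) * sg d α μ y (n + 2) t) + ff α μ y (n + 2) t)
      (g := fun r => 2 * α (n + 1) * (2 * ε * Ex α κ n) ^ 2 * r)
      (g' := fun _ => 2 * α (n + 1) * (2 * ε * Ex α κ n) ^ 2) ht.1
      (sgc h.yc (n + 2)).continuousOn (by fun_prop) (fun r _ => sgd h.yc (n + 2) r)
      (fun r _ => by
        simpa using (hasDerivAt_id r).const_mul (2 * α (n + 1) * (2 * ε * Ex α κ n) ^ 2))
      (fun r hr => by
        have e1 := sg_nonneg h.yc S (n + 2) (htn.trans hr.1.le)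
        have e2 := hH r ⟨hr.1.le, hr.2.le.trans ht.2⟩
        have e4 := mul_nonneg (S.d0 (n + 2)) e1
        have e5 : (α (n + 1) + μ (n + 1)) * y (n + 1) r ^ 2
            ≤ 2 * α (n + 1) * (2 * ε * Ex α κ n) ^ 2 := by
          rw [← sq_abs (y (n + 1) r)]
          exact mul_le_mul hαμ (pow_le_pow_left₀ (abs_nonneg _) e2 2) (by positivity)
            (by positivity)
        rw [hff2]
        linarith)
    have e1 := hs1 tn ⟨htn, le_rfl⟩
    have e2 : 2 * α (n + 1) * (2 * ε * Ex α κ n) ^ 2 * t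
        - 2 * α (n + 1) * (2 * ε * Ex α κ n) ^ 2 * tn
        ≤ 2 * α (n + 1) * ((2 * ε * Ex α κ n) ^ 2 * τ n) := by
      have : t - tn ≤ τ n := by linarith [ht.2]
      have := mul_le_mul_of_nonneg_left this
        (by positivity : 0 ≤ 2 * α (n + 1) * (2 * ε * Ex α κ n) ^ 2)
      linarith
    have e3 : F0 * (1 / d (n + 2)) = 2 * α (n + 1) * ((2 * ε * q n) ^ 2 * (1 / d (n + 2))) := by
      rw [hF0]; ring
    rw [mul_add] at hqs
    linarith
  have hsall : ∀ t ∈ Icc 0 ts, sg d α μ y (n + 2) t ≤ q (n + 1) := by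
    intro t ht
    rcases le_total t tn with htt | htt
    · refine (hs1 t ⟨ht.1, htt⟩).trans ?_
      have e3 : F0 * (1 / d (n + 2)) = 2 * α (n + 1) * ((2 * ε * q n) ^ 2 * (1 / d (n + 2))) := by
        rw [hF0]; ring
      have e4 : 0 ≤ 2 * α (n + 1) * ((2 * ε * Ex α κ n) ^ 2 * τ n) := by positivity
      rw [mul_add] at hqs
      linarith
    · exact hsH t ⟨htt, ht.2⟩
  refine ⟨hsall, fun hZe => ?_, fun hte hlt => ?_⟩
  · -- the completed stage
    have hZ4 : 1 / 4 ≤ Z ts := by
      rw [hZe]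
      have := mul_le_mul ha12 (show 1 / 2 ≤ 1 - κ n by linarith) (by norm_num) (by linarith)
      linarith
    have hIs : ts ∈ Icc tn ts := ⟨htts, le_rfl⟩
    set H := 2 * ε * Ex α κ n with hHdef
    have hH0 : 0 ≤ H := by positivity
    have hαH : 2 * (α (n + 1) * H ^ 2 * τ n) ≤ q (n + 1) := by
      have e4 : 0 ≤ 2 * α (n + 1) * ((2 * ε * q n) ^ 2 * (1 / d (n + 2))) := by positivity
      rw [mul_add] at hqs
      linarith
    have hx1 : -(q n + w n) ≤ x (n + 1) tn := by
      have h1 := (ht1 (n + 1) le_rfl tn (hT0 tn ⟨le_rfl, htts⟩)).1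
      have h2 := neg_abs_le (x (n + 1) tn)
      linarith [hS tn ⟨htn, le_rfl⟩]
    have hxd1 : ∀ r ∈ Ioo tn ts, HasDerivAt (x (n + 1)) (-(d (n + 1) * x (n + 1) r)
        + α n * y n r ^ 2 - α (n + 1) * y (n + 1) r ^ 2 + f (n + 1) r) r := fun r hr =>
      h.xd (n + 1) r (hT0' r hr)
    have hyH : ∀ r ∈ Ioo tn ts, α (n + 1) * y (n + 1) r ^ 2 ≤ α (n + 1) * H ^ 2 := fun r hr => by
      have := hH r (Ioo_subset_Icc_self hr)
      rw [← sq_abs (y (n + 1) r)]
      exact mul_le_mul_of_nonneg_left (pow_le_pow_left₀ (abs_nonneg _) this 2) hαn1.le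
    constructor
    · -- the next carrier
      have hc := cmp (f := fun s => -((d (n + 1) * E + α (n + 1) * H ^ 2 + γ) * s) + Z s)
        (f' := fun s => -(d (n + 1) * E + α (n + 1) * H ^ 2 + γ) + α n * y n s ^ 2)
        (g := x (n + 1))
        (g' := fun s => -(d (n + 1) * x (n + 1) s) + α n * y n s ^ 2
          - α (n + 1) * y (n + 1) s ^ 2 + f (n + 1) s)
        htts (Continuous.add (by fun_prop) hZc).continuousOn
        (h.xc (n + 1)).continuousOn
        (fun s _ => by
          have h1 := ((((hasDerivAt_id s).const_mul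
            (d (n + 1) * E + α (n + 1) * H ^ 2 + γ)).neg).add (hZd s))
          exact h1.congr_deriv (by simp))
        (fun s hs => hxd1 s hs)
        (fun s hs => by
          have e1 := (hE (n + 1) s (Ioo_subset_Icc_self hs)).1
          have e4 : d (n + 1) * x (n + 1) s ≤ d (n + 1) * E :=
            mul_le_mul_of_nonneg_left ((le_abs_self _).trans e1) hdn1
          have e7 := hyH s hs
          have e8 := (hfb s hs).2
          have e9 := neg_abs_le (f (n + 1) s)
          linarith)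
      rw [hZ0, hZe] at hc
      have hts : ts - tn ≤ τ n := by linarith
      have e1 : (d (n + 1) * E + α (n + 1) * H ^ 2) * (ts - tn)
          ≤ (d (n + 1) * E + α (n + 1) * H ^ 2) * τ n :=
        mul_le_mul_of_nonneg_left hts (by positivity)
      have e2 : a * (1 - κ n) ≥ a - κ n := by
        have := mul_le_mul_of_nonneg_right ha1 hκn.le
        linarith
      have e3 := hγt ts hIs
      linarith
    · -- the next seed
      have hxlow : ∀ t ∈ Icc tn ts, -(q n + q (n + 1) + 2 * w n) ≤ x (n + 1) t := by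
        intro t ht
        have : 0 ≤ x (n + 1) t + (q n + w n + (α (n + 1) * H ^ 2 + γ) * (t - tn)) := by
          refine pos_of_lin
            (V := fun r => x (n + 1) r + (q n + w n + (α (n + 1) * H ^ 2 + γ) * (r - tn)))
            (V' := fun r => (-(d (n + 1) * x (n + 1) r)
              + α n * y n r ^ 2 - α (n + 1) * y (n + 1) r ^ 2 + f (n + 1) r)
              + (α (n + 1) * H ^ 2 + γ)) (b := fun _ => -d (n + 1)) ht.1
            ((h.xc (n + 1)).add (by fun_prop)).continuousOn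
            (fun r hr => ?_) continuous_const (fun r hr => ?_) ?_
          · have h3 : HasDerivAt (fun s => q n + w n + (α (n + 1) * H ^ 2 + γ) * (s - tn))
                (α (n + 1) * H ^ 2 + γ) r := by
              have := (((hasDerivAt_id r).sub_const tn).const_mul
                (α (n + 1) * H ^ 2 + γ)).const_add (q n + w n)
              exact this.congr_deriv (by simp)
            exact (hxd1 r ⟨hr.1, hr.2.trans_le ht.2⟩).add h3
          · have hr' : r ∈ Ioo tn ts := ⟨hr.1, hr.2.trans_le ht.2⟩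
            have e7 := hyH r hr'
            have e8 := (hfb r hr').2
            have e9 := neg_abs_le (f (n + 1) r)
            have e10 : 0 ≤ α n * y n r ^ 2 := by positivity
            have e11 : 0 ≤ d (n + 1) * (q n + w n + (α (n + 1) * H ^ 2 + γ) * (r - tn)) := by
              have : 0 ≤ r - tn := by linarith [hr.1]
              positivity
            linarith
          · simp only [sub_self, mul_zero, add_zero]
            linarith
        have e1 := hγt t ht
        have e2 : α (n + 1) * H ^ 2 * (t - tn) ≤ α (n + 1) * H ^ 2 * τ n :=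
          mul_le_mul_of_nonneg_left (by linarith [ht.2]) (by positivity)
        have e3 : 0 ≤ α (n + 1) * H ^ 2 * τ n := by positivity
        linarith
      set β := D (n + 1) + α (n + 1) * (q n + 2 * q (n + 1) + 3 * w n) + μ (n + 1) with hβ
      have hβ0 : 0 ≤ β := by positivity
      have hbl : ∀ r ∈ Icc tn ts, -β ≤ b r := by
        intro r hr
        have e1 := hxlow r hr
        have e2 := ht2 (n + 1 + 1) (by omega) r (hT0 r hr)
        have e3 := hsall r (hT0 r hr)
        have e4 : -(q n + 2 * q (n + 1) + 3 * w n) ≤ x (n + 1) r - x (n + 1 + 1) r := by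
          have := le_abs_self (x (n + 1 + 1) r)
          linarith [e2.1]
        have e5 := mul_le_mul_of_nonneg_left e4 hαn1.le
        have e6 : μ (n + 1) * y (n + 1 + 1) r ≤ μ (n + 1) * 1 := by
          apply mul_le_mul_of_nonneg_left _ hμn1.le
          have := le_abs_self (y (n + 1 + 1) r)
          linarith [e2.2, P.q1 (n + 1) hin1]
        simp only [hb, hβ]
        linarith
      have key : 0 ≤ y (n + 1) ts + (w n + γ * (ts - tn)) * Real.exp (G ts)
          - Real.exp (-(β * (ts - tn))) * (ε * Z ts) := by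
        refine pos_of_lin
          (V := fun r => y (n + 1) r + (w n + γ * (r - tn)) * Real.exp (G r)
            - Real.exp (-(β * (r - tn))) * (ε * Z r))
          (V' := fun r => (b r * y (n + 1) r + μ n * y n r ^ 2 + g (n + 1) r)
            + (γ * Real.exp (G r) + (w n + γ * (r - tn)) * (Real.exp (G r) *
              (3 * α (n + 1) * (q n + w n) + 4 * α (n + 1) * Z r)))
            - (Real.exp (-(β * (r - tn))) * -β * (ε * Z r)
              + Real.exp (-(β * (r - tn))) * (ε * (α n * y n r ^ 2)))) htts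
          (((h.yc _).add ((by fun_prop : Continuous fun r => w n + γ * (r - tn)).mul
            (Real.continuous_exp.comp hGc))).sub
            ((Real.continuous_exp.comp (by fun_prop)).mul (continuous_const.mul hZc))).continuousOn
          (fun r hr => ?_) hbc (fun r hr => ?_) ?_
        · have a1 : HasDerivAt (fun r => w n + γ * (r - tn)) γ r := by
            have := (((hasDerivAt_id r).sub_const tn).const_mul γ).const_add (w n)
            exact this.congr_deriv (by simp)
          have a2 : HasDerivAt (fun r => Real.exp (-(β * (r - tn))))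
              (Real.exp (-(β * (r - tn))) * -β) r := by
            have := (((hasDerivAt_id r).sub_const tn).const_mul β).neg.exp
            exact this.congr_deriv (by simp)
          exact ((hy' r hr).add (a1.mul (hGd r).exp)).sub (a2.mul ((hZd r).const_mul ε))
        · have hrI := Ioo_subset_Icc_self hr
          have e1 := hbu r hrI
          have e2 := (hgb r hr).2
          have e3 := neg_abs_le (g (n + 1) r)
          have e4 := hbl r hrI
          have e7 : ε * (α n * y n r ^ 2) = μ n * y n r ^ 2 := by rw [← hεα]; ring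
          have hG1 : 1 ≤ Real.exp (G r) := Real.one_le_exp (hGnn r hr.1.le)
          have hrt : 0 ≤ r - tn := by linarith [hr.1]
          have hW : 0 ≤ (w n + γ * (r - tn)) * Real.exp (G r) := by positivity
          have e8 : γ ≤ γ * Real.exp (G r) := le_mul_of_one_le_right hγ0 hG1
          have e10 := mul_le_mul_of_nonneg_right e1 hW
          have e11 : Real.exp (-(β * (r - tn))) ≤ 1 := by
            rw [Real.exp_le_one_iff]
            have := mul_nonneg hβ0 hrt
            linarith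
          have e12 : 0 ≤ μ n * y n r ^ 2 := by positivity
          have e13 : Real.exp (-(β * (r - tn))) * (μ n * y n r ^ 2) ≤ μ n * y n r ^ 2 :=
            mul_le_of_le_one_left e12 e11
          have e14 : 0 ≤ Real.exp (-(β * (r - tn))) * (ε * Z r) :=
            mul_nonneg (Real.exp_pos _).le (mul_nonneg hε0.le (hZnn r hr.1.le))
          have e15 : 0 ≤ (β + b r) * (Real.exp (-(β * (r - tn))) * (ε * Z r)) :=
            mul_nonneg (by linarith) e14
          rw [e7]
          linarith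
        · rw [hG0, hZ0]
          simp only [sub_self, mul_zero, add_zero, Real.exp_zero, mul_one, sub_zero]
          linarith [(hpre tn ⟨htn, le_rfl⟩).2]
      have e1 : Real.exp (-(β * (ts - tn))) ≥ 1 / 3 := by
        have h1 : β * (ts - tn) ≤ 1 := by
          have := mul_le_mul_of_nonneg_left (show ts - tn ≤ τ n by linarith) hβ0
          linarith [P.sd n hin]
        have h2 : Real.exp (-1) ≤ Real.exp (-(β * (ts - tn))) := Real.exp_le_exp.2 (by linarith)
        have h3 : 1 / 3 ≤ Real.exp (-1) := by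
          rw [Real.exp_neg, ← one_div]
          exact one_div_le_one_div_of_le (Real.exp_pos _) exp_one_le
        linarith
      have e2 : (w n + γ * (ts - tn)) * Real.exp (G ts) ≤ 2 * w n * Ex α κ n :=
        mul_le_mul (by linarith [hγt ts hIs]) (hGE ts hIs) (Real.exp_pos _).le (by linarith)
      have e3 := P.wε n hin
      have e4 := P.ss n hin
      have e5 : 1 / 3 * (ε * (1 / 4)) ≤ Real.exp (-(β * (ts - tn))) * (ε * Z ts) :=
        mul_le_mul e1 (mul_le_mul_of_nonneg_left hZ4 hε0.le) (by positivity) (Real.exp_pos _).le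
      rw [← hε] at e3 e4
      linarith
  · -- the stage is complete at the time `tn + τ n`
    refine stage_end (Z := Z) (y := y n) (t0 := tn) (t1 := ts) (a := a) (α := α n)
      (σ := s n ^ 2 / 2) (κ := κ n) ha12 ha1 hαn (by positivity) hκn hκn1 ?_ hZc (h.yc n) hZ0
      (fun t _ => hZd t) hlow ?_ hlt
    · have h1 := P.s1 n hin
      have h2 := mul_le_mul h1 h1 hs0.le (by norm_num)
      linarith
    · have := P.τ0 n hin
      rw [hte, add_sub_cancel_left]
      exact this

end Pool.Agent.N977.S
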