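import Pool.Agent.N977.S.Zst
import Pool.Agent.N977.S.Mode2

/-!
The system of the Fourier coefficients.
-/

open MeasureTheory Set Filter Topology

namespace Pool.Agent.N977.S

open H459R3.NS Pool.Agent.N977.Q

/-- the dissipation coefficients -/
noncomputable def dd (c : ℝ) (N n : ℕ) : ℝ := 4 * (c * (Mn N n : ℝ) ^ 2)

/-- the dissipation coefficients -/
noncomputable def DD (c : ℝ) (N n : ℕ) : ℝ := 5 * (c * (Mn N n : ℝ) ^ 2)

/-- The data of the rescaled solution: the amplitudes `x`, `y` of the cascade, the moduli `a` of the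
Fourier coefficients and the moduli `b` without the cascade. -/
structure Sy (T c E : ℝ) (N : ℕ) (α μ : ℕ → ℝ) (x y f g : ℕ → ℝ → ℝ) (a b : K3 → ℝ → ℝ) : Prop where
  cs : Cs T (dd c N) (DD c N) α μ x y f g
  N0 : 0 < N
  c0 : 0 < c
  E0 : 0 ≤ E
  a0 : ∀ k t, 0 ≤ a k t
  b0 : ∀ k t, 0 ≤ b k t
  ba : ∀ k t, b k t ≤ a k t
  ab : ∀ k t, ¬ Dg N k → a k t ≤ b k t
  ax : ∀ n, ∀ t ∈ Icc 0 T, a ((Mn N n : ℤ) • ev 0) t ≤ b ((Mn N n : ℤ) • ev 0) t + |x n t| ∧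
    a (-((Mn N n : ℤ) • ev 0)) t ≤ b (-((Mn N n : ℤ) • ev 0)) t + |x n t|
  ay : ∀ n, ∀ t ∈ Icc 0 T, a ((Mn N n : ℤ) • ev 2) t ≤ b ((Mn N n : ℤ) • ev 2) t + |y n t| ∧
    a (-((Mn N n : ℤ) • ev 2)) t ≤ b (-((Mn N n : ℤ) • ev 2)) t + |y n t|
  xE : ∀ n, ∀ t ∈ Icc 0 T, |x n t| ≤ E ∧ |y n t| ≤ E
  aE : ∀ k, ∀ t ∈ Icc 0 T, a k t ≤ E
  dec : ∃ C, 0 ≤ C ∧ ∀ t ∈ Icc 0 T, ∀ k, (H459R3.NS.N k : ℝ) ^ 8 * a k t ≤ C
  xa : ∀ n, ∀ t ∈ Icc 0 T, |x n t| ≤ 2 * a ((Mn N n : ℤ) • ev 0) t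
  ac : ∀ k, ContinuousOn (a k) (Icc 0 T)
  bc : ∀ k, ContinuousOn (fun t => b k t ^ 2) (Icc 0 T)
  bd : ∀ k, ∀ t ∈ Ioo 0 T, ∃ B, |B| ≤ b k t * (7 * len k * cv (fun l => a l t) (fun l => a l t) k) ∧
      HasDerivAt (fun r => b k r ^ 2) (-(2 * (c * len k ^ 2)) * b k t ^ 2 + 2 * B) t
  fb : ∀ n, ∀ t ∈ Ioo 0 T, |f n t| ≤ 20 * Mn N n * cv (fun l => a l t) (fun l => a l t)
    ((Mn N n : ℤ) • ev 0)
  gb : ∀ n, ∀ t ∈ Ioo 0 T, |g n t| ≤ 20 * Mn N n * cv (fun l => a l t) (fun l => a l t)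
    ((Mn N n : ℤ) • ev 2)

variable {T c E : ℝ} {N : ℕ} {α μ : ℕ → ℝ} {x y f g : ℕ → ℝ → ℝ} {a b : K3 → ℝ → ℝ}

/-- the weighted norm -/
noncomputable def GG (a : K3 → ℝ → ℝ) (M t : ℝ) : ℝ := ∑' k, gw M k * a k t

theorem gw_le_N {M : ℝ} (hM : 1 ≤ M) {k : K3} (hk : k ≠ 0) : gw M k ≤ 8 * (H459R3.NS.N k : ℝ) ^ 3 := by
  have h1 := one_le_N hk
  have h2 := len_le_N k
  have h3 : len k / M ≤ 2 * H459R3.NS.N k := (div_le_self (len_nonneg k) hM).trans h2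
  have h4 : max 1 (len k / M) ≤ 2 * H459R3.NS.N k := max_le (by linarith) h3
  calc gw M k ≤ (2 * (H459R3.NS.N k : ℝ)) ^ 3 := pow_le_pow_left₀ (by positivity) h4 3
    _ = _ := by ring

theorem gw_zero {M : ℝ} : gw M 0 = 1 := by
  unfold gw
  rw [len_zero, zero_div, max_eq_left zero_le_one, one_pow]

theorem Sy.dom (h : Sy T c E N α μ x y f g a b) : ∃ B : K3 → ℝ, Summable B ∧
    ∀ M, 1 ≤ M → ∀ t ∈ Icc 0 T, ∀ k, gw M k * a k t ≤ B k := by
  obtain ⟨C, hC0, hC⟩ := h.dec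
  refine ⟨fun k => (if k = 0 then E else 0) + 8 * C * (if k = 0 then (0 : ℝ) else
    1 / (H459R3.NS.N k : ℝ) ^ 4), ?_, fun M hM t ht k => ?_⟩
  · refine Summable.add ?_ (summable_N4.mul_left _)
    exact summable_of_ne_finset_zero (s := {0}) fun k hk => if_neg (by simpa using hk)
  · by_cases hk : k = 0
    · subst hk
      simp only [if_pos]
      rw [gw_zero, one_mul, mul_zero, add_zero]
      exact h.aE 0 t ht
    · simp only [if_neg hk]
      have h1 := gw_le_N hM hk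
      have h2 := hC t ht k
      have h3 := one_le_N hk
      have h4 : (0 : ℝ) < (H459R3.NS.N k : ℝ) ^ 4 := by positivity
      rw [zero_add, mul_one_div, le_div_iff₀ h4]
      have h5 := h.a0 k t
      calc gw M k * a k t * (H459R3.NS.N k : ℝ) ^ 4
          ≤ 8 * (H459R3.NS.N k : ℝ) ^ 3 * a k t * (H459R3.NS.N k : ℝ) ^ 4 :=
            mul_le_mul_of_nonneg_right (mul_le_mul_of_nonneg_right h1 h5) h4.le
        _ = 8 * ((H459R3.NS.N k : ℝ) ^ 7 * a k t) := by ring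
        _ ≤ 8 * ((H459R3.NS.N k : ℝ) ^ 8 * a k t) := by
            apply mul_le_mul_of_nonneg_left _ (by norm_num)
            exact mul_le_mul_of_nonneg_right (pow_le_pow_right₀ h3 (by norm_num)) h5
        _ ≤ 8 * C := by linarith

theorem Sy.sa (h : Sy T c E N α μ x y f g a b) {M : ℝ} (hM : 1 ≤ M) {t : ℝ} (ht : t ∈ Icc 0 T) :
    Summable fun k => gw M k * a k t := by
  obtain ⟨B, hB, hB'⟩ := h.dom
  exact Summable.of_nonneg_of_le (fun k => mul_nonneg (gw_pos M k).le (h.a0 k t))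
    (fun k => hB' M hM t ht k) hB

theorem Sy.sb (h : Sy T c E N α μ x y f g a b) {M : ℝ} (hM : 1 ≤ M) {t : ℝ} (ht : t ∈ Icc 0 T) :
    Summable fun k => gw M k * b k t :=
  Summable.of_nonneg_of_le (fun k => mul_nonneg (gw_pos M k).le (h.b0 k t))
    (fun k => mul_le_mul_of_nonneg_left (h.ba k t) (gw_pos M k).le) (h.sa hM ht)

theorem Sy.GG_cont (h : Sy T c E N α μ x y f g a b) {M : ℝ} (hM : 1 ≤ M) :
    ContinuousOn (GG a M) (Icc 0 T) := by
  obtain ⟨B, hB, hB'⟩ := h.dom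
  refine continuousOn_tsum (fun k => continuousOn_const.mul (h.ac k)) hB fun k t ht => ?_
  rw [Real.norm_eq_abs, abs_of_nonneg (mul_nonneg (gw_pos M k).le (h.a0 k t))]
  exact hB' M hM t ht k

theorem len_ev_sq : len (ev 0) ^ 2 = 4 ∧ len (ev 2) ^ 2 = 5 := by
  have h0 : ∑ j, (ev 0 j) ^ 2 = 4 := by decide
  have h2 : ∑ j, (ev 2 j) ^ 2 = 5 := by decide
  constructor
  · rw [len_sq]; exact_mod_cast h0
  · rw [len_sq]; exact_mod_cast h2

theorem len_ev {e : Fin 6} (he : e = 0 ∨ e = 2) : 2 ≤ len (ev e) ∧ len (ev e) ≤ 3 := by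
  obtain ⟨h0, h2⟩ := len_ev_sq
  rcases he with rfl | rfl
  · have := len_nonneg (ev 0)
    constructor <;> nlinarith
  · have := len_nonneg (ev 2)
    constructor <;> nlinarith

/-- the lower bound of the weights -/
theorem le_gw_ev (hN : 0 < N) {n m : ℕ} (h : n ≤ m) (e : Fin 6) (he : e = 0 ∨ e = 2) :
    8 * 8 ^ (m - n) ≤ gw (Mn N n) ((Mn N m : ℤ) • ev e) := by
  obtain ⟨j, rfl⟩ := Nat.exists_eq_add_of_le h
  have hM : (0 : ℝ) < Mn N n := by exact_mod_cast Mn_pos hN n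
  have h1 : 2 ≤ len (ev e) := (len_ev he).1
  have h2 : (Mn N (n + j) : ℝ) = Mn N n * 2 ^ j := by
    unfold Mn; push_cast; rw [pow_add]; ring
  have h3 : 2 * 2 ^ j ≤ len ((Mn N (n + j) : ℤ) • ev e) / Mn N n := by
    rw [len_smul, h2, le_div_iff₀ hM]
    have : (0 : ℝ) ≤ Mn N n * 2 ^ j := by positivity
    nlinarith [mul_le_mul_of_nonneg_left h1 this]
  unfold gw
  rw [Nat.add_sub_cancel_left]
  calc (8 : ℝ) * 8 ^ j = (2 * 2 ^ j) ^ 3 := by
        rw [mul_pow, ← pow_mul, mul_comm j 3, pow_mul]; norm_num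
    _ ≤ _ := pow_le_pow_left₀ (by positivity) (h3.trans (le_max_right _ _)) 3

/-- the upper bound of the weights -/
theorem gw_ev_le (hN : 0 < N) (n m : ℕ) (e : Fin 6) (he : e = 0 ∨ e = 2) :
    gw (Mn N n) ((Mn N m : ℤ) • ev e) ≤ 27 * 8 ^ (m - n) := by
  have hM : (0 : ℝ) < Mn N n := by exact_mod_cast Mn_pos hN n
  have h1 : len (ev e) ≤ 3 := (len_ev he).2
  have h2 : (Mn N m : ℝ) ≤ Mn N n * 2 ^ (m - n) := by
    unfold Mn; push_cast
    rw [mul_assoc, ← pow_add]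
    apply mul_le_mul_of_nonneg_left _ (Nat.cast_nonneg _)
    exact pow_le_pow_right₀ (by norm_num) (by omega)
  have h3 : len ((Mn N m : ℤ) • ev e) / Mn N n ≤ 3 * 2 ^ (m - n) := by
    rw [len_smul, div_le_iff₀ hM]
    have h4 : (0 : ℝ) ≤ Mn N m := Nat.cast_nonneg _
    have h5 := mul_le_mul_of_nonneg_left h1 h4
    linarith
  have h4 : (1 : ℝ) ≤ 3 * 2 ^ (m - n) := by
    have : (1 : ℝ) ≤ 2 ^ (m - n) := one_le_pow₀ (by norm_num)
    linarith
  unfold gw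
  calc _ ≤ (3 * 2 ^ (m - n) : ℝ) ^ 3 := pow_le_pow_left₀ (by positivity) (max_le h4 h3) 3
    _ = 27 * 8 ^ (m - n) := by
        rw [mul_pow, ← pow_mul, mul_comm (m - n) 3, pow_mul]; norm_num

theorem gw_neg (M : ℝ) (k : K3) : gw M (-k) = gw M k := by unfold gw; rw [len_neg]

theorem Sy.cv_ev (h : Sy T c E N α μ x y f g a b) {n m : ℕ} (hnm : n ≤ m) {r Γ : ℝ}
    (hr : r ∈ Icc 0 T) (hG : GG a (Mn N n) r ≤ Γ) (e : Fin 6) (he : e = 0 ∨ e = 2) :
    cv (fun l => a l r) (fun l => a l r) ((Mn N m : ℤ) • ev e) ≤ Γ ^ 2 * (1 / 8) ^ (m - n) := by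
  have hM : (1 : ℝ) ≤ Mn N n := one_le_Mn h.N0 n
  have hM0 : (0 : ℝ) < Mn N n := by linarith
  have h1 := gw_cv_le (M := Mn N n) (a := fun l => a l r) (b := fun l => a l r) hM0
    (fun k => h.a0 k r) (fun k => h.a0 k r) (h.sa hM hr) (h.sa hM hr) ((Mn N m : ℤ) • ev e)
  have h2 := le_gw_ev h.N0 hnm e he
  have h3 := cv_nonneg (fun k => h.a0 k r) (fun k => h.a0 k r) ((Mn N m : ℤ) • ev e)
  have h0 : 0 ≤ GG a (Mn N n) r := tsum_nonneg fun k => mul_nonneg (gw_pos _ k).le (h.a0 k r)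
  have h4 : GG a (Mn N n) r * GG a (Mn N n) r ≤ Γ ^ 2 := by
    rw [sq]; exact mul_le_mul hG hG h0 (h0.trans hG)
  have h5 := mul_le_mul_of_nonneg_right h2 h3
  have h6 : 8 * 8 ^ (m - n) * cv (fun l => a l r) (fun l => a l r) ((Mn N m : ℤ) • ev e)
      ≤ 8 * Γ ^ 2 := by
    refine h5.trans (h1.trans ?_)
    exact mul_le_mul_of_nonneg_left h4 (by norm_num)
  have h7 : (0 : ℝ) < 8 ^ (m - n) := by positivity
  rw [one_div_pow, mul_one_div, le_div_iff₀ h7]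
  linarith

/-- the noise -/
theorem Sy.noise (h : Sy T c E N α μ x y f g a b) {n m : ℕ} (hnm : n ≤ m) {r Γ : ℝ}
    (hr : r ∈ Ioo 0 T) (hG : GG a (Mn N n) r ≤ Γ) :
    |f m r| + |g m r| ≤ 40 * Γ ^ 2 * (Mn N m * (1 / 8) ^ (m - n)) := by
  have h1 := h.fb m r hr
  have h2 := h.gb m r hr
  have h3 := h.cv_ev hnm (Ioo_subset_Icc_self hr) hG 0 (Or.inl rfl)
  have h4 := h.cv_ev hnm (Ioo_subset_Icc_self hr) hG 2 (Or.inr rfl)
  have hM : (0 : ℝ) ≤ 20 * Mn N m := by positivity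
  have h5 := mul_le_mul_of_nonneg_left h3 hM
  have h6 := mul_le_mul_of_nonneg_left h4 hM
  calc |f m r| + |g m r| ≤ 20 * Mn N m * (Γ ^ 2 * (1 / 8) ^ (m - n))
        + 20 * Mn N m * (Γ ^ 2 * (1 / 8) ^ (m - n)) := add_le_add (h1.trans h5) (h2.trans h6)
    _ = _ := by ring

/-- the smoothing step -/
theorem Sy.zb (h : Sy T c E N α μ x y f g a b) {M : ℝ} (hM : 1 ≤ M) {tn ts Γ : ℝ} (h0 : 0 ≤ tn)
    (hts : tn ≤ ts) (hT : ts ≤ T) (hΓ : ∀ r ∈ Ioo tn ts, GG a M r ≤ Γ) :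
    GG b M ts ≤ GG b M tn + 112 * Γ ^ 2 * √((ts - tn) / c) := by
  have hc := h.c0
  have hsub : Icc tn ts ⊆ Icc 0 T := Icc_subset_Icc h0 hT
  have hsub' : Ioo tn ts ⊆ Ioo 0 T := Ioo_subset_Ioo h0 hT
  have htn : tn ∈ Icc 0 T := hsub ⟨le_rfl, hts⟩
  have hts' : ts ∈ Icc 0 T := hsub ⟨hts, le_rfl⟩
  have hsc : 0 < √c := Real.sqrt_pos.2 hc
  have key : ∀ F : Finset K3, ∑ k ∈ F, gw M k * b k ts
      ≤ GG b M tn + 112 * Γ ^ 2 * √((ts - tn) / c) := by
    intro F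
    have h1 := zstep F (w := gw M) (lam := fun k => c * len k ^ 2) (b := b)
      (Fk := fun k r => 7 * len k * cv (fun l => a l r) (fun l => a l r) k) (C := 56 * Γ ^ 2 / √c)
      hts (by positivity) (fun k => (gw_pos M k).le) (fun k => by positivity) h.b0
      (fun k => (h.bc k).mono hsub) (fun k r hr => h.bd k r (hsub' hr))
      (fun k r _ => mul_nonneg (mul_nonneg (by norm_num) (len_nonneg k))
        (cv_nonneg (fun k => h.a0 k r) (fun k => h.a0 k r) k))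
      (fun r hr => by
        have hr0 : 0 < ts - r := by linarith [hr.2]
        have hrT := hsub (Ioo_subset_Icc_self hr)
        obtain ⟨s1, s2⟩ := gw_cv (M := M) (a := fun l => a l r) (b := fun l => a l r) (by linarith)
          (fun k => h.a0 k r) (fun k => h.a0 k r) (h.sa hM hrT) (h.sa hM hrT)
        have hG0 : 0 ≤ GG a M r := tsum_nonneg fun k => mul_nonneg (gw_pos _ k).le (h.a0 k r)
        have s3 : GG a M r * GG a M r ≤ Γ ^ 2 := by
          rw [sq]; exact mul_le_mul (hΓ r hr) (hΓ r hr) hG0 (hG0.trans (hΓ r hr))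
        have s4 : ∑ k ∈ F, gw M k * cv (fun l => a l r) (fun l => a l r) k ≤ 8 * Γ ^ 2 := by
          refine (s1.sum_le_tsum F fun k _ => mul_nonneg (gw_pos M k).le
            (cv_nonneg (fun k => h.a0 k r) (fun k => h.a0 k r) k)).trans (s2.trans ?_)
          exact mul_le_mul_of_nonneg_left s3 (by norm_num)
        have s5 : √(c * (ts - r)) = √c * √(ts - r) := Real.sqrt_mul hc.le _
        have s6 : 0 < √(ts - r) := Real.sqrt_pos.2 hr0
        have s7 : ∀ k ∈ F, gw M k * (Real.exp (-(c * len k ^ 2 * (ts - r)))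
            * (7 * len k * cv (fun l => a l r) (fun l => a l r) k))
            ≤ 7 / (√c * √(ts - r)) * (gw M k * cv (fun l => a l r) (fun l => a l r) k) := by
          intro k _
          have e1 := len_exp_le (l := len k) hc hr0
          rw [s5] at e1
          have e2 : 0 ≤ gw M k * cv (fun l => a l r) (fun l => a l r) k :=
            mul_nonneg (gw_pos M k).le (cv_nonneg (fun k => h.a0 k r) (fun k => h.a0 k r) k)
          have e3 := mul_le_mul_of_nonneg_right e1 e2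
          calc _ = 7 * (len k * Real.exp (-(c * len k ^ 2 * (ts - r)))
                * (gw M k * cv (fun l => a l r) (fun l => a l r) k)) := by ring
            _ ≤ 7 * (1 / (√c * √(ts - r)) * (gw M k * cv (fun l => a l r) (fun l => a l r) k)) :=
                mul_le_mul_of_nonneg_left e3 (by norm_num)
            _ = _ := by ring
        refine (Finset.sum_le_sum s7).trans ?_
        rw [← Finset.mul_sum]
        calc _ ≤ 7 / (√c * √(ts - r)) * (8 * Γ ^ 2) :=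
              mul_le_mul_of_nonneg_left s4 (by positivity)
          _ = _ := by field_simp; ring)
    refine h1.trans ?_
    have h2 : ∑ k ∈ F, gw M k * b k tn ≤ GG b M tn :=
      (h.sb hM htn).sum_le_tsum F fun k _ => mul_nonneg (gw_pos M k).le (h.b0 k tn)
    have h3 : 2 * (56 * Γ ^ 2 / √c) * √(ts - tn) = 112 * Γ ^ 2 * √((ts - tn) / c) := by
      rw [Real.sqrt_div' _ hc.le]; ring
    linarith
  exact Real.tsum_le_of_sum_le (fun k => mul_nonneg (gw_pos M k).le (h.b0 k ts)) key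

end Pool.Agent.N977.S
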