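import Pool.Agent.N977.S.Four
import Pool.Agent.N977.S.Step

/-!
Smoothing estimate for weighted sums of Fourier coefficients.
-/

open Set Filter Topology

namespace Pool.Agent.N977.S

open H459R3.NS Pool.Agent.N977.Q
open Pool.Agent.N977.K (cmp)

/-- `z exp (-z²) ≤ 1` -/
theorem mul_exp_le {z : ℝ} : z * Real.exp (-z ^ 2) ≤ 1 := by
  have h1 : z ≤ Real.exp (z ^ 2) := by
    have := Real.add_one_le_exp (z ^ 2)
    nlinarith [sq_nonneg (z - 1)]
  have h2 := mul_le_mul_of_nonneg_right h1 (Real.exp_pos (-z ^ 2)).le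
  rw [← Real.exp_add] at h2
  simpa using h2

theorem len_exp_le {c l r : ℝ} (hc : 0 < c) (hr : 0 < r) :
    l * Real.exp (-(c * l ^ 2 * r)) ≤ 1 / √(c * r) := by
  have h0 : 0 < √(c * r) := Real.sqrt_pos.2 (by positivity)
  rw [le_div_iff₀ h0]
  have h1 := mul_exp_le (z := l * √(c * r))
  have e : (l * √(c * r)) ^ 2 = c * l ^ 2 * r := by
    rw [mul_pow, Real.sq_sqrt (by positivity)]; ring
  rw [e] at h1
  linarith

/-- the smoothing estimate -/
theorem zstep {ι : Type*} (F : Finset ι) {w lam : ι → ℝ} {b Fk : ι → ℝ → ℝ} {s t C : ℝ}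
    (hst : s ≤ t) (hC : 0 ≤ C) (hw : ∀ k, 0 ≤ w k) (hl : ∀ k, 0 ≤ lam k) (hb : ∀ k r, 0 ≤ b k r)
    (hbc : ∀ k, ContinuousOn (fun r => b k r ^ 2) (Icc s t))
    (hd : ∀ k, ∀ r ∈ Ioo s t, ∃ B, |B| ≤ b k r * Fk k r ∧
      HasDerivAt (fun r => b k r ^ 2) (-(2 * lam k) * b k r ^ 2 + 2 * B) r)
    (hF0 : ∀ k, ∀ r ∈ Ioo s t, 0 ≤ Fk k r)
    (hF : ∀ r ∈ Ioo s t, ∑ k ∈ F, w k * (Real.exp (-(lam k * (t - r))) * Fk k r) ≤ C / √(t - r)) :
    ∑ k ∈ F, w k * b k t ≤ ∑ k ∈ F, w k * b k s + 2 * C * √(t - s) := by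
  set Λ := ∑ k ∈ F, w k * lam k with hΛ
  have key : ∀ η : ℝ, 0 < η → ∑ k ∈ F, w k * b k t ≤ ∑ k ∈ F, w k * b k s + 2 * C * √(t - s)
      + η * (∑ k ∈ F, w k + Λ * (t - s)) := by
    intro η hη
    have hpos : ∀ k r, 0 < b k r ^ 2 + η ^ 2 := fun k r => by positivity
    -- choose the derivatives
    choose! B hB1 hB2 using hd
    have hcmp := cmp (f := fun r => ∑ k ∈ F, w k * (Real.exp (-(lam k * (t - r)))
        * √(b k r ^ 2 + η ^ 2)))
      (f' := fun r => ∑ k ∈ F, w k * (Real.exp (-(lam k * (t - r))) * lam k * √(b k r ^ 2 + η ^ 2)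
        + Real.exp (-(lam k * (t - r))) * ((-(2 * lam k) * b k r ^ 2 + 2 * B k r)
          / (2 * √(b k r ^ 2 + η ^ 2)))))
      (g := fun r => η * Λ * r - 2 * C * √(t - r))
      (g' := fun r => η * Λ - 2 * C * (-1 / (2 * √(t - r)))) hst
      (continuousOn_finsetSum _ fun k _ => continuousOn_const.mul
        ((Real.continuous_exp.comp (by fun_prop)).continuousOn.mul
          (((hbc k).add continuousOn_const).sqrt)))
      (by fun_prop)
      (fun r hr => HasDerivAt.fun_sum fun k _ => by
        have h1 : HasDerivAt (fun r => Real.exp (-(lam k * (t - r))))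
            (Real.exp (-(lam k * (t - r))) * lam k) r := by
          have := (((hasDerivAt_id r).const_sub t).const_mul (lam k)).neg.exp
          refine this.congr_deriv ?_
          simp
        exact (h1.mul (((hB2 k r hr).add_const (η ^ 2)).sqrt (hpos k r).ne')).const_mul (w k))
      (fun r hr => by
        have h0 : t - r ≠ 0 := by have := hr.2; intro h; linarith
        have h1 := ((hasDerivAt_id r).const_sub t).sqrt h0
        have h2 := ((hasDerivAt_id r).const_mul (η * Λ)).sub (h1.const_mul (2 * C))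
        refine h2.congr_deriv ?_
        simp)
      (fun r hr => by
        have hr0 : 0 < t - r := by linarith [hr.2]
        have h1 := hF r hr
        have h2 : ∀ k ∈ F, w k * (Real.exp (-(lam k * (t - r))) * lam k * √(b k r ^ 2 + η ^ 2)
            + Real.exp (-(lam k * (t - r))) * ((-(2 * lam k) * b k r ^ 2 + 2 * B k r)
              / (2 * √(b k r ^ 2 + η ^ 2))))
            ≤ η * (w k * lam k) + w k * (Real.exp (-(lam k * (t - r))) * Fk k r) := by
          intro k _
          have a0 : 0 < √(b k r ^ 2 + η ^ 2) := Real.sqrt_pos.2 (hpos k r)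
          have a1 : √(b k r ^ 2 + η ^ 2) ^ 2 = b k r ^ 2 + η ^ 2 := Real.sq_sqrt (hpos k r).le
          have a2 : b k r ≤ √(b k r ^ 2 + η ^ 2) := by
            apply Real.le_sqrt_of_sq_le; linarith [sq_nonneg η]
          have a3 : η ≤ √(b k r ^ 2 + η ^ 2) := by
            apply Real.le_sqrt_of_sq_le; linarith [sq_nonneg (b k r)]
          have a4 := hB1 k r hr
          have a5 := hF0 k r hr
          set ρ := √(b k r ^ 2 + η ^ 2) with hρ
          have a6 : lam k * ρ + (-(2 * lam k) * b k r ^ 2 + 2 * B k r) / (2 * ρ)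
              ≤ η * lam k + Fk k r := by
            have : lam k * ρ + (-(2 * lam k) * b k r ^ 2 + 2 * B k r) / (2 * ρ)
                = (lam k * η ^ 2 + B k r) / ρ := by
              field_simp
              rw [a1]; ring
            rw [this, div_le_iff₀ a0]
            have b1 : lam k * η ^ 2 ≤ lam k * (η * ρ) := by
              apply mul_le_mul_of_nonneg_left _ (hl k)
              rw [sq]; exact mul_le_mul_of_nonneg_left a3 hη.le
            have b2 : B k r ≤ Fk k r * ρ := by
              have := le_abs_self (B k r)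
              have := mul_le_mul_of_nonneg_right a2 a5
              linarith
            linarith
          have a7 : Real.exp (-(lam k * (t - r))) ≤ 1 := by
            rw [Real.exp_le_one_iff]
            have := mul_nonneg (hl k) hr0.le
            linarith
          have a8 := (Real.exp_pos (-(lam k * (t - r)))).le
          have a9 := mul_le_mul_of_nonneg_left a6 a8
          have a10 : Real.exp (-(lam k * (t - r))) * (η * lam k) ≤ η * lam k :=
            mul_le_of_le_one_left (mul_nonneg hη.le (hl k)) a7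
          have a11 : Real.exp (-(lam k * (t - r))) * lam k * ρ
              + Real.exp (-(lam k * (t - r))) * ((-(2 * lam k) * b k r ^ 2 + 2 * B k r) / (2 * ρ))
              ≤ η * lam k + Real.exp (-(lam k * (t - r))) * Fk k r := by
            have e1 : Real.exp (-(lam k * (t - r))) * lam k * ρ
              + Real.exp (-(lam k * (t - r))) * ((-(2 * lam k) * b k r ^ 2 + 2 * B k r) / (2 * ρ))
              = Real.exp (-(lam k * (t - r))) * (lam k * ρ
                + (-(2 * lam k) * b k r ^ 2 + 2 * B k r) / (2 * ρ)) := by ring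
            rw [e1]
            linarith
          have a12 := mul_le_mul_of_nonneg_left a11 (hw k)
          linarith
        refine (Finset.sum_le_sum h2).trans ?_
        rw [Finset.sum_add_distrib, ← Finset.mul_sum]
        have h3 : 2 * C * (-1 / (2 * √(t - r))) = -(C / √(t - r)) := by
          have : √(t - r) ≠ 0 := (Real.sqrt_pos.2 hr0).ne'
          field_simp
        rw [h3]
        linarith)
    simp only [sub_self, mul_zero, neg_zero, Real.exp_zero, one_mul, Real.sqrt_zero, sub_zero]
      at hcmp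
    have e1 : ∑ k ∈ F, w k * b k t ≤ ∑ k ∈ F, w k * √(b k t ^ 2 + η ^ 2) :=
      Finset.sum_le_sum fun k _ => mul_le_mul_of_nonneg_left
        (Real.le_sqrt_of_sq_le (by linarith [sq_nonneg η])) (hw k)
    have e2 : ∑ k ∈ F, w k * (Real.exp (-(lam k * (t - s))) * √(b k s ^ 2 + η ^ 2))
        ≤ ∑ k ∈ F, w k * b k s + η * ∑ k ∈ F, w k := by
      rw [Finset.mul_sum, ← Finset.sum_add_distrib]
      refine Finset.sum_le_sum fun k _ => ?_
      have a1 : √(b k s ^ 2 + η ^ 2) ≤ b k s + η := by
        apply Real.sqrt_le_iff.2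
        have := hb k s
        exact ⟨by positivity, by nlinarith [mul_nonneg (hb k s) hη.le]⟩
      have a2 : Real.exp (-(lam k * (t - s))) ≤ 1 := by
        rw [Real.exp_le_one_iff]
        have := mul_nonneg (hl k) (sub_nonneg.2 hst)
        linarith
      have a3 : Real.exp (-(lam k * (t - s))) * √(b k s ^ 2 + η ^ 2) ≤ b k s + η :=
        (mul_le_of_le_one_left (Real.sqrt_nonneg _) a2).trans a1
      have a4 := mul_le_mul_of_nonneg_left a3 (hw k)
      linarith
    linarith
  by_contra hcon
  push Not at hcon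
  set D := ∑ k ∈ F, w k + Λ * (t - s) with hD
  have hΛ0 : 0 ≤ Λ := Finset.sum_nonneg fun k _ => mul_nonneg (hw k) (hl k)
  have hD0 : 0 ≤ D := add_nonneg (Finset.sum_nonneg fun k _ => hw k)
    (mul_nonneg hΛ0 (sub_nonneg.2 hst))
  set g := ∑ k ∈ F, w k * b k t - (∑ k ∈ F, w k * b k s + 2 * C * √(t - s)) with hg
  have hg0 : 0 < g := by linarith
  have h1 := key (g / (2 * (D + 1))) (by positivity)
  have h2 : g / (2 * (D + 1)) * D ≤ g / 2 := by
    rw [div_mul_eq_mul_div, div_le_iff₀ (by positivity)]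
    nlinarith
  linarith

end Pool.Agent.N977.S
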